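import Pool.Agent.Lib.MP_c57e60_co.Pole

set_option autoImplicit false

namespace Pool.Agent.MP_c57e60_co

section
variable {m : ℕ}

/-- left port values of the four big blocks -/
def yL {P : PD m} (x : SE P → ℕ) (l r : Fin (m + 3) → ℕ) (i : Fin 4) (j : Fin (m + 2)) : ℕ :=
  if i = 0 then l j.castSucc
  else if i = 1 then r j.castSucc
  else if i = 2 then
    Fin.cases (motive := fun _ => ℕ) (r (Fin.last (m + 2)))
      (fun j' => x (Sum.inr (Sum.inr (Sum.inl (1, j'))))) j
  else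
    Fin.cases (motive := fun _ => ℕ) (x (Sum.inr (Sum.inr (Sum.inr 1))))
      (fun j' => x (Sum.inr (Sum.inr (Sum.inl (1, j'))))) j

/-- right port values of the four big blocks -/
def yR {P : PD m} (x : SE P → ℕ) (i : Fin 4) (j : Fin (m + 2)) : ℕ :=
  if i = 0 then
    Fin.lastCases (motive := fun _ => ℕ) (x (Sum.inr (Sum.inr (Sum.inr 0))))
      (fun j' => x (Sum.inr (Sum.inr (Sum.inl (0, j'))))) j
  else if i = 1 then
    Fin.lastCases (motive := fun _ => ℕ) (x (Sum.inr (Sum.inr (Sum.inr 3))))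
      (fun j' => x (Sum.inr (Sum.inr (Sum.inl (2, j'))))) j
  else if i = 2 then
    Fin.cases (motive := fun _ => ℕ) (x (Sum.inr (Sum.inr (Sum.inr 2))))
      (fun j' => x (Sum.inr (Sum.inr (Sum.inl (0, j'))))) j
  else
    Fin.cases (motive := fun _ => ℕ) (x (Sum.inr (Sum.inr (Sum.inr 0))))
      (fun j' => x (Sum.inr (Sum.inr (Sum.inl (2, j'))))) j

/-- left port values of the small block -/
def yL4 {P : PD m} (x : SE P → ℕ) (l : Fin (m + 3) → ℕ) : Fin 2 → ℕ :=
  ![x (Sum.inr (Sum.inr (Sum.inr 1))), l (Fin.last (m + 2))]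

/-- right port values of the small block -/
def yR4 {P : PD m} (x : SE P → ℕ) : Fin 2 → ℕ :=
  ![x (Sum.inr (Sum.inr (Sum.inr 3))), x (Sum.inr (Sum.inr (Sum.inr 2)))]

variable (P : PD m)

lemma ps_sL_inl (l : Fin (m + 3) → ℕ) (i : Fin 4) (v : P.V) :
    ps (sL P) l (Sum.inl (i, v)) = if i = 0 then ps P.L (fun j => l j.castSucc) v else 0 := by
  unfold ps
  rw [Fin.sum_univ_castSucc]
  by_cases h : i = 0
  · subst h; simp [sL]
  · have h' : ¬ (0 : Fin 4) = i := fun hh => h hh.symm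
    simp [sL, h, h']

lemma ps_sL_inr (l : Fin (m + 3) → ℕ) (v : Fin 10) :
    ps (sL P) l (Sum.inr v) = if (1 : Fin 10) = v then l (Fin.last (m + 2)) else 0 := by
  unfold ps
  rw [Fin.sum_univ_castSucc]
  simp [sL]

lemma ps_sR_inl (r : Fin (m + 3) → ℕ) (i : Fin 4) (v : P.V) :
    ps (sR P) r (Sum.inl (i, v)) = (if i = 1 then ps P.L (fun j => r j.castSucc) v else 0) +
      (if i = 2 ∧ P.L 0 = v then r (Fin.last (m + 2)) else 0) := by
  unfold ps
  rw [Fin.sum_univ_castSucc]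
  by_cases h : i = 1
  · subst h; simp [sR]
  · have h' : ¬ (1 : Fin 4) = i := fun hh => h hh.symm
    by_cases h2 : i = 2
    · subst h2; simp [sR]
    · have h2' : ¬ (2 : Fin 4) = i := fun hh => h2 hh.symm
      simp [sR, h, h', h2, h2']

lemma ps_sR_inr (r : Fin (m + 3) → ℕ) (v : Fin 10) :
    ps (sR P) r (Sum.inr v) = 0 := by
  unfold ps
  rw [Fin.sum_univ_castSucc]
  simp [sR]

lemma sum_blocks_inl (x : SE P → ℕ) (i : Fin 4) (v : P.V) :
    ∑ e : Fin 4 × P.E, ((if sA P (Sum.inl e) = Sum.inl (i, v) then x (Sum.inl e) else 0) +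
      (if sB P (Sum.inl e) = Sum.inl (i, v) then x (Sum.inl e) else 0)) =
    vs P.a P.b (fun e => x (Sum.inl (i, e))) v := by
  unfold vs
  rw [Fintype.sum_prod_type, Finset.sum_eq_single i]
  · refine Finset.sum_congr rfl fun e _ => ?_
    simp [sA, sB]
  · intro i' _ hi'
    refine Finset.sum_eq_zero fun e _ => ?_
    simp [sA, sB, hi']
  · simp

lemma sum_small_inl (x : SE P → ℕ) (w : Fin 4 × P.V) :
    ∑ e : Fin 17, ((if sA P (Sum.inr (Sum.inl e)) = Sum.inl w then
        x (Sum.inr (Sum.inl e)) else 0) +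
      (if sB P (Sum.inr (Sum.inl e)) = Sum.inl w then x (Sum.inr (Sum.inl e)) else 0)) = 0 := by
  refine Finset.sum_eq_zero fun e _ => ?_
  simp [sA, sB]

lemma sum_ce_inl0 (x : SE P → ℕ) (v : P.V) :
    ∑ c : CE m, ((if sA P (Sum.inr (Sum.inr c)) = Sum.inl (0, v) then
        x (Sum.inr (Sum.inr c)) else 0) +
      (if sB P (Sum.inr (Sum.inr c)) = Sum.inl (0, v) then x (Sum.inr (Sum.inr c)) else 0)) =
    ps P.R (yR x 0) v := by
  unfold ps
  rw [Fintype.sum_sum_type, Fintype.sum_prod_type, Fin.sum_univ_castSucc (n := m + 1)]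
  simp [Fin.sum_univ_succ (n := 2), Fin.sum_univ_succ (n := 3), Fin.sum_univ_succ (n := 1), sA, sB, ceA, ceB, yR]

lemma sum_ce_inl1 (x : SE P → ℕ) (v : P.V) :
    ∑ c : CE m, ((if sA P (Sum.inr (Sum.inr c)) = Sum.inl (1, v) then
        x (Sum.inr (Sum.inr c)) else 0) +
      (if sB P (Sum.inr (Sum.inr c)) = Sum.inl (1, v) then x (Sum.inr (Sum.inr c)) else 0)) =
    ps P.R (yR x 1) v := by
  unfold ps
  rw [Fintype.sum_sum_type, Fintype.sum_prod_type, Fin.sum_univ_castSucc (n := m + 1)]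
  simp [Fin.sum_univ_succ (n := 2), Fin.sum_univ_succ (n := 3), Fin.sum_univ_succ (n := 1), sA, sB, ceA, ceB, yR]

lemma sum_ce_inl2 (x : SE P → ℕ) (l r : Fin (m + 3) → ℕ) (v : P.V) :
    ∑ c : CE m, ((if sA P (Sum.inr (Sum.inr c)) = Sum.inl (2, v) then
        x (Sum.inr (Sum.inr c)) else 0) +
      (if sB P (Sum.inr (Sum.inr c)) = Sum.inl (2, v) then x (Sum.inr (Sum.inr c)) else 0)) +
      (if P.L 0 = v then r (Fin.last (m + 2)) else 0) =
    ps P.L (yL x l r 2) v + ps P.R (yR x 2) v := by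
  unfold ps
  rw [Fintype.sum_sum_type, Fintype.sum_prod_type, Fin.sum_univ_succ (n := m + 1),
    Fin.sum_univ_succ (n := m + 1)]
  simp [Fin.sum_univ_succ (n := 2), Fin.sum_univ_succ (n := 3), Fin.sum_univ_succ (n := 1),
    sA, sB, ceA, ceB, yR, yL]
  ring

lemma sum_ce_inl3 (x : SE P → ℕ) (l r : Fin (m + 3) → ℕ) (v : P.V) :
    ∑ c : CE m, ((if sA P (Sum.inr (Sum.inr c)) = Sum.inl (3, v) then
        x (Sum.inr (Sum.inr c)) else 0) +
      (if sB P (Sum.inr (Sum.inr c)) = Sum.inl (3, v) then x (Sum.inr (Sum.inr c)) else 0)) =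
    ps P.L (yL x l r 3) v + ps P.R (yR x 3) v := by
  unfold ps
  rw [Fintype.sum_sum_type, Fintype.sum_prod_type, Fin.sum_univ_succ (n := m + 1),
    Fin.sum_univ_succ (n := m + 1)]
  simp [Fin.sum_univ_succ (n := 2), Fin.sum_univ_succ (n := 3), Fin.sum_univ_succ (n := 1),
    sA, sB, ceA, ceB, yR, yL]
  ring

lemma vs_split (x : SE P → ℕ) (w : SV P) :
    vs (sA P) (sB P) x w =
    ∑ e : Fin 4 × P.E, ((if sA P (Sum.inl e) = w then x (Sum.inl e) else 0) +
      (if sB P (Sum.inl e) = w then x (Sum.inl e) else 0)) +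
    (∑ e : Fin 17, ((if sA P (Sum.inr (Sum.inl e)) = w then x (Sum.inr (Sum.inl e)) else 0) +
      (if sB P (Sum.inr (Sum.inl e)) = w then x (Sum.inr (Sum.inl e)) else 0)) +
    ∑ c : CE m, ((if sA P (Sum.inr (Sum.inr c)) = w then x (Sum.inr (Sum.inr c)) else 0) +
      (if sB P (Sum.inr (Sum.inr c)) = w then x (Sum.inr (Sum.inr c)) else 0))) := by
  unfold vs
  rw [Fintype.sum_sum_type, Fintype.sum_sum_type]

lemma vs_inl (x : SE P → ℕ) (l r : Fin (m + 3) → ℕ) (i : Fin 4) (v : P.V) :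
    vs (sA P) (sB P) x (Sum.inl (i, v)) + ps (sL P) l (Sum.inl (i, v)) +
      ps (sR P) r (Sum.inl (i, v)) =
    vs P.a P.b (fun e => x (Sum.inl (i, e))) v + ps P.L (yL x l r i) v + ps P.R (yR x i) v := by
  rw [ps_sL_inl, ps_sR_inl, vs_split, sum_blocks_inl, sum_small_inl]
  obtain rfl | rfl | rfl | rfl : i = 0 ∨ i = 1 ∨ i = 2 ∨ i = 3 := by
    fin_cases i <;> simp
  · have h0 := sum_ce_inl0 P x v
    have : ps P.L (yL x l r 0) v = ps P.L (fun j => l j.castSucc) v := rfl
    rw [h0, this, if_pos rfl, if_neg (by simp), if_neg (by simp)]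
    omega
  · have h0 := sum_ce_inl1 P x v
    have : ps P.L (yL x l r 1) v = ps P.L (fun j => r j.castSucc) v := rfl
    rw [h0, this, if_pos rfl, if_neg (by simp), if_neg (by simp)]
    omega
  · have h0 := sum_ce_inl2 P x l r v
    simp only [Fin.isValue, Fin.reduceEq, if_false, true_and]
    omega
  · have h0 := sum_ce_inl3 P x l r v
    simp only [Fin.isValue, Fin.reduceEq, if_false, false_and]
    omega

lemma vs_inr (x : SE P → ℕ) (l r : Fin (m + 3) → ℕ) (v : Fin 10) :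
    vs (sA P) (sB P) x (Sum.inr v) + ps (sL P) l (Sum.inr v) + ps (sR P) r (Sum.inr v) =
    vs baseA baseB (fun e => x (Sum.inr (Sum.inl e))) v + ps baseL (yL4 x l) v +
      ps baseR (yR4 x) v := by
  rw [ps_sL_inr, ps_sR_inr, vs_split]
  have h1 : ∑ e : Fin 4 × P.E, ((if sA P (Sum.inl e) = Sum.inr v then x (Sum.inl e) else 0) +
      (if sB P (Sum.inl e) = Sum.inr v then x (Sum.inl e) else 0)) = 0 := by
    refine Finset.sum_eq_zero fun e _ => ?_
    simp [sA, sB]
  have h2 : ∑ e : Fin 17, ((if sA P (Sum.inr (Sum.inl e)) = Sum.inr v then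
        x (Sum.inr (Sum.inl e)) else 0) +
      (if sB P (Sum.inr (Sum.inl e)) = Sum.inr v then x (Sum.inr (Sum.inl e)) else 0)) =
      vs baseA baseB (fun e => x (Sum.inr (Sum.inl e))) v := by
    unfold vs
    refine Finset.sum_congr rfl fun e _ => ?_
    simp [sA, sB]
  have h3 : ∑ c : CE m, ((if sA P (Sum.inr (Sum.inr c)) = Sum.inr v then
        x (Sum.inr (Sum.inr c)) else 0) +
      (if sB P (Sum.inr (Sum.inr c)) = Sum.inr v then x (Sum.inr (Sum.inr c)) else 0)) +
      (if (1 : Fin 10) = v then l (Fin.last (m + 2)) else 0) =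
      ps baseL (yL4 x l) v + ps baseR (yR4 x) v := by
    unfold ps
    rw [Fintype.sum_sum_type, Fintype.sum_prod_type]
    fin_cases v <;>
    simp [Fin.sum_univ_succ, sA, sB, ceA, ceB, yR4, yL4, baseL, baseR]
  omega

/-- the block decomposition of evenness -/
lemma succ_VE_iff (x : SE P → ℕ) (l r : Fin (m + 3) → ℕ) :
    P.succ.VE x l r ↔
      (∀ i, P.VE (fun e => x (Sum.inl (i, e))) (yL x l r i) (yR x i)) ∧
      base.VE (fun e => x (Sum.inr (Sum.inl e))) (yL4 x l) (yR4 x) := by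
  constructor
  · intro h
    refine ⟨fun i v => ?_, fun v => ?_⟩
    · have := h (Sum.inl (i, v))
      have e := vs_inl P x l r i v
      rw [← e]
      exact this
    · have := h (Sum.inr v)
      have e := vs_inr P x l r v
      change Even (vs baseA baseB (fun e => x (Sum.inr (Sum.inl e))) v + ps baseL (yL4 x l) v +
        ps baseR (yR4 x) v)
      rw [← e]
      exact this
  · rintro ⟨h1, h2⟩ v
    rcases v with ⟨i, v⟩ | v
    · have := h1 i v
      have e := vs_inl P x l r i v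
      rw [← e] at this
      exact this
    · have := h2 v
      have e := vs_inr P x l r v
      change Even (vs baseA baseB (fun e => x (Sum.inr (Sum.inl e))) v + ps baseL (yL4 x l) v +
        ps baseR (yR4 x) v) at this
      rw [← e] at this
      exact this

end

end Pool.Agent.MP_c57e60_co
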