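import Pool.Agent.Lib.MP_c57e60_co.Block

set_option autoImplicit false

namespace Pool.Agent.MP_c57e60_co

lemma base_canon : base.Canon := by
  refine ⟨?_, ?_, ?_⟩
  · change ∀ i : Fin 2, ∀ e : Fin 17, baseCan i e ≤ 1
    decide
  · change ∀ i : Fin 2, ∀ v : Fin 10, Even (vs baseA baseB (baseCan i) v +
      ps baseL (fun j => if j = i then 1 else 0) v + ps baseR (fun j => if j = i then 1 else 0) v)
    decide
  · change ∀ e : Fin 17, ∑ i, baseCan i e = if baseM e then 2 else 1
    decide

lemma VE_zero {m : ℕ} (P : PD m) : P.VE (fun _ => 0) (fun _ => 0) (fun _ => 0) := by
  intro v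
  simp [vs, ps]

lemma VE_congr {m : ℕ} {P : PD m} {x x' : P.E → ℕ} {l l' r r' : Fin (m + 2) → ℕ}
    (h : P.VE x l r) (hx : ∀ e, x' e = x e) (hl : ∀ e, l' e = l e) (hr : ∀ e, r' e = r e) :
    P.VE x' l' r' := by
  have h1 : x' = x := funext hx
  have h2 : l' = l := funext hl
  have h3 : r' = r := funext hr
  rw [h1, h2, h3]; exact h

section
variable {m : ℕ} {P : PD m}

lemma can1_even (h : P.Canon) (j : Fin (m + 1)) :
    P.succ.VE (can1 P j) (fun k => if k = j.castSucc.castSucc then 1 else 0)
      (fun k => if k = j.castSucc.castSucc then 1 else 0) := by
  rw [succ_VE_iff]
  constructor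
  · intro i
    obtain rfl | rfl | rfl | rfl : i = 0 ∨ i = 1 ∨ i = 2 ∨ i = 3 := by
      fin_cases i <;> simp
    · refine VE_congr (h.even j.castSucc) (fun e => by simp [can1]) (fun k => ?_) (fun k => ?_)
      · simp [yL]
      · induction k using Fin.lastCases with
        | last => simp only [yR, can1, if_true, Fin.lastCases_last]; rw [if_neg]; exact (Fin.castSucc_lt_last j).ne'
        | cast k => simp [yR, can1]
    · refine VE_congr (h.even j.castSucc) (fun e => by simp [can1]) (fun k => ?_) (fun k => ?_)
      · simp [yL]
      · induction k using Fin.lastCases with
        | last => simp only [yR, can1]; simp; exact (Fin.castSucc_lt_last j).ne'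
        | cast k => simp [yR, can1]
    · refine VE_congr (h.even j.succ) (fun e => by simp [can1]) (fun k => ?_) (fun k => ?_)
      · induction k using Fin.cases with
        | zero => 
          simp only [yL, can1]; simp
          rw [if_neg, if_neg]
          · exact (Fin.succ_ne_zero j).symm
          · exact (Fin.castSucc_lt_last _).ne'
        | succ k => simp [yL, can1]
      · induction k using Fin.cases with
        | zero => simp only [yR, can1]; simp; exact (Fin.succ_ne_zero j).symm
        | succ k => simp [yR, can1]
    · refine VE_congr (h.even j.succ) (fun e => by simp [can1]) (fun k => ?_) (fun k => ?_)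
      · induction k using Fin.cases with
        | zero => simp only [yL, can1]; simp; exact (Fin.succ_ne_zero j).symm
        | succ k => simp [yL, can1]
      · induction k using Fin.cases with
        | zero => simp only [yR, can1]; simp; exact (Fin.succ_ne_zero j).symm
        | succ k => simp [yR, can1]
  · refine VE_congr (VE_zero base) (fun e => by simp [can1]) (fun k => ?_) (fun k => ?_)
    · fin_cases k
      · simp [yL4, can1]
      · simp only [yL4, can1]; simp; exact (Fin.castSucc_lt_last _).ne'
    · fin_cases k <;> simp [yR4, can1]

lemma can2_even (h : P.Canon) :
    P.succ.VE (can2 P) (fun k => if k = (Fin.last (m + 1)).castSucc then 1 else 0)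
      (fun k => if k = (Fin.last (m + 1)).castSucc then 1 else 0) := by
  rw [succ_VE_iff]
  constructor
  · intro i
    obtain rfl | rfl | rfl | rfl : i = 0 ∨ i = 1 ∨ i = 2 ∨ i = 3 := by
      fin_cases i <;> simp
    · refine VE_congr (h.even (Fin.last (m + 1))) (fun e => by simp [can2]) (fun k => ?_)
        (fun k => ?_)
      · simp [yL]
      · induction k using Fin.lastCases with
        | last => simp [yR, can2]
        | cast k => simp only [yR, can2]; simp
    · refine VE_congr (h.even (Fin.last (m + 1))) (fun e => by simp [can2]) (fun k => ?_)
        (fun k => ?_)
      · simp [yL]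
      · induction k using Fin.lastCases with
        | last => simp [yR, can2]
        | cast k => simp only [yR, can2]; simp
    · refine VE_congr (VE_zero P) (fun e => by simp [can2]) (fun k => ?_) (fun k => ?_)
      · induction k using Fin.cases with
        | zero => simp only [yL, can2]; simp; exact (Fin.castSucc_lt_last _).ne'
        | succ k => simp [yL, can2]
      · induction k using Fin.cases with
        | zero => simp [yR, can2]
        | succ k => simp [yR, can2]
    · refine VE_congr (h.even 0) (fun e => by simp [can2]) (fun k => ?_) (fun k => ?_)
      · induction k using Fin.cases with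
        | zero => simp [yL, can2]
        | succ k => simp only [yL, can2]; simp
      · induction k using Fin.cases with
        | zero => simp [yR, can2]
        | succ k => simp only [yR, can2]; simp
  · refine VE_congr (base_canon.even 0) (fun e => rfl) (fun k => ?_) (fun k => ?_)
    · fin_cases k
      · simp [yL4, can2]
      · simp only [yL4, can2]; simp; exact (Fin.castSucc_lt_last _).ne'
    · fin_cases k <;> simp [yR4, can2]

lemma can3_even (h : P.Canon) :
    P.succ.VE (can3 P) (fun k => if k = Fin.last (m + 2) then 1 else 0)
      (fun k => if k = Fin.last (m + 2) then 1 else 0) := by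
  rw [succ_VE_iff]
  constructor
  · intro i
    obtain rfl | rfl | rfl | rfl : i = 0 ∨ i = 1 ∨ i = 2 ∨ i = 3 := by
      fin_cases i <;> simp
    · refine VE_congr (VE_zero P) (fun e => by simp [can3]) (fun k => ?_) (fun k => ?_)
      · simp only [yL]; simp
      · induction k using Fin.lastCases with
        | last => simp [yR, can3]
        | cast k => simp [yR, can3]
    · refine VE_congr (VE_zero P) (fun e => by simp [can3]) (fun k => ?_) (fun k => ?_)
      · simp only [yL]; simp
      · induction k using Fin.lastCases with
        | last => simp [yR, can3]
        | cast k => simp [yR, can3]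
    · refine VE_congr (h.even 0) (fun e => by simp [can3]) (fun k => ?_) (fun k => ?_)
      · induction k using Fin.cases with
        | zero => simp [yL]
        | succ k => simp only [yL, can3]; simp
      · induction k using Fin.cases with
        | zero => simp [yR, can3]
        | succ k => simp only [yR, can3]; simp
    · refine VE_congr (VE_zero P) (fun e => by simp [can3]) (fun k => ?_) (fun k => ?_)
      · induction k using Fin.cases with
        | zero => simp [yL, can3]
        | succ k => simp [yL, can3]
      · induction k using Fin.cases with
        | zero => simp [yR, can3]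
        | succ k => simp [yR, can3]
  · refine VE_congr (base_canon.even 1) (fun e => rfl) (fun k => ?_) (fun k => ?_)
    · fin_cases k <;> simp [yL4, can3]
    · fin_cases k <;> simp [yR4, can3]

lemma succ_canon (h : P.Canon) : P.succ.Canon := by
  refine ⟨?_, ?_, ?_⟩
  · intro i e
    change sCan P i e ≤ 1
    induction i using Fin.lastCases with
    | last =>
      simp only [sCan, Fin.lastCases_last]
      rcases e with ⟨i, e⟩ | e | ⟨t, j⟩ | t
      · simp only [can3]; split_ifs
        · exact h.le_one _ _
        · omega
      · exact base_canon.le_one 1 e
      · simp [can3]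
      · simp only [can3]; split_ifs <;> omega
    | cast i =>
      simp only [sCan, Fin.lastCases_castSucc]
      induction i using Fin.lastCases with
      | last =>
        simp only [Fin.lastCases_last]
        rcases e with ⟨i, e⟩ | e | ⟨t, j⟩ | t
        · simp only [can2]; split_ifs
          · exact h.le_one _ _
          · exact h.le_one _ _
          · omega
        · exact base_canon.le_one 0 e
        · simp [can2]
        · simp only [can2]; split_ifs <;> omega
      | cast j =>
        simp only [Fin.lastCases_castSucc]
        rcases e with ⟨i, e⟩ | e | ⟨t, j'⟩ | t
        · simp only [can1]; split_ifs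
          · exact h.le_one _ _
          · exact h.le_one _ _
        · simp [can1]
        · simp only [can1]; split_ifs <;> omega
        · simp [can1]
  · intro i
    change P.succ.VE (sCan P i) _ _
    induction i using Fin.lastCases with
    | last =>
      simp only [sCan, Fin.lastCases_last]
      exact can3_even h
    | cast i =>
      simp only [sCan, Fin.lastCases_castSucc]
      induction i using Fin.lastCases with
      | last =>
        simp only [Fin.lastCases_last]
        exact can2_even h
      | cast j =>
        simp only [Fin.lastCases_castSucc]
        exact can1_even h j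
  · intro e
    change ∑ i, sCan P i e = if sM P e then 2 else 1
    rw [Fin.sum_univ_castSucc, Fin.sum_univ_castSucc]
    simp only [sCan, Fin.lastCases_last, Fin.lastCases_castSucc]
    rcases e with ⟨i, e⟩ | e | ⟨t, j⟩ | t
    · have hc := h.count e
      change _ = if P.M e then 2 else 1
      rw [← hc]
      obtain rfl | rfl | rfl | rfl : i = 0 ∨ i = 1 ∨ i = 2 ∨ i = 3 := by
        fin_cases i <;> simp
      · rw [Fin.sum_univ_castSucc (fun i => P.can i e)]; simp [can1, can2, can3]
      · rw [Fin.sum_univ_castSucc (fun i => P.can i e)]; simp [can1, can2, can3]
      · rw [Fin.sum_univ_succ (fun i => P.can i e)]; simp [can1, can2, can3, add_comm]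
      · rw [Fin.sum_univ_succ (fun i => P.can i e)]; simp [can1, can2, can3, add_comm]
    · have hc := base_canon.count e
      simp only [sM]
      change _ = if baseM e then 2 else 1
      change ∑ i, baseCan i e = if baseM e then 2 else 1 at hc
      rw [← hc]
      simp [can1, can2, can3, Fin.sum_univ_succ]
    · simp [can1, can2, can3, sM]
    · change _ = 1
      simp only [can1, can2, can3]
      split_ifs <;> simp

end

end Pool.Agent.MP_c57e60_co
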