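import Pool.Agent.Lib.MP_c57e60_co.Pole

set_option autoImplicit false

namespace Pool.Agent.MP_c57e60_co

section reach
variable {V E : Type} {a b : E → V}

lemma adj.symm {u v : V} (h : adj a b u v) : adj a b v u := by
  obtain ⟨e, h | h⟩ := h
  · exact ⟨e, Or.inr h⟩
  · exact ⟨e, Or.inl h⟩

lemma reach.rfl' {D : Set V} {u : V} : reach a b D u u := Relation.ReflTransGen.refl

lemma reach.trans' {D : Set V} {u v w : V} (h1 : reach a b D u v) (h2 : reach a b D v w) :
    reach a b D u w := Relation.ReflTransGen.trans h1 h2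

lemma reach.symm' {D : Set V} {u v : V} (h : reach a b D u v) : reach a b D v u := by
  induction h with
  | refl => exact Relation.ReflTransGen.refl
  | tail _ h2 ih => exact Relation.ReflTransGen.head ⟨h2.1.symm, h2.2.2, h2.2.1⟩ ih

lemma reach.single' {D : Set V} {u v : V} (h : adj a b u v) (hu : u ∉ D) (hv : v ∉ D) :
    reach a b D u v := Relation.ReflTransGen.single ⟨h, hu, hv⟩

lemma reach.not_mem {D : Set V} {u v : V} (h : reach a b D u v) (hu : u ∉ D) : v ∉ D := by
  induction h with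
  | refl => exact hu
  | tail _ h2 _ => exact h2.2.2

lemma reach.map' {V' E' : Type} {a' b' : E' → V'} {D : Set V} {D' : Set V'} (f : V → V')
    (hf : ∀ u v, adj a b u v → adj a' b' (f u) (f v)) (hD : ∀ x, f x ∈ D' → x ∈ D)
    {u v : V} (h : reach a b D u v) : reach a' b' D' (f u) (f v) := by
  induction h with
  | refl => exact Relation.ReflTransGen.refl
  | tail _ h2 ih =>
    exact Relation.ReflTransGen.tail ih
      ⟨hf _ _ h2.1, fun hh => h2.2.1 (hD _ hh), fun hh => h2.2.2 (hD _ hh)⟩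

lemma reach.mono' {D D' : Set V} (hD : D' ⊆ D) {u v : V} (h : reach a b D u v) :
    reach a b D' u v :=
  reach.map' id (fun _ _ h => h) (fun _ hx => hD hx) h

end reach

/-! ### the base pole -/

/-- neighbour masks of the base pole -/
def nbm : Fin 10 → ℕ := ![26, 25, 152, 23, 15, 832, 800, 772, 736, 480]

lemma nbm_adj : ∀ u v : Fin 10, (nbm u).testBit v.val = true →
    ∃ e : Fin 17, (baseA e = u ∧ baseB e = v) ∨ (baseA e = v ∧ baseB e = u) := by
  decide +kernel

/-- one step of the search -/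
def bstep (al S : ℕ) : ℕ :=
  ([0, 1, 2, 3, 4, 5, 6, 7, 8, 9] : List (Fin 10)).foldl
    (fun acc u => if S.testBit u.val then acc ||| (nbm u &&& al) else acc) S

/-- the search -/
def bclos (al : ℕ) : ℕ → ℕ → ℕ
  | 0, S => S
  | n + 1, S => bclos al n (bstep al S)

/-- all vertices except two -/
def ball (d1 d2 : Fin 10) : ℕ := 1023 ^^^ ((1 <<< d1.val) ||| (1 <<< d2.val))

lemma ball_bit : ∀ d1 d2 v : Fin 10, (ball d1 d2).testBit v.val = true → v ≠ d1 ∧ v ≠ d2 := by
  decide +kernel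

lemma bstep_sound {d1 d2 w : Fin 10} {S : ℕ}
    (hS : ∀ v : Fin 10, S.testBit v.val = true → (v ≠ d1 ∧ v ≠ d2) ∧
      reach baseA baseB {d1, d2} w v) :
    ∀ v : Fin 10, (bstep (ball d1 d2) S).testBit v.val = true → (v ≠ d1 ∧ v ≠ d2) ∧
      reach baseA baseB {d1, d2} w v := by
  unfold bstep
  generalize ([0, 1, 2, 3, 4, 5, 6, 7, 8, 9] : List (Fin 10)) = l
  have key : ∀ (l : List (Fin 10)) (acc : ℕ), (∀ v : Fin 10, acc.testBit v.val = true →
      (v ≠ d1 ∧ v ≠ d2) ∧ reach baseA baseB {d1, d2} w v) →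
      ∀ v : Fin 10, (l.foldl (fun acc u => if S.testBit u.val then
        acc ||| (nbm u &&& ball d1 d2) else acc) acc).testBit v.val = true →
      (v ≠ d1 ∧ v ≠ d2) ∧ reach baseA baseB {d1, d2} w v := by
    intro l
    induction l with
    | nil => intro acc h v hv; exact h v hv
    | cons u l ih =>
      intro acc h v hv
      rw [List.foldl_cons] at hv
      refine ih _ ?_ v hv
      intro v' hv'
      by_cases hu : S.testBit u.val = true
      · rw [if_pos hu, Nat.testBit_or, Bool.or_eq_true] at hv'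
        rcases hv' with hv' | hv'
        · exact h v' hv'
        · rw [Nat.testBit_and, Bool.and_eq_true] at hv'
          have h1 := ball_bit d1 d2 v' hv'.2
          have h2 := hS u hu
          refine ⟨h1, h2.2.trans' (reach.single' (nbm_adj u v' hv'.1) ?_ ?_)⟩
          · simp only [Set.mem_insert_iff, Set.mem_singleton_iff]
            tauto
          · simp only [Set.mem_insert_iff, Set.mem_singleton_iff]
            tauto
      · rw [if_neg hu] at hv'
        exact h v' hv'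
  exact key l S hS

lemma bclos_sound {d1 d2 w : Fin 10} (n : ℕ) {S : ℕ}
    (hS : ∀ v : Fin 10, S.testBit v.val = true → (v ≠ d1 ∧ v ≠ d2) ∧
      reach baseA baseB {d1, d2} w v) :
    ∀ v : Fin 10, (bclos (ball d1 d2) n S).testBit v.val = true → (v ≠ d1 ∧ v ≠ d2) ∧
      reach baseA baseB {d1, d2} w v := by
  induction n generalizing S with
  | zero => exact hS
  | succ n ih => exact ih (bstep_sound hS)

lemma one_bit : ∀ w v : Fin 10, ((1 : ℕ) <<< w.val).testBit v.val = true → v = w := by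
  decide +kernel

lemma bsearch {d1 d2 w : Fin 10} (h1 : w ≠ d1) (h2 : w ≠ d2) {v : Fin 10}
    (h : (bclos (ball d1 d2) 6 (1 <<< w.val)).testBit v.val = true) :
    reach baseA baseB {d1, d2} w v := by
  refine (bclos_sound 6 (w := w) ?_ v h).2
  intro v hv
  rw [one_bit w v hv]
  exact ⟨⟨h1, h2⟩, reach.rfl'⟩

lemma base_i1_dec : ∀ d w : Fin 10, w ≠ d →
    ((bclos (ball d d) 6 (1 <<< w.val)).testBit 0 = true ∧
      (bclos (ball d d) 6 (1 <<< w.val)).testBit 1 = true) ∨
    ((bclos (ball d d) 6 (1 <<< w.val)).testBit 5 = true ∧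
      (bclos (ball d d) 6 (1 <<< w.val)).testBit 6 = true) := by
  decide +kernel

lemma base_i2_dec : ∀ d1 d2 w : Fin 10, w ≠ d1 → w ≠ d2 →
    ((bclos (ball d1 d2) 6 (1 <<< w.val)).testBit 0 = true ∨
      (bclos (ball d1 d2) 6 (1 <<< w.val)).testBit 1 = true) ∨
    ((bclos (ball d1 d2) 6 (1 <<< w.val)).testBit 5 = true ∨
      (bclos (ball d1 d2) 6 (1 <<< w.val)).testBit 6 = true) := by
  decide +kernel

lemma base_i0_dec : ∀ u v : Fin 10, ∃ d : Fin 10, u ≠ d ∧
    (bclos (ball d d) 6 (1 <<< u.val)).testBit v.val = true := by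
  decide +kernel

lemma base_conn : base.Conn where
  i0 := by
    intro u v
    obtain ⟨d, h1, h2⟩ := base_i0_dec u v
    exact (bsearch h1 h1 h2).mono' (Set.empty_subset _)
  i1 := by
    intro d w hw
    have hD : ({d, d} : Set (Fin 10)) = {d} := Set.pair_eq_singleton d
    have h := base_i1_dec d w hw
    change (reach baseA baseB {d} w 0 ∧ reach baseA baseB {d} w 1) ∨
      (reach baseA baseB {d} w 5 ∧ reach baseA baseB {d} w 6)
    rw [← hD]
    rcases h with ⟨h1, h2⟩ | ⟨h1, h2⟩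
    · exact Or.inl ⟨bsearch hw hw h1, bsearch hw hw h2⟩
    · exact Or.inr ⟨bsearch hw hw h1, bsearch hw hw h2⟩
  i2 := by
    intro d1 d2 w hw1 hw2
    have h := base_i2_dec d1 d2 w hw1 hw2
    change (∃ j, reach baseA baseB {d1, d2} w (baseL j)) ∨
      (∃ j, reach baseA baseB {d1, d2} w (baseR j))
    rcases h with (h1 | h2) | (h1 | h2)
    · exact Or.inl ⟨0, bsearch hw1 hw2 h1⟩
    · exact Or.inl ⟨1, bsearch hw1 hw2 h2⟩
    · exact Or.inr ⟨0, bsearch hw1 hw2 h1⟩
    · exact Or.inr ⟨1, bsearch hw1 hw2 h2⟩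

/-! ### the successor pole -/

section succconn
variable {m : ℕ} {P : PD m}

/-- block number of a vertex -/
def bn : SV P → ℕ
  | Sum.inl (i, _) => i.val
  | Sum.inr _ => 4

/-- block `k` is intact -/
def clr (D : Set (SV P)) (k : ℕ) : Prop := ∀ x ∈ D, bn x ≠ k

lemma clr.of {D : Set (SV P)} {d1 d2 : SV P} (hD : ∀ x ∈ D, x = d1 ∨ x = d2) {k : ℕ}
    (h1 : bn d1 ≠ k) (h2 : bn d2 ≠ k) : clr D k := by
  intro x hx
  rcases hD x hx with rfl | rfl
  · exact h1
  · exact h2

lemma clr.inl {D : Set (SV P)} {i : Fin 4} (h : clr D i.val) (x : P.V) :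
    (Sum.inl (i, x) : SV P) ∉ D := fun hx => h _ hx rfl

lemma clr.inr {D : Set (SV P)} (h : clr D 4) (x : Fin 10) :
    (Sum.inr x : SV P) ∉ D := fun hx => h _ hx rfl

lemma adj_inl (i : Fin 4) {u v : P.V} (h : adj P.a P.b u v) :
    adj (sA P) (sB P) (Sum.inl (i, u)) (Sum.inl (i, v)) := by
  obtain ⟨e, ⟨h1, h2⟩ | ⟨h1, h2⟩⟩ := h
  · exact ⟨Sum.inl (i, e), Or.inl ⟨by simp [sA, h1], by simp [sB, h2]⟩⟩
  · exact ⟨Sum.inl (i, e), Or.inr ⟨by simp [sA, h1], by simp [sB, h2]⟩⟩

lemma adj_inr {u v : Fin 10} (h : adj baseA baseB u v) :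
    adj (sA P) (sB P) (Sum.inr u) (Sum.inr v) := by
  obtain ⟨e, ⟨h1, h2⟩ | ⟨h1, h2⟩⟩ := h
  · exact ⟨Sum.inr (Sum.inl e), Or.inl ⟨by simp [sA, h1], by simp [sB, h2]⟩⟩
  · exact ⟨Sum.inr (Sum.inl e), Or.inr ⟨by simp [sA, h1], by simp [sB, h2]⟩⟩

lemma F0 (hP : P.Conn) {D : Set (SV P)} (i : Fin 4) (h : clr D i.val) (u v : P.V) :
    reach (sA P) (sB P) D (Sum.inl (i, u)) (Sum.inl (i, v)) :=
  (hP.i0 u v).map' (fun x => Sum.inl (i, x)) (fun _ _ h => adj_inl i h)
    (fun x hx => absurd hx (h.inl x))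

lemma F0' {D : Set (SV P)} (h : clr D 4) (u v : Fin 10) :
    reach (sA P) (sB P) D (Sum.inr u) (Sum.inr v) :=
  (base_conn.i0 u v).map' (fun x : Fin 10 => (Sum.inr x : SV P)) (fun _ _ h => adj_inr h)
    (fun x hx => absurd hx (h.inr x))

lemma F1 (hP : P.Conn) {D : Set (SV P)} (i : Fin 4) (d : P.V)
    (h : ∀ x, (Sum.inl (i, x) : SV P) ∈ D → x = d) (w : P.V) (hw : w ≠ d) :
    (reach (sA P) (sB P) D (Sum.inl (i, w)) (Sum.inl (i, P.L 0)) ∧
      reach (sA P) (sB P) D (Sum.inl (i, w)) (Sum.inl (i, P.L 1))) ∨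
    (reach (sA P) (sB P) D (Sum.inl (i, w)) (Sum.inl (i, P.R 0)) ∧
      reach (sA P) (sB P) D (Sum.inl (i, w)) (Sum.inl (i, P.R 1))) := by
  have key : ∀ z, reach P.a P.b {d} w z →
      reach (sA P) (sB P) D (Sum.inl (i, w)) (Sum.inl (i, z)) := fun z hz =>
    hz.map' (fun x => Sum.inl (i, x)) (fun _ _ h => adj_inl i h) (fun x hx => h x hx)
  rcases hP.i1 d w hw with h | h
  · exact Or.inl ⟨key _ h.1, key _ h.2⟩
  · exact Or.inr ⟨key _ h.1, key _ h.2⟩

lemma F1' {D : Set (SV P)} (d : Fin 10)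
    (h : ∀ x, (Sum.inr x : SV P) ∈ D → x = d) (w : Fin 10) (hw : w ≠ d) :
    (reach (sA P) (sB P) D (Sum.inr w) (Sum.inr 0) ∧
      reach (sA P) (sB P) D (Sum.inr w) (Sum.inr 1)) ∨
    (reach (sA P) (sB P) D (Sum.inr w) (Sum.inr 5) ∧
      reach (sA P) (sB P) D (Sum.inr w) (Sum.inr 6)) := by
  have key : ∀ z, reach baseA baseB {d} w z →
      reach (sA P) (sB P) D (Sum.inr w) (Sum.inr z) := fun z hz =>
    hz.map' (fun x : Fin 10 => (Sum.inr x : SV P)) (fun _ _ h => adj_inr h) (fun x hx => h x hx)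
  rcases base_conn.i1 d w hw with h | h
  · exact Or.inl ⟨key _ h.1, key _ h.2⟩
  · exact Or.inr ⟨key _ h.1, key _ h.2⟩

lemma F2 (hP : P.Conn) {D : Set (SV P)} (i : Fin 4) (d1 d2 : P.V)
    (h : ∀ x, (Sum.inl (i, x) : SV P) ∈ D → x = d1 ∨ x = d2) (w : P.V)
    (hw1 : w ≠ d1) (hw2 : w ≠ d2) :
    (∃ j, reach (sA P) (sB P) D (Sum.inl (i, w)) (Sum.inl (i, P.L j))) ∨
    (∃ j, reach (sA P) (sB P) D (Sum.inl (i, w)) (Sum.inl (i, P.R j))) := by
  have key : ∀ z, reach P.a P.b {d1, d2} w z →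
      reach (sA P) (sB P) D (Sum.inl (i, w)) (Sum.inl (i, z)) := fun z hz =>
    hz.map' (fun x => Sum.inl (i, x)) (fun _ _ h => adj_inl i h) (fun x hx => by
      simpa using h x hx)
  rcases hP.i2 d1 d2 w hw1 hw2 with ⟨j, h⟩ | ⟨j, h⟩
  · exact Or.inl ⟨j, key _ h⟩
  · exact Or.inr ⟨j, key _ h⟩

lemma F2' {D : Set (SV P)} (d1 d2 : Fin 10)
    (h : ∀ x, (Sum.inr x : SV P) ∈ D → x = d1 ∨ x = d2) (w : Fin 10)
    (hw1 : w ≠ d1) (hw2 : w ≠ d2) :
    reach (sA P) (sB P) D (Sum.inr w) (Sum.inr 0) ∨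
    reach (sA P) (sB P) D (Sum.inr w) (Sum.inr 1) ∨
    reach (sA P) (sB P) D (Sum.inr w) (Sum.inr 5) ∨
    reach (sA P) (sB P) D (Sum.inr w) (Sum.inr 6) := by
  have key : ∀ z, reach baseA baseB {d1, d2} w z →
      reach (sA P) (sB P) D (Sum.inr w) (Sum.inr z) := fun z hz =>
    hz.map' (fun x : Fin 10 => (Sum.inr x : SV P)) (fun _ _ h => adj_inr h) (fun x hx => by
      simpa using h x hx)
  rcases base_conn.i2 d1 d2 w hw1 hw2 with ⟨j, h⟩ | ⟨j, h⟩
  · obtain rfl | rfl : j = 0 ∨ j = 1 := by fin_cases j <;> simp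
    · exact Or.inl (key _ h)
    · exact Or.inr (Or.inl (key _ h))
  · obtain rfl | rfl : j = 0 ∨ j = 1 := by fin_cases j <;> simp
    · exact Or.inr (Or.inr (Or.inl (key _ h)))
    · exact Or.inr (Or.inr (Or.inr (key _ h)))

variable (P) in
lemma a02 (j : Fin (m + 1)) : adj (sA P) (sB P) (Sum.inl (0, P.R j.castSucc))
    (Sum.inl (2, P.R j.succ)) :=
  ⟨Sum.inr (Sum.inr (Sum.inl (0, j))), Or.inl ⟨by simp [sA, ceA], by simp [sB, ceB]⟩⟩

variable (P) in
lemma a23 (j : Fin (m + 1)) : adj (sA P) (sB P) (Sum.inl (2, P.L j.succ))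
    (Sum.inl (3, P.L j.succ)) :=
  ⟨Sum.inr (Sum.inr (Sum.inl (1, j))), Or.inl ⟨by simp [sA, ceA], by simp [sB, ceB]⟩⟩

variable (P) in
lemma a31 (j : Fin (m + 1)) : adj (sA P) (sB P) (Sum.inl (3, P.R j.succ))
    (Sum.inl (1, P.R j.castSucc)) :=
  ⟨Sum.inr (Sum.inr (Sum.inl (2, j))), Or.inl ⟨by simp [sA, ceA], by simp [sB, ceB]⟩⟩

variable (P) in
lemma a30 : adj (sA P) (sB P) (Sum.inl (3, P.R 0)) (Sum.inl (0, P.R (Fin.last (m + 1)))) :=
  ⟨Sum.inr (Sum.inr (Sum.inr 0)), Or.inl ⟨by simp [sA, ceA], by simp [sB, ceB]⟩⟩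

variable (P) in
lemma a34 : adj (sA P) (sB P) (Sum.inl (3, P.L 0)) (Sum.inr 0) :=
  ⟨Sum.inr (Sum.inr (Sum.inr 1)), Or.inl ⟨by simp [sA, ceA], by simp [sB, ceB]⟩⟩

variable (P) in
lemma a24 : adj (sA P) (sB P) (Sum.inl (2, P.R 0)) (Sum.inr 6) :=
  ⟨Sum.inr (Sum.inr (Sum.inr 2)), Or.inl ⟨by simp [sA, ceA], by simp [sB, ceB]⟩⟩

variable (P) in
lemma a41 : adj (sA P) (sB P) (Sum.inr 5) (Sum.inl (1, P.R (Fin.last (m + 1)))) :=
  ⟨Sum.inr (Sum.inr (Sum.inr 3)), Or.inl ⟨by simp [sA, ceA], by simp [sB, ceB]⟩⟩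

/-- everything outside block `0` is connected -/
lemma oth0 (hP : P.Conn) {D : Set (SV P)} (h1 : clr D 1) (h2 : clr D 2) (h3 : clr D 3)
    (h4 : clr D 4) (y : P.V) (w : SV P) (hw : bn w ≠ 0) :
    reach (sA P) (sB P) D w (Sum.inl (1, y)) := by
  have H1 : ∀ x, reach (sA P) (sB P) D (Sum.inl (1, x)) (Sum.inl (1, y)) := fun x =>
    F0 hP 1 h1 x y
  have H3 : ∀ x, reach (sA P) (sB P) D (Sum.inl (3, x)) (Sum.inl (1, y)) := fun x =>
    (F0 hP 3 h3 x _).trans' ((reach.single' (a31 P 0) (clr.inl (i := 3) h3 _)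
      (clr.inl (i := 1) h1 _)).trans' (H1 _))
  have H2 : ∀ x, reach (sA P) (sB P) D (Sum.inl (2, x)) (Sum.inl (1, y)) := fun x =>
    (F0 hP 2 h2 x _).trans' ((reach.single' (a23 P 0) (clr.inl (i := 2) h2 _)
      (clr.inl (i := 3) h3 _)).trans' (H3 _))
  have H4 : ∀ x, reach (sA P) (sB P) D (Sum.inr x) (Sum.inl (1, y)) := fun x =>
    (F0' h4 x _).trans' ((reach.single' (a41 P) (h4.inr _)
      (clr.inl (i := 1) h1 _)).trans' (H1 _))
  rcases w with ⟨i, x⟩ | x
  · obtain rfl | rfl | rfl | rfl : i = 0 ∨ i = 1 ∨ i = 2 ∨ i = 3 := by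
      fin_cases i <;> simp
    · exact absurd rfl hw
    · exact H1 x
    · exact H2 x
    · exact H3 x
  · exact H4 x

/-- everything outside block `1` is connected -/
lemma oth1 (hP : P.Conn) {D : Set (SV P)} (h0 : clr D 0) (h2 : clr D 2) (h3 : clr D 3)
    (h4 : clr D 4) (y : P.V) (w : SV P) (hw : bn w ≠ 1) :
    reach (sA P) (sB P) D w (Sum.inl (0, y)) := by
  have H0 : ∀ x, reach (sA P) (sB P) D (Sum.inl (0, x)) (Sum.inl (0, y)) := fun x =>
    F0 hP 0 h0 x y
  have H3 : ∀ x, reach (sA P) (sB P) D (Sum.inl (3, x)) (Sum.inl (0, y)) := fun x =>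
    (F0 hP 3 h3 x _).trans' ((reach.single' (a30 P) (clr.inl (i := 3) h3 _)
      (clr.inl (i := 0) h0 _)).trans' (H0 _))
  have H2 : ∀ x, reach (sA P) (sB P) D (Sum.inl (2, x)) (Sum.inl (0, y)) := fun x =>
    (F0 hP 2 h2 x _).trans' ((reach.single' (a23 P 0) (clr.inl (i := 2) h2 _)
      (clr.inl (i := 3) h3 _)).trans' (H3 _))
  have H4 : ∀ x, reach (sA P) (sB P) D (Sum.inr x) (Sum.inl (0, y)) := fun x =>
    (F0' h4 x _).trans' ((reach.single' (a34 P).symm (h4.inr _)
      (clr.inl (i := 3) h3 _)).trans' (H3 _))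
  rcases w with ⟨i, x⟩ | x
  · obtain rfl | rfl | rfl | rfl : i = 0 ∨ i = 1 ∨ i = 2 ∨ i = 3 := by
      fin_cases i <;> simp
    · exact H0 x
    · exact absurd rfl hw
    · exact H2 x
    · exact H3 x
  · exact H4 x

/-- everything outside block `2` is connected -/
lemma oth2 (hP : P.Conn) {D : Set (SV P)} (h0 : clr D 0) (h1 : clr D 1) (h3 : clr D 3)
    (h4 : clr D 4) (y : P.V) (w : SV P) (hw : bn w ≠ 2) :
    reach (sA P) (sB P) D w (Sum.inl (0, y)) := by
  have H0 : ∀ x, reach (sA P) (sB P) D (Sum.inl (0, x)) (Sum.inl (0, y)) := fun x =>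
    F0 hP 0 h0 x y
  have H3 : ∀ x, reach (sA P) (sB P) D (Sum.inl (3, x)) (Sum.inl (0, y)) := fun x =>
    (F0 hP 3 h3 x _).trans' ((reach.single' (a30 P) (clr.inl (i := 3) h3 _)
      (clr.inl (i := 0) h0 _)).trans' (H0 _))
  have H1 : ∀ x, reach (sA P) (sB P) D (Sum.inl (1, x)) (Sum.inl (0, y)) := fun x =>
    (F0 hP 1 h1 x _).trans' ((reach.single' (a31 P 0).symm (clr.inl (i := 1) h1 _)
      (clr.inl (i := 3) h3 _)).trans' (H3 _))
  have H4 : ∀ x, reach (sA P) (sB P) D (Sum.inr x) (Sum.inl (0, y)) := fun x =>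
    (F0' h4 x _).trans' ((reach.single' (a34 P).symm (h4.inr _)
      (clr.inl (i := 3) h3 _)).trans' (H3 _))
  rcases w with ⟨i, x⟩ | x
  · obtain rfl | rfl | rfl | rfl : i = 0 ∨ i = 1 ∨ i = 2 ∨ i = 3 := by
      fin_cases i <;> simp
    · exact H0 x
    · exact H1 x
    · exact absurd rfl hw
    · exact H3 x
  · exact H4 x

/-- everything outside block `3` is connected -/
lemma oth3 (hP : P.Conn) {D : Set (SV P)} (h0 : clr D 0) (h1 : clr D 1) (h2 : clr D 2)
    (h4 : clr D 4) (y : P.V) (w : SV P) (hw : bn w ≠ 3) :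
    reach (sA P) (sB P) D w (Sum.inl (0, y)) := by
  have H0 : ∀ x, reach (sA P) (sB P) D (Sum.inl (0, x)) (Sum.inl (0, y)) := fun x =>
    F0 hP 0 h0 x y
  have H2 : ∀ x, reach (sA P) (sB P) D (Sum.inl (2, x)) (Sum.inl (0, y)) := fun x =>
    (F0 hP 2 h2 x _).trans' ((reach.single' (a02 P 0).symm (clr.inl (i := 2) h2 _)
      (clr.inl (i := 0) h0 _)).trans' (H0 _))
  have H4 : ∀ x, reach (sA P) (sB P) D (Sum.inr x) (Sum.inl (0, y)) := fun x =>
    (F0' h4 x _).trans' ((reach.single' (a24 P).symm (h4.inr _)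
      (clr.inl (i := 2) h2 _)).trans' (H2 _))
  have H1 : ∀ x, reach (sA P) (sB P) D (Sum.inl (1, x)) (Sum.inl (0, y)) := fun x =>
    (F0 hP 1 h1 x _).trans' ((reach.single' (a41 P).symm (clr.inl (i := 1) h1 _)
      (h4.inr _)).trans' (H4 _))
  rcases w with ⟨i, x⟩ | x
  · obtain rfl | rfl | rfl | rfl : i = 0 ∨ i = 1 ∨ i = 2 ∨ i = 3 := by
      fin_cases i <;> simp
    · exact H0 x
    · exact H1 x
    · exact H2 x
    · exact absurd rfl hw
  · exact H4 x

/-- everything outside block `4` is connected -/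
lemma oth4 (hP : P.Conn) {D : Set (SV P)} (h0 : clr D 0) (h1 : clr D 1) (h2 : clr D 2)
    (h3 : clr D 3) (y : P.V) (w : SV P) (hw : bn w ≠ 4) :
    reach (sA P) (sB P) D w (Sum.inl (0, y)) := by
  have H0 : ∀ x, reach (sA P) (sB P) D (Sum.inl (0, x)) (Sum.inl (0, y)) := fun x =>
    F0 hP 0 h0 x y
  have H2 : ∀ x, reach (sA P) (sB P) D (Sum.inl (2, x)) (Sum.inl (0, y)) := fun x =>
    (F0 hP 2 h2 x _).trans' ((reach.single' (a02 P 0).symm (clr.inl (i := 2) h2 _)
      (clr.inl (i := 0) h0 _)).trans' (H0 _))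
  have H3 : ∀ x, reach (sA P) (sB P) D (Sum.inl (3, x)) (Sum.inl (0, y)) := fun x =>
    (F0 hP 3 h3 x _).trans' ((reach.single' (a30 P) (clr.inl (i := 3) h3 _)
      (clr.inl (i := 0) h0 _)).trans' (H0 _))
  have H1 : ∀ x, reach (sA P) (sB P) D (Sum.inl (1, x)) (Sum.inl (0, y)) := fun x =>
    (F0 hP 1 h1 x _).trans' ((reach.single' (a31 P 0).symm (clr.inl (i := 1) h1 _)
      (clr.inl (i := 3) h3 _)).trans' (H3 _))
  rcases w with ⟨i, x⟩ | x
  · obtain rfl | rfl | rfl | rfl : i = 0 ∨ i = 1 ∨ i = 2 ∨ i = 3 := by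
      fin_cases i <;> simp
    · exact H0 x
    · exact H1 x
    · exact H2 x
    · exact H3 x
  · exact absurd rfl hw

variable (P) in
lemma sL_cast (j : Fin (m + 2)) : sL P j.castSucc = Sum.inl (0, P.L j) := by simp [sL]
variable (P) in
lemma sL_last : sL P (Fin.last (m + 2)) = Sum.inr 1 := by simp [sL]
variable (P) in
lemma sR_cast (j : Fin (m + 2)) : sR P j.castSucc = Sum.inl (1, P.L j) := by simp [sR]
variable (P) in
lemma sR_last : sR P (Fin.last (m + 2)) = Sum.inl (2, P.L 0) := by simp [sR]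
variable (P) in
lemma sL_zero : sL P 0 = Sum.inl (0, P.L 0) := sL_cast P 0
variable (P) in
lemma sL_one : sL P 1 = Sum.inl (0, P.L 1) := sL_cast P 1
variable (P) in
lemma sR_zero : sR P 0 = Sum.inl (1, P.L 0) := sR_cast P 0
variable (P) in
lemma sR_one : sR P 1 = Sum.inl (1, P.L 1) := sR_cast P 1

lemma clr_single {d : SV P} {k : ℕ} (h : bn d ≠ k) : clr ({d} : Set (SV P)) k := by
  intro x hx
  rw [Set.mem_singleton_iff] at hx
  rw [hx]
  exact h

lemma succ_i0 (hP : P.Conn) (u v : SV P) : reach (sA P) (sB P) ∅ u v := by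
  have c : ∀ k, clr (∅ : Set (SV P)) k := fun k x hx => absurd hx (Set.notMem_empty x)
  have key : ∀ w : SV P, reach (sA P) (sB P) ∅ w (Sum.inl (1, P.L 0)) := by
    intro w
    by_cases h : bn w = 0
    · rcases w with ⟨i, x⟩ | x
      · have hi : i = 0 := Fin.ext h
        subst hi
        exact (F0 hP 0 (c 0) x _).trans' ((reach.single' (a02 P 0) ((c 0).inl (i := 0) _)
          ((c 2).inl (i := 2) _)).trans' (oth0 hP (c 1) (c 2) (c 3) (c 4) _ _ (by simp [bn])))
      · simp [bn] at h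
    · exact oth0 hP (c 1) (c 2) (c 3) (c 4) _ _ h
  exact (key u).trans' (key v).symm'

lemma succ_i1 (hP : P.Conn) (d w : SV P) (hw : w ≠ d) :
    (reach (sA P) (sB P) {d} w (sL P 0) ∧ reach (sA P) (sB P) {d} w (sL P 1)) ∨
    (reach (sA P) (sB P) {d} w (sR P 0) ∧ reach (sA P) (sB P) {d} w (sR P 1)) := by
  rw [sL_zero, sL_one, sR_zero, sR_one]
  have c : ∀ k, bn d ≠ k → clr ({d} : Set (SV P)) k := fun k hk => clr_single hk
  rcases d with ⟨i, d⟩ | d
  · have hdi : ∀ x, (Sum.inl (i, x) : SV P) ∈ ({Sum.inl (i, d)} : Set (SV P)) → x = d := by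
      intro x hx
      simpa using hx
    obtain rfl | rfl | rfl | rfl : i = 0 ∨ i = 1 ∨ i = 2 ∨ i = 3 := by
      fin_cases i <;> simp
    · have c1 := c 1 (by simp [bn])
      have c2 := c 2 (by simp [bn])
      have c3 := c 3 (by simp [bn])
      have c4 := c 4 (by simp [bn])
      have O := fun y w hw => oth0 hP c1 c2 c3 c4 y w hw
      by_cases h : bn w = 0
      · rcases w with ⟨i, x⟩ | x
        · have hi : i = 0 := Fin.ext h
          subst hi
          rcases F1 hP 0 d hdi x (by simpa using hw) with ⟨h1, h2⟩ | ⟨h1, h2⟩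
          · exact Or.inl ⟨h1, h2⟩
          · have h3 := h1.trans' (reach.single' (a02 P 0) (h1.not_mem (by simpa using hw))
              (c2.inl (i := 2) _))
            exact Or.inr ⟨h3.trans' (O _ _ (by simp [bn])), h3.trans' (O _ _ (by simp [bn]))⟩
        · simp [bn] at h
      · exact Or.inr ⟨O _ _ h, O _ _ h⟩
    · have c0 := c 0 (by simp [bn])
      have c2 := c 2 (by simp [bn])
      have c3 := c 3 (by simp [bn])
      have c4 := c 4 (by simp [bn])
      have O := fun y w hw => oth1 hP c0 c2 c3 c4 y w hw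
      by_cases h : bn w = 1
      · rcases w with ⟨i, x⟩ | x
        · have hi : i = 1 := Fin.ext h
          subst hi
          rcases F1 hP 1 d hdi x (by simpa using hw) with ⟨h1, h2⟩ | ⟨h1, h2⟩
          · exact Or.inr ⟨h1, h2⟩
          · have h3 := h1.trans' (reach.single' (a31 P 0).symm (h1.not_mem (by simpa using hw))
              (c3.inl (i := 3) _))
            exact Or.inl ⟨h3.trans' (O _ _ (by simp [bn])), h3.trans' (O _ _ (by simp [bn]))⟩
        · simp [bn] at h
      · exact Or.inl ⟨O _ _ h, O _ _ h⟩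
    · have c0 := c 0 (by simp [bn])
      have c1 := c 1 (by simp [bn])
      have c3 := c 3 (by simp [bn])
      have c4 := c 4 (by simp [bn])
      have O := fun y w hw => oth2 hP c0 c1 c3 c4 y w hw
      by_cases h : bn w = 2
      · rcases w with ⟨i, x⟩ | x
        · have hi : i = 2 := Fin.ext h
          subst hi
          rcases F1 hP 2 d hdi x (by simpa using hw) with ⟨h1, h2⟩ | ⟨h1, h2⟩
          · have h3 := h2.trans' (reach.single' (a23 P 0) (h2.not_mem (by simpa using hw))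
              (c3.inl (i := 3) _))
            exact Or.inl ⟨h3.trans' (O _ _ (by simp [bn])), h3.trans' (O _ _ (by simp [bn]))⟩
          · have h3 := h1.trans' (reach.single' (a24 P) (h1.not_mem (by simpa using hw))
              (c4.inr _))
            exact Or.inl ⟨h3.trans' (O _ _ (by simp [bn])), h3.trans' (O _ _ (by simp [bn]))⟩
        · simp [bn] at h
      · exact Or.inl ⟨O _ _ h, O _ _ h⟩
    · have c0 := c 0 (by simp [bn])
      have c1 := c 1 (by simp [bn])
      have c2 := c 2 (by simp [bn])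
      have c4 := c 4 (by simp [bn])
      have O := fun y w hw => oth3 hP c0 c1 c2 c4 y w hw
      by_cases h : bn w = 3
      · rcases w with ⟨i, x⟩ | x
        · have hi : i = 3 := Fin.ext h
          subst hi
          rcases F1 hP 3 d hdi x (by simpa using hw) with ⟨h1, h2⟩ | ⟨h1, h2⟩
          · have h3 := h1.trans' (reach.single' (a34 P) (h1.not_mem (by simpa using hw))
              (c4.inr _))
            exact Or.inl ⟨h3.trans' (O _ _ (by simp [bn])), h3.trans' (O _ _ (by simp [bn]))⟩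
          · have h3 := h1.trans' (reach.single' (a30 P) (h1.not_mem (by simpa using hw))
              (c0.inl (i := 0) _))
            exact Or.inl ⟨h3.trans' (O _ _ (by simp [bn])), h3.trans' (O _ _ (by simp [bn]))⟩
        · simp [bn] at h
      · exact Or.inl ⟨O _ _ h, O _ _ h⟩
  · have hdi : ∀ x, (Sum.inr x : SV P) ∈ ({Sum.inr d} : Set (SV P)) → x = d := by
      intro x hx
      simpa using hx
    have c0 := c 0 (by simp [bn])
    have c1 := c 1 (by simp [bn])
    have c2 := c 2 (by simp [bn])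
    have c3 := c 3 (by simp [bn])
    have O := fun y w hw => oth4 hP c0 c1 c2 c3 y w hw
    by_cases h : bn w = 4
    · rcases w with ⟨i, x⟩ | x
      · exfalso
        have := i.isLt
        simp only [bn] at h
        omega
      · rcases F1' d hdi x (by simpa using hw) with ⟨h1, h2⟩ | ⟨h1, h2⟩
        · have h3 := h1.trans' (reach.single' (a34 P).symm (h1.not_mem (by simpa using hw))
            (c3.inl (i := 3) _))
          exact Or.inl ⟨h3.trans' (O _ _ (by simp [bn])), h3.trans' (O _ _ (by simp [bn]))⟩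
        · have h3 := h1.trans' (reach.single' (a41 P) (h1.not_mem (by simpa using hw))
            (c1.inl (i := 1) _))
          exact Or.inl ⟨h3.trans' (O _ _ (by simp [bn])), h3.trans' (O _ _ (by simp [bn]))⟩
    · exact Or.inl ⟨O _ _ h, O _ _ h⟩

variable (P) in
/-- the vertex reaches an outer port -/
def good (D : Set (SV P)) (w : SV P) : Prop :=
  (∃ j, reach (sA P) (sB P) D w (sL P j)) ∨ (∃ j, reach (sA P) (sB P) D w (sR P j))

lemma good.of_reach {D : Set (SV P)} {w v : SV P} (h : reach (sA P) (sB P) D w v)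
    (hv : good P D v) : good P D w := by
  rcases hv with ⟨j, hj⟩ | ⟨j, hj⟩
  · exact Or.inl ⟨j, h.trans' hj⟩
  · exact Or.inr ⟨j, h.trans' hj⟩

lemma good.hop {D : Set (SV P)} {w u v : SV P} (h : reach (sA P) (sB P) D w u)
    (hw : w ∉ D) (ha : adj (sA P) (sB P) u v) (hv : v ∉ D) (hg : good P D v) : good P D w :=
  good.of_reach (h.trans' (reach.single' ha (h.not_mem hw) hv)) hg

lemma good_outL {D : Set (SV P)} {w : SV P} (j : Fin (m + 2))
    (h : reach (sA P) (sB P) D w (Sum.inl (0, P.L j))) : good P D w :=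
  Or.inl ⟨j.castSucc, by rw [sL_cast]; exact h⟩

lemma good_outR {D : Set (SV P)} {w : SV P} (j : Fin (m + 2))
    (h : reach (sA P) (sB P) D w (Sum.inl (1, P.L j))) : good P D w :=
  Or.inr ⟨j.castSucc, by rw [sR_cast]; exact h⟩

lemma good_out2 {D : Set (SV P)} {w : SV P}
    (h : reach (sA P) (sB P) D w (Sum.inl (2, P.L 0))) : good P D w :=
  Or.inr ⟨Fin.last _, by rw [sR_last]; exact h⟩

lemma good_out4 {D : Set (SV P)} {w : SV P}
    (h : reach (sA P) (sB P) D w (Sum.inr 1)) : good P D w :=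
  Or.inl ⟨Fin.last _, by rw [sL_last]; exact h⟩

lemma G0 (hP : P.Conn) {D : Set (SV P)} (h : clr D 0) (x : P.V) : good P D (Sum.inl (0, x)) :=
  good_outL 0 (F0 hP 0 h _ _)

lemma G1 (hP : P.Conn) {D : Set (SV P)} (h : clr D 1) (x : P.V) : good P D (Sum.inl (1, x)) :=
  good_outR 0 (F0 hP 1 h _ _)

lemma G2 (hP : P.Conn) {D : Set (SV P)} (h : clr D 2) (x : P.V) : good P D (Sum.inl (2, x)) :=
  good_out2 (F0 hP 2 h _ _)

lemma G4 {D : Set (SV P)} (h : clr D 4) (x : Fin 10) : good P D (Sum.inr x) :=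
  good_out4 (F0' h _ _)

lemma G3 (hP : P.Conn) {D : Set (SV P)} (h : clr D 3) (h' : clr D 0 ∨ clr D 1 ∨ clr D 2)
    (x : P.V) : good P D (Sum.inl (3, x)) := by
  have c3 := h.inl (i := 3)
  rcases h' with h' | h' | h'
  · exact good.hop (F0 hP 3 h x _) (c3 _) (a30 P) (h'.inl (i := 0) _) (G0 hP h' _)
  · exact good.hop (F0 hP 3 h x _) (c3 _) (a31 P 0) (h'.inl (i := 1) _) (G1 hP h' _)
  · exact good.hop (F0 hP 3 h x _) (c3 _) (a23 P 0).symm (h'.inl (i := 2) _) (G2 hP h' _)

lemma case_a (hP : P.Conn) {D : Set (SV P)} {d e : SV P} (hD : ∀ x ∈ D, x = d ∨ x = e)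
    (w : SV P) (h1 : bn d ≠ bn w) (h2 : bn e ≠ bn w) : good P D w := by
  rcases w with ⟨i, x⟩ | x
  · obtain rfl | rfl | rfl | rfl : i = 0 ∨ i = 1 ∨ i = 2 ∨ i = 3 := by
      fin_cases i <;> simp
    · exact G0 hP (clr.of hD h1 h2) x
    · exact G1 hP (clr.of hD h1 h2) x
    · exact G2 hP (clr.of hD h1 h2) x
    · refine G3 hP (clr.of hD h1 h2) ?_ x
      by_cases a : bn d ≠ 0 ∧ bn e ≠ 0
      · exact Or.inl (clr.of hD a.1 a.2)
      · by_cases b : bn d ≠ 1 ∧ bn e ≠ 1
        · exact Or.inr (Or.inl (clr.of hD b.1 b.2))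
        · exact Or.inr (Or.inr (clr.of hD (by omega) (by omega)))
  · exact G4 (clr.of hD h1 h2) x

lemma split_inl (i : Fin 4) {D : Set (SV P)} {d : P.V} {e : SV P}
    (hD : ∀ x ∈ D, x = Sum.inl (i, d) ∨ x = e) (h2 : bn e ≠ i.val) :
    ∀ x, (Sum.inl (i, x) : SV P) ∈ D → x = d := by
  intro x hx
  rcases hD _ hx with h | h
  · simpa using h
  · exfalso
    rw [← h] at h2
    exact h2 rfl

lemma split_inr {D : Set (SV P)} {d : Fin 10} {e : SV P}
    (hD : ∀ x ∈ D, x = Sum.inr d ∨ x = e) (h2 : bn e ≠ 4) :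
    ∀ x, (Sum.inr x : SV P) ∈ D → x = d := by
  intro x hx
  rcases hD _ hx with h | h
  · simpa using h
  · exfalso
    rw [← h] at h2
    exact h2 rfl

lemma case_b4 (hP : P.Conn) {D : Set (SV P)} {d : Fin 10} {e : SV P}
    (hD : ∀ x ∈ D, x = Sum.inr d ∨ x = e) (w : Fin 10) (hw : (Sum.inr w : SV P) ∉ D)
    (hwd : w ≠ d) (h2 : bn e ≠ 4) : good P D (Sum.inr w) := by
  rcases F1' d (split_inr hD h2) w hwd with ⟨_, h⟩ | ⟨h, h'⟩
  · exact good_out4 h
  · by_cases he : bn e ≠ 1
    · have c : clr D 1 := clr.of hD (by simp [bn]) he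
      exact good.hop h hw (a41 P) (c.inl (i := 1) _) (G1 hP c _)
    · have c : clr D 2 := clr.of hD (by simp [bn]) (by omega)
      exact good.hop h' hw (a24 P).symm (c.inl (i := 2) _) (G2 hP c _)

lemma case_b3 (hP : P.Conn) {D : Set (SV P)} {d : P.V} {e : SV P}
    (hD : ∀ x ∈ D, x = Sum.inl (3, d) ∨ x = e) (w : P.V) (hw : (Sum.inl (3, w) : SV P) ∉ D)
    (hwd : w ≠ d) (h2 : bn e ≠ 3) : good P D (Sum.inl (3, w)) := by
  rcases F1 hP 3 d (split_inl 3 hD h2) w hwd with ⟨h, h'⟩ | ⟨h, h'⟩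
  · by_cases he : bn e ≠ 4
    · have c : clr D 4 := clr.of hD (by simp [bn]) he
      exact good.hop h hw (a34 P) (c.inr _) (G4 c _)
    · have c : clr D 2 := clr.of hD (by simp [bn]) (by omega)
      exact good.hop h' hw (a23 P 0).symm (c.inl (i := 2) _) (G2 hP c _)
  · by_cases he : bn e ≠ 0
    · have c : clr D 0 := clr.of hD (by simp [bn]) he
      exact good.hop h hw (a30 P) (c.inl (i := 0) _) (G0 hP c _)
    · have c : clr D 1 := clr.of hD (by simp [bn]) (by omega)
      exact good.hop h' hw (a31 P 0) (c.inl (i := 1) _) (G1 hP c _)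

lemma case_b2 (hP : P.Conn) {D : Set (SV P)} {d : P.V} {e : SV P}
    (hD : ∀ x ∈ D, x = Sum.inl (2, d) ∨ x = e) (w : P.V) (hw : (Sum.inl (2, w) : SV P) ∉ D)
    (hwd : w ≠ d) (h2 : bn e ≠ 2) : good P D (Sum.inl (2, w)) := by
  rcases F1 hP 2 d (split_inl 2 hD h2) w hwd with ⟨h, _⟩ | ⟨h, h'⟩
  · exact good_out2 h
  · by_cases he : bn e ≠ 4
    · have c : clr D 4 := clr.of hD (by simp [bn]) he
      exact good.hop h hw (a24 P) (c.inr _) (G4 c _)
    · have c : clr D 0 := clr.of hD (by simp [bn]) (by omega)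
      exact good.hop h' hw (a02 P 0).symm (c.inl (i := 0) _) (G0 hP c _)

lemma case_b0 (hP : P.Conn) (hR : Function.Injective P.R) {D : Set (SV P)} {d : P.V} {e : SV P}
    (hD : ∀ x ∈ D, x = Sum.inl (0, d) ∨ x = e) (w : P.V) (hw : (Sum.inl (0, w) : SV P) ∉ D)
    (hwd : w ≠ d) (h2 : bn e ≠ 0) : good P D (Sum.inl (0, w)) := by
  rcases F1 hP 0 d (split_inl 0 hD h2) w hwd with ⟨h, _⟩ | ⟨h, h'⟩
  · exact good_outL 0 h
  · by_cases he : bn e ≠ 2
    · have c : clr D 2 := clr.of hD (by simp [bn]) he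
      exact good.hop h hw (a02 P 0) (c.inl (i := 2) _) (G2 hP c _)
    · rcases e with ⟨i, e⟩ | e
      · have hi : i = 2 := Fin.ext (by simpa [bn] using he)
        subst hi
        have hD' : ∀ x ∈ D, x = Sum.inl (2, e) ∨ x = Sum.inl (0, d) := fun x hx => (hD x hx).symm
        have hn : ∀ u, u ≠ e → (Sum.inl (2, u) : SV P) ∉ D := by
          intro u hu hx
          rcases hD _ hx with h | h
          · simp at h
          · exact hu (by simpa using h)
        have key : ∀ u, u ≠ e → good P D (Sum.inl (2, u)) := fun u hu =>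
          case_b2 hP hD' u (hn u hu) hu (by simp [bn])
        by_cases h1 : P.R (Fin.succ 0) = e
        · rcases Fin.eq_castSucc_or_eq_last (1 : Fin (m + 2)) with ⟨j, hj⟩ | hj
          · rw [hj] at h'
            have hne : P.R j.succ ≠ e := by
              rw [← h1]
              intro hh
              have h3 := Fin.succ_injective _ (hR hh)
              rw [h3] at hj
              simp at hj
            exact good.hop h' hw (a02 P j) (hn _ hne) (key _ hne)
          · have c : clr D 3 := clr.of hD (by simp [bn]) (by simp [bn])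
            have c1 : clr D 1 := clr.of hD (by simp [bn]) (by simp [bn])
            rw [hj] at h'
            exact good.hop h' hw (a30 P).symm (c.inl (i := 3) _)
              (G3 hP c (Or.inr (Or.inl c1)) _)
        · exact good.hop h hw (a02 P 0) (hn _ h1) (key _ h1)
      · simp [bn] at he

lemma case_b1 (hP : P.Conn) (hR : Function.Injective P.R) {D : Set (SV P)} {d : P.V} {e : SV P}
    (hD : ∀ x ∈ D, x = Sum.inl (1, d) ∨ x = e) (w : P.V) (hw : (Sum.inl (1, w) : SV P) ∉ D)
    (hwd : w ≠ d) (h2 : bn e ≠ 1) : good P D (Sum.inl (1, w)) := by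
  rcases F1 hP 1 d (split_inl 1 hD h2) w hwd with ⟨h, _⟩ | ⟨h, h'⟩
  · exact good_outR 0 h
  · by_cases he : bn e ≠ 3
    · have c : clr D 3 := clr.of hD (by simp [bn]) he
      have c' : clr D 0 ∨ clr D 1 ∨ clr D 2 := by
        by_cases he0 : bn e ≠ 0
        · exact Or.inl (clr.of hD (by simp [bn]) he0)
        · exact Or.inr (Or.inr (clr.of hD (by simp [bn]) (by omega)))
      exact good.hop h hw (a31 P 0).symm (c.inl (i := 3) _) (G3 hP c c' _)
    · rcases e with ⟨i, e⟩ | e
      · have hi : i = 3 := Fin.ext (by simpa [bn] using he)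
        subst hi
        have hD' : ∀ x ∈ D, x = Sum.inl (3, e) ∨ x = Sum.inl (1, d) := fun x hx => (hD x hx).symm
        have hn : ∀ u, u ≠ e → (Sum.inl (3, u) : SV P) ∉ D := by
          intro u hu hx
          rcases hD _ hx with h | h
          · simp at h
          · exact hu (by simpa using h)
        have key : ∀ u, u ≠ e → good P D (Sum.inl (3, u)) := fun u hu =>
          case_b3 hP hD' u (hn u hu) hu (by simp [bn])
        by_cases h1 : P.R (Fin.succ 0) = e
        · rcases Fin.eq_castSucc_or_eq_last (1 : Fin (m + 2)) with ⟨j, hj⟩ | hj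
          · rw [hj] at h'
            have hne : P.R j.succ ≠ e := by
              rw [← h1]
              intro hh
              have h3 := Fin.succ_injective _ (hR hh)
              rw [h3] at hj
              simp at hj
            exact good.hop h' hw (a31 P j).symm (hn _ hne) (key _ hne)
          · have c : clr D 4 := clr.of hD (by simp [bn]) (by simp [bn])
            rw [hj] at h'
            exact good.hop h' hw (a41 P).symm (c.inr _) (G4 c _)
        · exact good.hop h hw (a31 P 0).symm (hn _ h1) (key _ h1)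
      · simp [bn] at he

lemma case_b (hP : P.Conn) (hR : Function.Injective P.R) {D : Set (SV P)} {d e : SV P}
    (hD : ∀ x ∈ D, x = d ∨ x = e) (w : SV P) (hw : w ∉ D) (hwd : w ≠ d)
    (h1 : bn d = bn w) (h2 : bn e ≠ bn w) : good P D w := by
  rcases w with ⟨i, w⟩ | w
  · rcases d with ⟨i', d⟩ | d
    · have hi : i' = i := Fin.ext h1
      subst hi
      have hwd' : w ≠ d := fun h => hwd (by rw [h])
      obtain rfl | rfl | rfl | rfl : i' = 0 ∨ i' = 1 ∨ i' = 2 ∨ i' = 3 := by
        fin_cases i' <;> simp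
      · exact case_b0 hP hR hD w hw hwd' h2
      · exact case_b1 hP hR hD w hw hwd' h2
      · exact case_b2 hP hD w hw hwd' h2
      · exact case_b3 hP hD w hw hwd' h2
    · exfalso
      have := i.isLt
      simp only [bn] at h1
      omega
  · rcases d with ⟨i', d⟩ | d
    · exfalso
      have := i'.isLt
      simp only [bn] at h1
      omega
    · exact case_b4 hP hD w hw (fun h => hwd (by rw [h])) h2

lemma case_c (hP : P.Conn) {D : Set (SV P)} {d e : SV P} (hD : ∀ x ∈ D, x = d ∨ x = e)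
    (w : SV P) (hw : w ∉ D) (hwd : w ≠ d) (hwe : w ≠ e)
    (h1 : bn d = bn w) (h2 : bn e = bn w) : good P D w := by
  have c : ∀ k, bn w ≠ k → clr D k := fun k hk => clr.of hD (by omega) (by omega)
  rcases w with ⟨i, w⟩ | w
  · rcases d with ⟨i', d⟩ | d
    · have hi : i' = i := Fin.ext h1
      subst hi
      rcases e with ⟨i'', e⟩ | e
      · have hi : i'' = i' := Fin.ext h2
        subst hi
        have hwd' : w ≠ d := fun h => hwd (by rw [h])
        have hwe' : w ≠ e := fun h => hwe (by rw [h])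
        have hs : ∀ x, (Sum.inl (i'', x) : SV P) ∈ D → x = d ∨ x = e := by
          intro x hx
          simpa using hD _ hx
        have F := F2 hP i'' d e hs w hwd' hwe'
        obtain rfl | rfl | rfl | rfl : i'' = 0 ∨ i'' = 1 ∨ i'' = 2 ∨ i'' = 3 := by
          fin_cases i'' <;> simp
        · have c1 := c 1 (by simp [bn])
          have c2 := c 2 (by simp [bn])
          have c3 := c 3 (by simp [bn])
          rcases F with ⟨j, h⟩ | ⟨j, h⟩
          · exact good_outL j h
          · rcases Fin.eq_castSucc_or_eq_last j with ⟨j, rfl⟩ | rfl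
            · exact good.hop h hw (a02 P j) (c2.inl (i := 2) _) (G2 hP c2 _)
            · exact good.hop h hw (a30 P).symm (c3.inl (i := 3) _)
                (G3 hP c3 (Or.inr (Or.inl c1)) _)
        · have c0 := c 0 (by simp [bn])
          have c4 := c 4 (by simp [bn])
          have c3 := c 3 (by simp [bn])
          rcases F with ⟨j, h⟩ | ⟨j, h⟩
          · exact good_outR j h
          · rcases Fin.eq_castSucc_or_eq_last j with ⟨j, rfl⟩ | rfl
            · exact good.hop h hw (a31 P j).symm (c3.inl (i := 3) _)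
                (G3 hP c3 (Or.inl c0) _)
            · exact good.hop h hw (a41 P).symm (c4.inr _) (G4 c4 _)
        · have c0 := c 0 (by simp [bn])
          have c4 := c 4 (by simp [bn])
          have c3 := c 3 (by simp [bn])
          rcases F with ⟨j, h⟩ | ⟨j, h⟩
          · rcases Fin.eq_zero_or_eq_succ j with rfl | ⟨j, rfl⟩
            · exact good_out2 h
            · exact good.hop h hw (a23 P j) (c3.inl (i := 3) _)
                (G3 hP c3 (Or.inl c0) _)
          · rcases Fin.eq_zero_or_eq_succ j with rfl | ⟨j, rfl⟩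
            · exact good.hop h hw (a24 P) (c4.inr _) (G4 c4 _)
            · exact good.hop h hw (a02 P j).symm (c0.inl (i := 0) _) (G0 hP c0 _)
        · have c0 := c 0 (by simp [bn])
          have c1 := c 1 (by simp [bn])
          have c2 := c 2 (by simp [bn])
          have c4 := c 4 (by simp [bn])
          rcases F with ⟨j, h⟩ | ⟨j, h⟩
          · rcases Fin.eq_zero_or_eq_succ j with rfl | ⟨j, rfl⟩
            · exact good.hop h hw (a34 P) (c4.inr _) (G4 c4 _)
            · exact good.hop h hw (a23 P j).symm (c2.inl (i := 2) _) (G2 hP c2 _)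
          · rcases Fin.eq_zero_or_eq_succ j with rfl | ⟨j, rfl⟩
            · exact good.hop h hw (a30 P) (c0.inl (i := 0) _) (G0 hP c0 _)
            · exact good.hop h hw (a31 P j) (c1.inl (i := 1) _) (G1 hP c1 _)
      · exfalso
        have := i'.isLt
        simp only [bn] at h2
        omega
    · exfalso
      have := i.isLt
      simp only [bn] at h1
      omega
  · rcases d with ⟨i', d⟩ | d
    · exfalso
      have := i'.isLt
      simp only [bn] at h1
      omega
    · rcases e with ⟨i'', e⟩ | e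
      · exfalso
        have := i''.isLt
        simp only [bn] at h2
        omega
      · have hwd' : w ≠ d := fun h => hwd (by rw [h])
        have hwe' : w ≠ e := fun h => hwe (by rw [h])
        have hs : ∀ x, (Sum.inr x : SV P) ∈ D → x = d ∨ x = e := by
          intro x hx
          simpa using hD _ hx
        have c0 := c 0 (by simp [bn])
        have c1 := c 1 (by simp [bn])
        have c2 := c 2 (by simp [bn])
        have c3 := c 3 (by simp [bn])
        rcases F2' d e hs w hwd' hwe' with h | h | h | h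
        · exact good.hop h hw (a34 P).symm (c3.inl (i := 3) _) (G3 hP c3 (Or.inl c0) _)
        · exact good_out4 h
        · exact good.hop h hw (a41 P) (c1.inl (i := 1) _) (G1 hP c1 _)
        · exact good.hop h hw (a24 P).symm (c2.inl (i := 2) _) (G2 hP c2 _)

lemma succ_i2 (hP : P.Conn) (hR : Function.Injective P.R) (d e w : SV P) (hwd : w ≠ d)
    (hwe : w ≠ e) : good P {d, e} w := by
  have hD : ∀ x ∈ ({d, e} : Set (SV P)), x = d ∨ x = e := fun x hx => by simpa using hx
  have hD' : ∀ x ∈ ({d, e} : Set (SV P)), x = e ∨ x = d := fun x hx => (hD x hx).symm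
  have hw : w ∉ ({d, e} : Set (SV P)) := fun hx => by
    rcases hD w hx with h | h
    · exact hwd h
    · exact hwe h
  by_cases h1 : bn d = bn w
  · by_cases h2 : bn e = bn w
    · exact case_c hP hD w hw hwd hwe h1 h2
    · exact case_b hP hR hD w hw hwd h1 h2
  · by_cases h2 : bn e = bn w
    · exact case_b hP hR hD' w hw hwe h2 h1
    · exact case_a hP hD w h1 h2

lemma succ_conn (hP : P.Conn) (hR : Function.Injective P.R) : P.succ.Conn where
  i0 := succ_i0 hP
  i1 := succ_i1 hP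
  i2 := succ_i2 hP hR

/-- after deletion of one vertex some left port still reaches some right port -/
lemma succ_i3 (hP : P.Conn) (d : SV P) : ∃ i j, sL P i ≠ d ∧ sR P j ≠ d ∧
    reach (sA P) (sB P) {d} (sL P i) (sR P j) := by
  have c : ∀ k, bn d ≠ k → clr ({d} : Set (SV P)) k := fun k hk => clr_single hk
  have hne : ∀ u : SV P, bn u ≠ bn d → u ≠ d := fun u hu h => hu (by rw [h])
  have h4 : bn d ≤ 4 := by
    rcases d with ⟨i, d⟩ | d
    · have := i.isLt
      simp only [bn]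
      omega
    · simp [bn]
  obtain h | h | h | h | h : bn d = 0 ∨ bn d = 1 ∨ bn d = 2 ∨ bn d = 3 ∨ bn d = 4 := by omega
  · refine ⟨Fin.last _, 0, ?_, ?_, ?_⟩
    · rw [sL_last]; exact hne _ (by rw [h]; simp [bn])
    · rw [sR_zero]; exact hne _ (by rw [h]; simp [bn])
    · rw [sL_last, sR_zero]
      exact oth0 hP (c 1 (by omega)) (c 2 (by omega)) (c 3 (by omega)) (c 4 (by omega)) _ _
        (by simp [bn])
  · refine ⟨0, Fin.last _, ?_, ?_, ?_⟩
    · rw [sL_zero]; exact hne _ (by rw [h]; simp [bn])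
    · rw [sR_last]; exact hne _ (by rw [h]; simp [bn])
    · rw [sL_zero, sR_last]
      exact (oth1 hP (c 0 (by omega)) (c 2 (by omega)) (c 3 (by omega)) (c 4 (by omega)) _ _
        (by simp [bn])).symm'
  · refine ⟨0, 0, ?_, ?_, ?_⟩
    · rw [sL_zero]; exact hne _ (by rw [h]; simp [bn])
    · rw [sR_zero]; exact hne _ (by rw [h]; simp [bn])
    · rw [sL_zero, sR_zero]
      exact (oth2 hP (c 0 (by omega)) (c 1 (by omega)) (c 3 (by omega)) (c 4 (by omega)) _ _
        (by simp [bn])).symm'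
  · refine ⟨0, 0, ?_, ?_, ?_⟩
    · rw [sL_zero]; exact hne _ (by rw [h]; simp [bn])
    · rw [sR_zero]; exact hne _ (by rw [h]; simp [bn])
    · rw [sL_zero, sR_zero]
      exact (oth3 hP (c 0 (by omega)) (c 1 (by omega)) (c 2 (by omega)) (c 4 (by omega)) _ _
        (by simp [bn])).symm'
  · refine ⟨0, 0, ?_, ?_, ?_⟩
    · rw [sL_zero]; exact hne _ (by rw [h]; simp [bn])
    · rw [sR_zero]; exact hne _ (by rw [h]; simp [bn])
    · rw [sL_zero, sR_zero]
      exact (oth4 hP (c 0 (by omega)) (c 1 (by omega)) (c 2 (by omega)) (c 3 (by omega)) _ _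
        (by simp [bn])).symm'

end succconn

end Pool.Agent.MP_c57e60_co
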