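import Pool.Agent.Lib.MP_c57e60_co.Graph

set_option autoImplicit false

namespace Pool.Agent.MP_c57e60_co

section
variable {V E : Type} [Fintype V] [DecidableEq V] [Fintype E] [DecidableEq E] {a b : E → V}
variable {hl : ∀ e, a e ≠ b e}

lemma mem_edgeSet_iff (e : Sym2 V) : e ∈ (mg a b hl).edgeSet ↔ ∃ i, e = s(a i, b i) := by
  induction e using Sym2.ind with
  | _ u v =>
    rw [SimpleGraph.mem_edgeSet]
    constructor
    · rintro ⟨i, ⟨h1, h2⟩ | ⟨h1, h2⟩⟩
      · exact ⟨i, by rw [h1, h2]⟩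
      · exact ⟨i, by rw [h1, h2]; exact Sym2.eq_swap⟩
    · rintro ⟨i, h⟩
      rw [Sym2.eq_iff] at h
      rcases h with ⟨h1, h2⟩ | ⟨h1, h2⟩
      · exact ⟨i, Or.inl ⟨h1.symm, h2.symm⟩⟩
      · exact ⟨i, Or.inr ⟨h2.symm, h1.symm⟩⟩

lemma ncard_edgeSet (hinj : ∀ e e', s(a e, b e) = s(a e', b e') → e = e')
    (H : (mg a b hl).Subgraph) : H.edgeSet.ncard = ∑ e, ind H e := by
  classical
  have h1 : H.edgeSet = (fun e : E => s(a e, b e)) '' {e | s(a e, b e) ∈ H.edgeSet} := by
    ext e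
    constructor
    · intro he
      obtain ⟨i, rfl⟩ := (mem_edgeSet_iff (hl := hl) e).1 (H.edgeSet_subset he)
      exact ⟨i, he, rfl⟩
    · rintro ⟨i, hi, rfl⟩
      exact hi
  rw [h1, Set.ncard_image_of_injective _ (fun e e' h => hinj e e' h)]
  unfold ind
  rw [Finset.sum_boole, Set.ncard_eq_toFinset_card']
  simp only [Nat.cast_id]
  congr 1
  ext e
  simp

lemma edgeMult_eq {n : ℕ} (C : Fin n → (mg a b hl).Subgraph) (e : E) :
    edgeMult C s(a e, b e) = ∑ i, ind (C i) e := by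
  classical
  unfold edgeMult ind
  rw [Finset.sum_boole, Set.ncard_eq_toFinset_card']
  simp only [Nat.cast_id]
  congr 1
  ext i
  simp

lemma coverLength_eq (hinj : ∀ e e', s(a e, b e) = s(a e', b e') → e = e')
    {n : ℕ} (C : Fin n → (mg a b hl).Subgraph) :
    coverLength C = ∑ e, ∑ i, ind (C i) e := by
  unfold coverLength
  rw [Finset.sum_comm]
  exact Finset.sum_congr rfl fun i _ => ncard_edgeSet hinj (C i)

lemma cover_one_le {n : ℕ} {C : Fin n → (mg a b hl).Subgraph} (hC : IsCycleCover C) (e : E) :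
    1 ≤ ∑ i, ind (C i) e := by
  obtain ⟨i, hi⟩ := hC.2 s(a e, b e) ((mem_edgeSet_iff _).2 ⟨e, rfl⟩)
  have h1 : ind (C i) e = 1 := by unfold ind; rw [if_pos hi]
  have := Finset.single_le_sum (f := fun i => ind (C i) e) (fun _ _ => Nat.zero_le _)
    (Finset.mem_univ i)
  simp only [h1] at this
  exact this

/-- a list of cycles with prescribed coverage is a cycle cover of the corresponding length -/
lemma cover_of_list (hinj : ∀ e e', s(a e, b e) = s(a e', b e') → e = e')
    (l : List (mg a b hl).Subgraph) (h1 : ∀ H ∈ l, IsCycleSub H) {c : E → ℕ}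
    (h2 : ∀ e, (l.map (fun H => ind H e)).sum = c e) (h3 : ∀ e, 1 ≤ c e) :
    ∃ (n : ℕ) (C : Fin n → (mg a b hl).Subgraph), IsCycleCover C ∧ coverLength C = ∑ e, c e := by
  have key : ∀ e, ∑ i : Fin l.length, ind (l.get i) e = c e := by
    intro e
    rw [← h2 e]
    exact Fin.sum_univ_fun_getElem l (fun H => ind H e)
  refine ⟨l.length, l.get, ⟨fun i => h1 _ (List.get_mem l i), ?_⟩, ?_⟩
  · intro e he
    obtain ⟨e, rfl⟩ := (mem_edgeSet_iff _).1 he
    have h4 := h3 e
    rw [← key e] at h4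
    by_contra hno
    push Not at hno
    have : ∑ i : Fin l.length, ind (l.get i) e = 0 := Finset.sum_eq_zero fun i _ => by
      unfold ind
      rw [if_neg (hno i)]
    omega
  · rw [coverLength_eq hinj]
    exact Finset.sum_congr rfl fun e _ => key e

/-- a family of even edge sets yields a cycle cover of the same total length -/
lemma cover_of_even (hinj : ∀ e e', s(a e, b e) = s(a e', b e') → e = e') {κ : ℕ}
    (X : Fin κ → E → ℕ) (h1 : ∀ k e, X k e ≤ 1) (h2 : ∀ k v, Even (vs a b (X k) v))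
    (h3 : ∀ e, 1 ≤ ∑ k, X k e) :
    ∃ (n : ℕ) (C : Fin n → (mg a b hl).Subgraph), IsCycleCover C ∧
      coverLength C = ∑ e, ∑ k, X k e := by
  have hv := fun k => veblen (hl := hl) hinj (∑ e, X k e) (X k) le_rfl (h1 k) (h2 k)
  choose l hl1 hl2 using hv
  refine cover_of_list hinj ((List.ofFn l).flatten) ?_ ?_ h3
  · intro H hH
    rw [List.mem_flatten] at hH
    obtain ⟨l', hl', hH⟩ := hH
    rw [List.mem_ofFn] at hl'
    obtain ⟨k, rfl⟩ := hl'
    exact hl1 k H hH
  · intro e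
    rw [List.map_flatten, List.sum_flatten, List.map_map, List.map_ofFn, List.sum_ofFn]
    exact Finset.sum_congr rfl fun k _ => hl2 k e

end

end Pool.Agent.MP_c57e60_co
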