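import Mathlib

set_option autoImplicit false

namespace Pool.Agent.MP_c57e60_co

/-- A cycle of a graph: a connected subgraph in which every vertex has exactly two neighbours. -/
def IsCycleSub {V : Type} {G : SimpleGraph V} (H : G.Subgraph) : Prop :=
  H.Connected ∧ ∀ v ∈ H.verts, (H.neighborSet v).ncard = 2

/-- A cycle cover: a finite family of cycles (repetitions allowed) such that every edge of the
graph lies in at least one member. -/
def IsCycleCover {V : Type} {G : SimpleGraph V} {n : ℕ} (C : Fin n → G.Subgraph) : Prop :=
  (∀ i, IsCycleSub (C i)) ∧ ∀ e ∈ G.edgeSet, ∃ i, e ∈ (C i).edgeSet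

/-- The length of a family: the sum of the numbers of edges of its members. -/
noncomputable def coverLength {V : Type} {G : SimpleGraph V} {n : ℕ}
    (C : Fin n → G.Subgraph) : ℕ :=
  ∑ i, (C i).edgeSet.ncard

/-- A shortest cycle cover: a cycle cover of minimum length among all cycle covers. -/
def IsShortestCycleCover {V : Type} {G : SimpleGraph V} {n : ℕ} (C : Fin n → G.Subgraph) : Prop :=
  IsCycleCover C ∧
    ∀ (n' : ℕ) (C' : Fin n' → G.Subgraph), IsCycleCover C' → coverLength C ≤ coverLength C'

/-- The number of members of a family that contain a given edge. -/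
noncomputable def edgeMult {V : Type} {G : SimpleGraph V} {n : ℕ} (C : Fin n → G.Subgraph)
    (e : Sym2 V) : ℕ :=
  {i | e ∈ (C i).edgeSet}.ncard

/-- A 3-connected graph: at least four vertices, and connected after the deletion of any set of
at most two vertices. -/
def ThreeConnected {V : Type} (G : SimpleGraph V) : Prop :=
  4 ≤ Nat.card V ∧ ∀ S : Finset V, S.card ≤ 2 → (G.induce {v | v ∉ S}).Connected

end Pool.Agent.MP_c57e60_co
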