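import Pool.Agent.Lib.MP_c57e60_co.Block

set_option autoImplicit false

namespace Pool.Agent.MP_c57e60_co

lemma sum17 (f : Fin 17 → ℕ) : ∑ e, f e = f 0 + f 1 + f 2 + f 3 + f 4 + f 5 + f 6 + f 7 + f 8 +
    f 9 + f 10 + f 11 + f 12 + f 13 + f 14 + f 15 + f 16 := by
  simp only [Fin.sum_univ_succ, Fin.sum_univ_zero, add_zero, Fin.succ_zero_eq_one,
    Fin.succ_one_eq_two]
  rw [show (Fin.succ 2 : Fin 17) = 3 from rfl]
  simp only [add_assoc]
  rfl

lemma base_mu : base.mu = 1 := by
  change ∑ e : Fin 17, (if baseM e then 1 else 0) = 1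
  decide

/-- the vertex sums of the base pole, written out -/
lemma base_VE {x : Fin 17 → ℕ} {l r : Fin 2 → ℕ} (h : base.VE x l r) :
    Even (x 0 + x 5 + x 6 + l 0) ∧ Even (x 0 + x 1 + x 4 + l 1) ∧ Even (x 3 + x 7 + x 16) ∧
    Even (x 1 + x 2 + x 6 + x 7) ∧ Even (x 2 + x 3 + x 4 + x 5) ∧
    Even (x 8 + x 13 + x 14 + r 0) ∧ Even (x 8 + x 9 + x 12 + r 1) ∧
    Even (x 11 + x 15 + x 16) ∧
    Even (x 9 + x 10 + x 14 + x 15) ∧ Even (x 10 + x 11 + x 12 + x 13) := by
  have h' : ∀ v : Fin 10, Even (vs baseA baseB x v + ps baseL l v + ps baseR r v) := h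
  refine ⟨?_, ?_, ?_, ?_, ?_, ?_, ?_, ?_, ?_, ?_⟩
  · have := h' 0
    unfold vs ps at this
    rw [sum17] at this
    simp [baseA, baseB, baseL, baseR] at this
    rw [Nat.even_iff] at this ⊢
    omega
  · have := h' 1
    unfold vs ps at this
    rw [sum17] at this
    simp [baseA, baseB, baseL, baseR] at this
    rw [Nat.even_iff] at this ⊢
    omega
  · have := h' 2
    unfold vs ps at this
    rw [sum17] at this
    simp [baseA, baseB, baseL, baseR] at this
    rw [Nat.even_iff] at this ⊢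
    omega
  · have := h' 3
    unfold vs ps at this
    rw [sum17] at this
    simp [baseA, baseB, baseL, baseR] at this
    rw [Nat.even_iff] at this ⊢
    omega
  · have := h' 4
    unfold vs ps at this
    rw [sum17] at this
    simp [baseA, baseB, baseL, baseR] at this
    rw [Nat.even_iff] at this ⊢
    omega
  · have := h' 5
    unfold vs ps at this
    rw [sum17] at this
    simp [baseA, baseB, baseL, baseR] at this
    rw [Nat.even_iff] at this ⊢
    omega
  · have := h' 6
    unfold vs ps at this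
    rw [sum17] at this
    simp [baseA, baseB, baseL, baseR] at this
    rw [Nat.even_iff] at this ⊢
    omega
  · have := h' 7
    unfold vs ps at this
    rw [sum17] at this
    simp [baseA, baseB, baseL, baseR] at this
    rw [Nat.even_iff] at this ⊢
    omega
  · have := h' 8
    unfold vs ps at this
    rw [sum17] at this
    simp [baseA, baseB, baseL, baseR] at this
    rw [Nat.even_iff] at this ⊢
    omega
  · have := h' 9
    unfold vs ps at this
    rw [sum17] at this
    simp [baseA, baseB, baseL, baseR] at this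
    rw [Nat.even_iff] at this ⊢
    omega

lemma base_excess' (c : Fin 17 → ℕ) (l r : Fin 2 → ℕ) (hc' : ∀ e, 1 ≤ c e)
    (h : base.VE c l r) : 1 ≤ ∑ e, (c e - 1) ∧
      (∑ e, (c e - 1) ≤ 1 → ∀ e, baseM e = false → c e = 1) := by
  obtain ⟨-, -, h2, -, -, -, -, h7, -, -⟩ := base_VE h
  rw [sum17]
  rw [Nat.even_iff] at h2 h7
  have h100 := hc' 0
  have h101 := hc' 1
  have h102 := hc' 2
  have h103 := hc' 3
  have h104 := hc' 4
  have h105 := hc' 5
  have h106 := hc' 6
  have h107 := hc' 7
  have h108 := hc' 8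
  have h109 := hc' 9
  have h110 := hc' 10
  have h111 := hc' 11
  have h112 := hc' 12
  have h113 := hc' 13
  have h114 := hc' 14
  have h115 := hc' 15
  have h116 := hc' 16
  refine ⟨by omega, fun hle => ?_⟩
  have all : c 0 = 1 ∧ c 1 = 1 ∧ c 2 = 1 ∧ c 3 = 1 ∧ c 4 = 1 ∧ c 5 = 1 ∧ c 6 = 1 ∧ c 7 = 1 ∧
      c 8 = 1 ∧ c 9 = 1 ∧ c 10 = 1 ∧ c 11 = 1 ∧ c 12 = 1 ∧ c 13 = 1 ∧ c 14 = 1 ∧ c 15 = 1 := by
    omega
  obtain ⟨a0, a1, a2, a3, a4, a5, a6, a7, a8, a9, a10, a11, a12, a13, a14, a15⟩ := all
  have key : ∀ e : Fin 17, baseM e = false → c e = 1 := by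
    intro e he
    fin_cases e
    · exact a0
    · exact a1
    · exact a2
    · exact a3
    · exact a4
    · exact a5
    · exact a6
    · exact a7
    · exact a8
    · exact a9
    · exact a10
    · exact a11
    · exact a12
    · exact a13
    · exact a14
    · exact a15
    · exact absurd he (by decide)
  exact key

lemma base_excess : base.Excess := by
  intro c l r hc _ _ h
  rw [base_mu]
  exact base_excess' c l r hc h

section
variable {m : ℕ} {P : PD m}

lemma yL_pos {x : SE P → ℕ} {l r : Fin (m + 3) → ℕ} (hx : ∀ e, 1 ≤ x e) (hl : ∀ j, 1 ≤ l j)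
    (hr : ∀ j, 1 ≤ r j) (i : Fin 4) (j : Fin (m + 2)) : 1 ≤ yL x l r i j := by
  unfold yL
  split_ifs
  · exact hl _
  · exact hr _
  · induction j using Fin.cases with
    | zero => exact hr _
    | succ j => exact hx _
  · induction j using Fin.cases with
    | zero => exact hx _
    | succ j => exact hx _

lemma yR_pos {x : SE P → ℕ} (hx : ∀ e, 1 ≤ x e) (i : Fin 4) (j : Fin (m + 2)) :
    1 ≤ yR x i j := by
  unfold yR
  split_ifs
  · induction j using Fin.lastCases with
    | last => simpa using hx _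
    | cast j => simpa using hx _
  · induction j using Fin.lastCases with
    | last => simpa using hx _
    | cast j => simpa using hx _
  · induction j using Fin.cases with
    | zero => exact hx _
    | succ j => exact hx _
  · induction j using Fin.cases with
    | zero => exact hx _
    | succ j => exact hx _

lemma succ_mu : P.succ.mu = 4 * P.mu + 1 := by
  change ∑ e : SE P, (if sM P e then 1 else 0) = _
  rw [Fintype.sum_sum_type, Fintype.sum_sum_type, Fintype.sum_prod_type]
  have h1 : ∑ i : Fin 4, ∑ e : P.E, (if sM P (Sum.inl (i, e)) then 1 else 0) = 4 * P.mu := by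
    change ∑ i : Fin 4, P.mu = 4 * P.mu
    simp
  have h2 : ∑ e : Fin 17, (if sM P (Sum.inr (Sum.inl e)) then 1 else 0) = 1 := base_mu
  have h3 : ∑ e : CE m, (if sM P (Sum.inr (Sum.inr e)) then 1 else 0) = 0 :=
    Finset.sum_eq_zero fun e _ => rfl
  omega

lemma succ_excess (h : P.Excess) : P.succ.Excess := by
  intro c l r hc hl hr hVE
  rw [succ_VE_iff] at hVE
  obtain ⟨hb, h4⟩ := hVE
  have hc' : ∀ e : SE P, 1 ≤ c e := hc
  have B := fun i => h (fun e => c (Sum.inl (i, e))) (yL c l r i) (yR c i) (fun e => hc' _)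
    (yL_pos hc' hl hr i) (yR_pos hc' i) (hb i)
  have S := base_excess' (fun e => c (Sum.inr (Sum.inl e))) (yL4 c l) (yR4 c) (fun e => hc' _) h4
  have hsum : ∑ e : P.succ.E, (c e - 1) =
      ∑ i : Fin 4, (∑ e : P.E, (c (Sum.inl (i, e)) - 1)) +
        (∑ e : Fin 17, (c (Sum.inr (Sum.inl e)) - 1) +
          ∑ e : CE m, (c (Sum.inr (Sum.inr e)) - 1)) := by
    change ∑ e : SE P, (c e - 1) = _
    rw [Fintype.sum_sum_type, Fintype.sum_sum_type, Fintype.sum_prod_type]
  rw [hsum, succ_mu, Fin.sum_univ_four]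
  have b0 := B 0
  have b1 := B 1
  have b2 := B 2
  have b3 := B 3
  refine ⟨by omega, fun hle e he => ?_⟩
  rcases e with ⟨i, e⟩ | e | e
  · obtain rfl | rfl | rfl | rfl : i = 0 ∨ i = 1 ∨ i = 2 ∨ i = 3 := by
      fin_cases i <;> simp
    · exact b0.2 (by omega) e he
    · exact b1.2 (by omega) e he
    · exact b2.2 (by omega) e he
    · exact b3.2 (by omega) e he
  · exact S.2 (by omega) e he
  · have hz : ∑ e : CE m, (c (Sum.inr (Sum.inr e)) - 1) = 0 := by omega
    rw [Finset.sum_eq_zero_iff] at hz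
    have h1 := hz e (Finset.mem_univ _)
    have h2 := hc' (Sum.inr (Sum.inr e))
    change c (Sum.inr (Sum.inr e)) = 1
    omega

end

end Pool.Agent.MP_c57e60_co
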