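import Pool.Agent.Lib.MP_c57e60_co.Cover

set_option autoImplicit false

namespace Pool.Agent.MP_c57e60_co

section
variable {m : ℕ} (P : PD m)

/-- vertices of the final graph: `m + 2` copies of the pole, `m + 3` hubs and two more vertices -/
abbrev FV : Type := (Fin (m + 2) × P.V) ⊕ ((Fin (m + 3) × Fin (m + 2)) ⊕ Bool)

/-- edges inside a hub -/
abbrev HE (m : ℕ) : Type := {p : Fin (m + 2) × Fin (m + 2) // p.1 < p.2}

/-- edges of the final graph -/
abbrev FE : Type := (Fin (m + 2) × P.E) ⊕ ((Fin (m + 2) × Fin (m + 2)) ⊕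
  ((Fin (m + 2) × Fin (m + 2)) ⊕ ((Fin (m + 3) × HE m) ⊕ (Fin (m + 2) ⊕ (Fin (m + 2) ⊕ Unit)))))

/-- first endpoint -/
def fA : FE P → FV P
  | Sum.inl (r, e) => Sum.inl (r, P.a e)
  | Sum.inr (Sum.inl (r, j)) => Sum.inr (Sum.inl (r.castSucc, j))
  | Sum.inr (Sum.inr (Sum.inl (r, j))) => Sum.inl (r, P.R j)
  | Sum.inr (Sum.inr (Sum.inr (Sum.inl (s, p)))) => Sum.inr (Sum.inl (s, p.1.1))
  | Sum.inr (Sum.inr (Sum.inr (Sum.inr (Sum.inl _)))) => Sum.inr (Sum.inr false)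
  | Sum.inr (Sum.inr (Sum.inr (Sum.inr (Sum.inr (Sum.inl j))))) =>
    Sum.inr (Sum.inl (Fin.last (m + 2), j))
  | Sum.inr (Sum.inr (Sum.inr (Sum.inr (Sum.inr (Sum.inr _))))) => Sum.inr (Sum.inr false)

/-- second endpoint -/
def fB : FE P → FV P
  | Sum.inl (r, e) => Sum.inl (r, P.b e)
  | Sum.inr (Sum.inl (r, j)) => Sum.inl (r, P.L j)
  | Sum.inr (Sum.inr (Sum.inl (r, j))) => Sum.inr (Sum.inl (r.succ, j))
  | Sum.inr (Sum.inr (Sum.inr (Sum.inl (s, p)))) => Sum.inr (Sum.inl (s, p.1.2))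
  | Sum.inr (Sum.inr (Sum.inr (Sum.inr (Sum.inl j)))) => Sum.inr (Sum.inl (0, j))
  | Sum.inr (Sum.inr (Sum.inr (Sum.inr (Sum.inr (Sum.inl _))))) => Sum.inr (Sum.inr true)
  | Sum.inr (Sum.inr (Sum.inr (Sum.inr (Sum.inr (Sum.inr _))))) => Sum.inr (Sum.inr true)

variable {P}

lemma f_loopless (h : P.Simple) : ∀ e, fA P e ≠ fB P e := by
  rintro (⟨r, e⟩ | ⟨r, j⟩ | ⟨r, j⟩ | ⟨s, p⟩ | j | j | _)
  · intro hh
    have : (r, P.a e) = (r, P.b e) := Sum.inl_injective hh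
    exact h.loopless e (Prod.mk.inj this).2
  · simp [fA, fB]
  · simp [fA, fB]
  · simp [fA, fB, p.2.ne]
  · simp [fA, fB]
  · simp [fA, fB]
  · simp [fA, fB]

lemma f_inj (h : P.Simple) : ∀ x y, s(fA P x, fB P x) = s(fA P y, fB P y) → x = y := by
  have hR : ∀ a b, P.R a = P.R b ↔ a = b := fun a b => h.Rinj.eq_iff
  have hL : ∀ a b, P.L a = P.L b ↔ a = b := fun a b => h.Linj.eq_iff
  intro x y hh
  rw [Sym2.eq_iff] at hh
  rcases x with ⟨r, e⟩ | ⟨r, j⟩ | ⟨r, j⟩ | ⟨s, p⟩ | j | j | _ <;>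
    rcases y with ⟨r', e'⟩ | ⟨r', j'⟩ | ⟨r', j'⟩ | ⟨s', p'⟩ | j' | j' | _
  · have h1 : r = r' := by
      rcases hh with hh | hh <;> simp only [fA, fB, Sum.inl.injEq, Prod.mk.injEq] at hh
      · exact hh.1.1
      · exact hh.1.1
    subst h1
    have h2 : s(P.a e, P.b e) = s(P.a e', P.b e') := by
      rw [Sym2.eq_iff]
      simpa only [fA, fB, Sum.inl.injEq, Prod.mk.injEq, true_and] using hh
    rw [h.inj e e' h2]
  all_goals try (exfalso; simp [fA, fB] at hh; done)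
  all_goals try (simp [fA, fB, hL, hR] at hh ⊢; first | exact hh | exact hh.1 | tauto)
  · exfalso
    simp only [fA, fB, reduceCtorEq, false_and, and_false, false_or, Sum.inr.injEq,
      Sum.inl.injEq, Prod.mk.injEq] at hh
    obtain ⟨⟨h1, _⟩, h2, _⟩ := hh
    rw [h2] at h1
    exact (Fin.castSucc_lt_succ).ne h1
  · exfalso
    simp only [fA, fB, reduceCtorEq, false_and, and_false, false_or, Sum.inr.injEq,
      Sum.inl.injEq, Prod.mk.injEq] at hh
    obtain ⟨⟨h1, _⟩, h2, _⟩ := hh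
    rw [h1] at h2
    exact (Fin.castSucc_lt_succ).ne h2.symm
  · obtain ⟨⟨p1, p2⟩, hp⟩ := p
    obtain ⟨⟨p1', p2'⟩, hp'⟩ := p'
    simp only [fA, fB, Sum.inr.injEq, Sum.inl.injEq, Prod.mk.injEq, Subtype.mk.injEq] at hh ⊢
    simp only at hp hp'
    rcases hh with ⟨⟨h1, h2⟩, _, h3⟩ | ⟨⟨h1, h2⟩, _, h3⟩
    · exact ⟨h1, h2, h3⟩
    · exfalso
      rw [h2, h3] at hp
      exact lt_asymm hp hp'
  · rfl

/-- vertex sums at the block vertices -/
lemma f_vs_blk (x : FE P → ℕ) (r : Fin (m + 2)) (u : P.V) :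
    vs (fA P) (fB P) x (Sum.inl (r, u)) = vs P.a P.b (fun e => x (Sum.inl (r, e))) u +
      ps P.L (fun j => x (Sum.inr (Sum.inl (r, j)))) u +
      ps P.R (fun j => x (Sum.inr (Sum.inr (Sum.inl (r, j))))) u := by
  unfold vs ps
  rw [Fintype.sum_sum_type, Fintype.sum_sum_type, Fintype.sum_sum_type, Fintype.sum_sum_type,
    Fintype.sum_sum_type, Fintype.sum_sum_type]
  have s1 : ∑ e : Fin (m + 2) × P.E, ((if fA P (Sum.inl e) = Sum.inl (r, u) then
      x (Sum.inl e) else 0) + (if fB P (Sum.inl e) = Sum.inl (r, u) then x (Sum.inl e) else 0)) =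
      ∑ e, ((if P.a e = u then x (Sum.inl (r, e)) else 0) +
        (if P.b e = u then x (Sum.inl (r, e)) else 0)) := by
    rw [Fintype.sum_prod_type, Finset.sum_eq_single r]
    · refine Finset.sum_congr rfl fun e _ => ?_
      simp [fA, fB]
    · intro r' _ hr'
      refine Finset.sum_eq_zero fun e _ => ?_
      simp [fA, fB, hr']
    · simp
  have s2 : ∑ e : Fin (m + 2) × Fin (m + 2), ((if fA P (Sum.inr (Sum.inl e)) = Sum.inl (r, u)
      then x (Sum.inr (Sum.inl e)) else 0) + (if fB P (Sum.inr (Sum.inl e)) = Sum.inl (r, u)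
      then x (Sum.inr (Sum.inl e)) else 0)) =
      ∑ j, (if P.L j = u then x (Sum.inr (Sum.inl (r, j))) else 0) := by
    rw [Fintype.sum_prod_type, Finset.sum_eq_single r]
    · refine Finset.sum_congr rfl fun e _ => ?_
      simp [fA, fB]
    · intro r' _ hr'
      refine Finset.sum_eq_zero fun e _ => ?_
      simp [fA, fB, hr']
    · simp
  have s3 : ∑ e : Fin (m + 2) × Fin (m + 2), ((if fA P (Sum.inr (Sum.inr (Sum.inl e))) =
      Sum.inl (r, u) then x (Sum.inr (Sum.inr (Sum.inl e))) else 0) +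
      (if fB P (Sum.inr (Sum.inr (Sum.inl e))) = Sum.inl (r, u)
      then x (Sum.inr (Sum.inr (Sum.inl e))) else 0)) =
      ∑ j, (if P.R j = u then x (Sum.inr (Sum.inr (Sum.inl (r, j)))) else 0) := by
    rw [Fintype.sum_prod_type, Finset.sum_eq_single r]
    · refine Finset.sum_congr rfl fun e _ => ?_
      simp [fA, fB]
    · intro r' _ hr'
      refine Finset.sum_eq_zero fun e _ => ?_
      simp [fA, fB, hr']
    · simp
  rw [s1, s2, s3]
  simp only [fA, fB, reduceCtorEq, if_false, add_zero, Finset.sum_const_zero]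
  ring

/-- vertex sums at the hub vertices -/
lemma f_vs_hub (x : FE P → ℕ) (s : Fin (m + 3)) (j : Fin (m + 2)) :
    vs (fA P) (fB P) x (Sum.inr (Sum.inl (s, j))) =
      ∑ r : Fin (m + 2), (if r.castSucc = s then x (Sum.inr (Sum.inl (r, j))) else 0) +
      ∑ r : Fin (m + 2), (if r.succ = s then x (Sum.inr (Sum.inr (Sum.inl (r, j)))) else 0) +
      ∑ p : HE m, ((if p.1.1 = j then x (Sum.inr (Sum.inr (Sum.inr (Sum.inl (s, p))))) else 0) +
        (if p.1.2 = j then x (Sum.inr (Sum.inr (Sum.inr (Sum.inl (s, p))))) else 0)) +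
      (if 0 = s then x (Sum.inr (Sum.inr (Sum.inr (Sum.inr (Sum.inl j))))) else 0) +
      (if Fin.last (m + 2) = s then
        x (Sum.inr (Sum.inr (Sum.inr (Sum.inr (Sum.inr (Sum.inl j)))))) else 0) := by
  unfold vs
  rw [Fintype.sum_sum_type, Fintype.sum_sum_type, Fintype.sum_sum_type, Fintype.sum_sum_type,
    Fintype.sum_sum_type, Fintype.sum_sum_type]
  have s1 : ∑ e : Fin (m + 2) × P.E, ((if fA P (Sum.inl e) = Sum.inr (Sum.inl (s, j)) then
      x (Sum.inl e) else 0) + (if fB P (Sum.inl e) = Sum.inr (Sum.inl (s, j)) then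
      x (Sum.inl e) else 0)) = 0 := by
    refine Finset.sum_eq_zero fun e _ => ?_
    simp [fA, fB]
  have s2 : ∑ e : Fin (m + 2) × Fin (m + 2), ((if fA P (Sum.inr (Sum.inl e)) =
      Sum.inr (Sum.inl (s, j)) then x (Sum.inr (Sum.inl e)) else 0) +
      (if fB P (Sum.inr (Sum.inl e)) = Sum.inr (Sum.inl (s, j))
      then x (Sum.inr (Sum.inl e)) else 0)) =
      ∑ r : Fin (m + 2), (if r.castSucc = s then x (Sum.inr (Sum.inl (r, j))) else 0) := by
    rw [Fintype.sum_prod_type]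
    refine Finset.sum_congr rfl fun r _ => ?_
    by_cases hr : r.castSucc = s <;> simp [fA, fB, hr]
  have s3 : ∑ e : Fin (m + 2) × Fin (m + 2), ((if fA P (Sum.inr (Sum.inr (Sum.inl e))) =
      Sum.inr (Sum.inl (s, j)) then x (Sum.inr (Sum.inr (Sum.inl e))) else 0) +
      (if fB P (Sum.inr (Sum.inr (Sum.inl e))) = Sum.inr (Sum.inl (s, j))
      then x (Sum.inr (Sum.inr (Sum.inl e))) else 0)) =
      ∑ r : Fin (m + 2), (if r.succ = s then x (Sum.inr (Sum.inr (Sum.inl (r, j)))) else 0) := by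
    rw [Fintype.sum_prod_type]
    refine Finset.sum_congr rfl fun r _ => ?_
    by_cases hr : r.succ = s <;> simp [fA, fB, hr]
  have s4 : ∑ e : Fin (m + 3) × HE m, ((if fA P (Sum.inr (Sum.inr (Sum.inr (Sum.inl e)))) =
      Sum.inr (Sum.inl (s, j)) then x (Sum.inr (Sum.inr (Sum.inr (Sum.inl e)))) else 0) +
      (if fB P (Sum.inr (Sum.inr (Sum.inr (Sum.inl e)))) = Sum.inr (Sum.inl (s, j))
      then x (Sum.inr (Sum.inr (Sum.inr (Sum.inl e)))) else 0)) =
      ∑ p : HE m, ((if p.1.1 = j then x (Sum.inr (Sum.inr (Sum.inr (Sum.inl (s, p))))) else 0) +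
        (if p.1.2 = j then x (Sum.inr (Sum.inr (Sum.inr (Sum.inl (s, p))))) else 0)) := by
    rw [Fintype.sum_prod_type, Finset.sum_eq_single s]
    · refine Finset.sum_congr rfl fun e _ => ?_
      simp [fA, fB]
    · intro s' _ hs'
      refine Finset.sum_eq_zero fun e _ => ?_
      simp [fA, fB, hs']
    · simp
  have s5 : ∑ e : Fin (m + 2), ((if fA P (Sum.inr (Sum.inr (Sum.inr (Sum.inr (Sum.inl e))))) =
      Sum.inr (Sum.inl (s, j)) then x (Sum.inr (Sum.inr (Sum.inr (Sum.inr (Sum.inl e))))) else 0) +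
      (if fB P (Sum.inr (Sum.inr (Sum.inr (Sum.inr (Sum.inl e))))) = Sum.inr (Sum.inl (s, j))
      then x (Sum.inr (Sum.inr (Sum.inr (Sum.inr (Sum.inl e))))) else 0)) =
      (if 0 = s then x (Sum.inr (Sum.inr (Sum.inr (Sum.inr (Sum.inl j))))) else 0) := by
    by_cases hs : 0 = s <;> simp [fA, fB, hs]
  have s6 : ∑ e : Fin (m + 2), ((if fA P (Sum.inr (Sum.inr (Sum.inr (Sum.inr (Sum.inr
      (Sum.inl e)))))) = Sum.inr (Sum.inl (s, j)) then
      x (Sum.inr (Sum.inr (Sum.inr (Sum.inr (Sum.inr (Sum.inl e)))))) else 0) +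
      (if fB P (Sum.inr (Sum.inr (Sum.inr (Sum.inr (Sum.inr (Sum.inl e)))))) =
      Sum.inr (Sum.inl (s, j)) then
      x (Sum.inr (Sum.inr (Sum.inr (Sum.inr (Sum.inr (Sum.inl e)))))) else 0)) =
      (if Fin.last (m + 2) = s then
        x (Sum.inr (Sum.inr (Sum.inr (Sum.inr (Sum.inr (Sum.inl j)))))) else 0) := by
    by_cases hs : Fin.last (m + 2) = s <;> simp [fA, fB, hs]
  rw [s1, s2, s3, s4, s5, s6]
  simp only [fA, fB, reduceCtorEq, Sum.inr.injEq, if_false, add_zero, Finset.sum_const_zero]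
  ring

/-- vertex sum at the first extra vertex -/
lemma f_vs_false (x : FE P → ℕ) :
    vs (fA P) (fB P) x (Sum.inr (Sum.inr false)) =
      ∑ j : Fin (m + 2), x (Sum.inr (Sum.inr (Sum.inr (Sum.inr (Sum.inl j))))) +
      x (Sum.inr (Sum.inr (Sum.inr (Sum.inr (Sum.inr (Sum.inr ())))))) := by
  unfold vs
  rw [Fintype.sum_sum_type, Fintype.sum_sum_type, Fintype.sum_sum_type, Fintype.sum_sum_type,
    Fintype.sum_sum_type, Fintype.sum_sum_type]
  simp [fA, fB]

/-- vertex sum at the second extra vertex -/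
lemma f_vs_true (x : FE P → ℕ) :
    vs (fA P) (fB P) x (Sum.inr (Sum.inr true)) =
      ∑ j : Fin (m + 2), x (Sum.inr (Sum.inr (Sum.inr (Sum.inr (Sum.inr (Sum.inl j)))))) +
      x (Sum.inr (Sum.inr (Sum.inr (Sum.inr (Sum.inr (Sum.inr ())))))) := by
  unfold vs
  rw [Fintype.sum_sum_type, Fintype.sum_sum_type, Fintype.sum_sum_type, Fintype.sum_sum_type,
    Fintype.sum_sum_type, Fintype.sum_sum_type]
  simp [fA, fB]

end

end Pool.Agent.MP_c57e60_co
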