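import Pool.Agent.Lib.MP_c57e60_co.Final

set_option autoImplicit false

namespace Pool.Agent.MP_c57e60_co

section
variable {m : ℕ} {P : PD m}

lemma e_blk (r : Fin (m + 2)) {u v : P.V} (h : adj P.a P.b u v) :
    adj (fA P) (fB P) (Sum.inl (r, u)) (Sum.inl (r, v)) := by
  obtain ⟨e, ⟨h1, h2⟩ | ⟨h1, h2⟩⟩ := h
  · exact ⟨Sum.inl (r, e), Or.inl ⟨by simp [fA, h1], by simp [fB, h2]⟩⟩
  · exact ⟨Sum.inl (r, e), Or.inr ⟨by simp [fA, h1], by simp [fB, h2]⟩⟩

variable (P) in
lemma e_L (r : Fin (m + 2)) (j : Fin (m + 2)) :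
    adj (fA P) (fB P) (Sum.inl (r, P.L j)) (Sum.inr (Sum.inl (r.castSucc, j))) :=
  ⟨Sum.inr (Sum.inl (r, j)), Or.inr ⟨by simp [fA], by simp [fB]⟩⟩

variable (P) in
lemma e_R (r : Fin (m + 2)) (j : Fin (m + 2)) :
    adj (fA P) (fB P) (Sum.inl (r, P.R j)) (Sum.inr (Sum.inl (r.succ, j))) :=
  ⟨Sum.inr (Sum.inr (Sum.inl (r, j))), Or.inl ⟨by simp [fA], by simp [fB]⟩⟩

variable (P) in
lemma e_hub (s : Fin (m + 3)) {j k : Fin (m + 2)} (h : j ≠ k) :
    adj (fA P) (fB P) (Sum.inr (Sum.inl (s, j))) (Sum.inr (Sum.inl (s, k))) := by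
  rcases lt_or_gt_of_ne h with h | h
  · exact ⟨Sum.inr (Sum.inr (Sum.inr (Sum.inl (s, ⟨(j, k), h⟩)))), Or.inl
      ⟨by simp [fA], by simp [fB]⟩⟩
  · exact ⟨Sum.inr (Sum.inr (Sum.inr (Sum.inl (s, ⟨(k, j), h⟩)))), Or.inr
      ⟨by simp [fA], by simp [fB]⟩⟩

variable (P) in
lemma e_a (j : Fin (m + 2)) :
    adj (fA P) (fB P) (Sum.inr (Sum.inr false)) (Sum.inr (Sum.inl (0, j))) :=
  ⟨Sum.inr (Sum.inr (Sum.inr (Sum.inr (Sum.inl j)))), Or.inl ⟨by simp [fA], by simp [fB]⟩⟩

variable (P) in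
lemma e_b (j : Fin (m + 2)) :
    adj (fA P) (fB P) (Sum.inr (Sum.inl (Fin.last (m + 2), j))) (Sum.inr (Sum.inr true)) :=
  ⟨Sum.inr (Sum.inr (Sum.inr (Sum.inr (Sum.inr (Sum.inl j))))), Or.inl
    ⟨by simp [fA], by simp [fB]⟩⟩

variable (P) in
lemma e_f : adj (fA P) (fB P) (Sum.inr (Sum.inr false)) (Sum.inr (Sum.inr true)) :=
  ⟨Sum.inr (Sum.inr (Sum.inr (Sum.inr (Sum.inr (Sum.inr ()))))), Or.inl
    ⟨by simp [fA], by simp [fB]⟩⟩

lemma r_blk {D : Set (FV P)} (r : Fin (m + 2)) {D0 : Set P.V}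
    (hD : ∀ x, (Sum.inl (r, x) : FV P) ∈ D → x ∈ D0) {u v : P.V} (h : reach P.a P.b D0 u v) :
    reach (fA P) (fB P) D (Sum.inl (r, u)) (Sum.inl (r, v)) :=
  h.map' (fun x => Sum.inl (r, x)) (fun _ _ h => e_blk r h) hD

lemma r_hub {D : Set (FV P)} (s : Fin (m + 3)) {j k : Fin (m + 2)}
    (hj : (Sum.inr (Sum.inl (s, j)) : FV P) ∉ D) (hk : (Sum.inr (Sum.inl (s, k)) : FV P) ∉ D) :
    reach (fA P) (fB P) D (Sum.inr (Sum.inl (s, j))) (Sum.inr (Sum.inl (s, k))) := by
  by_cases h : j = k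
  · rw [h]; exact reach.rfl'
  · exact reach.single' (e_hub P s h) hj hk

/-- three distinct vertices cannot all be deleted -/
lemma pigeon (hm : 1 ≤ m) {V : Type} {D : Set V} {d e : V} (hD : ∀ x ∈ D, x = d ∨ x = e)
    (f : Fin (m + 2) → V) (hf : Function.Injective f) : ∃ j, f j ∉ D := by
  by_contra hno
  push Not at hno
  have h0 := hD _ (hno ⟨0, by omega⟩)
  have h1 := hD _ (hno ⟨1, by omega⟩)
  have h2 := hD _ (hno ⟨2, by omega⟩)
  have n01 : f ⟨0, by omega⟩ ≠ f ⟨1, by omega⟩ := fun h => by simpa using hf h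
  have n02 : f ⟨0, by omega⟩ ≠ f ⟨2, by omega⟩ := fun h => by simpa using hf h
  have n12 : f ⟨1, by omega⟩ ≠ f ⟨2, by omega⟩ := fun h => by simpa using hf h
  rcases h0 with h0 | h0 <;> rcases h1 with h1 | h1 <;> rcases h2 with h2 | h2
  · exact n01 (h0.trans h1.symm)
  · exact n01 (h0.trans h1.symm)
  · exact n02 (h0.trans h2.symm)
  · exact n12 (h1.trans h2.symm)
  · exact n12 (h1.trans h2.symm)
  · exact n02 (h0.trans h2.symm)
  · exact n01 (h0.trans h1.symm)
  · exact n01 (h0.trans h1.symm)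

lemma hub_free (hm : 1 ≤ m) {D : Set (FV P)} {d e : FV P} (hD : ∀ x ∈ D, x = d ∨ x = e)
    (s : Fin (m + 3)) : ∃ j, (Sum.inr (Sum.inl (s, j)) : FV P) ∉ D :=
  pigeon hm hD (fun j => Sum.inr (Sum.inl (s, j))) (fun j k h => by simpa using h)

variable (P) in
/-- two consecutive hubs are connected to each other -/
def link (D : Set (FV P)) (r : Fin (m + 2)) : Prop :=
  ∀ j k, (Sum.inr (Sum.inl (r.castSucc, j)) : FV P) ∉ D →
    (Sum.inr (Sum.inl (r.succ, k)) : FV P) ∉ D →
    reach (fA P) (fB P) D (Sum.inr (Sum.inl (r.castSucc, j))) (Sum.inr (Sum.inl (r.succ, k)))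

lemma link_of {D : Set (FV P)} (r : Fin (m + 2)) (i j : Fin (m + 2))
    (h1 : (Sum.inr (Sum.inl (r.castSucc, i)) : FV P) ∉ D)
    (h2 : (Sum.inl (r, P.L i) : FV P) ∉ D)
    (h3 : reach (fA P) (fB P) D (Sum.inl (r, P.L i)) (Sum.inl (r, P.R j)))
    (h4 : (Sum.inl (r, P.R j) : FV P) ∉ D)
    (h5 : (Sum.inr (Sum.inl (r.succ, j)) : FV P) ∉ D) : link P D r := by
  intro j' k' hj hk
  exact (r_hub _ hj h1).trans' ((reach.single' (e_L P r i) h2 h1).symm'.trans'
    (h3.trans' ((reach.single' (e_R P r j) h4 h5).trans' (r_hub _ h5 hk))))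

lemma link_intact (hC : P.Conn) (hm : 1 ≤ m) {D : Set (FV P)} {d e : FV P}
    (hD : ∀ x ∈ D, x = d ∨ x = e) (r : Fin (m + 2))
    (h : ∀ x, (Sum.inl (r, x) : FV P) ∉ D) : link P D r := by
  obtain ⟨i, hi⟩ := hub_free hm hD r.castSucc
  obtain ⟨j, hj⟩ := hub_free hm hD r.succ
  exact link_of r i j hi (h _) (r_blk r (D0 := ∅) (fun x hx => absurd hx (h x)) (hC.i0 _ _))
    (h _) hj

lemma link_i3 (h3 : ∀ d, ∃ i j, P.L i ≠ d ∧ P.R j ≠ d ∧ reach P.a P.b {d} (P.L i) (P.R j))
    {D : Set (FV P)} (r : Fin (m + 2)) (y : P.V)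
    (h : ∀ x, (Sum.inl (r, x) : FV P) ∈ D → x = y)
    (hh : ∀ p, (Sum.inr (Sum.inl p) : FV P) ∉ D) : link P D r := by
  obtain ⟨i, j, h1, h2, h4⟩ := h3 y
  exact link_of r i j (hh _) (fun hx => h1 (h _ hx)) (r_blk r (D0 := {y}) h h4)
    (fun hx => h2 (h _ hx)) (hh _)

lemma blk_to_hub (hC : P.Conn) (hm : 1 ≤ m) {D : Set (FV P)} {d e : FV P}
    (hD : ∀ x ∈ D, x = d ∨ x = e) (hd : d ∈ D) (he : e ∈ D) (r : Fin (m + 2)) (u : P.V)
    (hu : (Sum.inl (r, u) : FV P) ∉ D) :
    ∃ p, (Sum.inr (Sum.inl p) : FV P) ∉ D ∧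
      reach (fA P) (fB P) D (Sum.inl (r, u)) (Sum.inr (Sum.inl p)) := by
  -- one deleted vertex `y` in the block, another one somewhere else
  have one : ∀ (y : P.V) (z : FV P), (∀ x ∈ D, x = Sum.inl (r, y) ∨ x = z) → u ≠ y →
      (∀ x, z ≠ Sum.inl (r, x)) →
      ∃ p, (Sum.inr (Sum.inl p) : FV P) ∉ D ∧
      reach (fA P) (fB P) D (Sum.inl (r, u)) (Sum.inr (Sum.inl p)) := by
    intro y z hD' huy hz
    have hb : ∀ x, (Sum.inl (r, x) : FV P) ∈ D → x ∈ ({y} : Set P.V) := by
      intro x hx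
      rcases hD' _ hx with h | h
      · simpa using h
      · exact absurd h.symm (hz x)
    have hn : ∀ s, (Sum.inr (Sum.inl (s, 0)) : FV P) ∈ D →
        (Sum.inr (Sum.inl (s, 1)) : FV P) ∉ D := by
      intro s h1 h2
      rcases hD' _ h1 with h1 | h1
      · simp at h1
      · rcases hD' _ h2 with h2 | h2
        · simp at h2
        · rw [← h1] at h2
          simp at h2
    rcases hC.i1 y u huy with ⟨h1, h2⟩ | ⟨h1, h2⟩
    · have h1' := r_blk (D := D) r hb h1
      have h2' := r_blk (D := D) r hb h2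
      by_cases h : (Sum.inr (Sum.inl (r.castSucc, 0)) : FV P) ∈ D
      · exact ⟨_, hn _ h, h2'.trans' (reach.single' (e_L P r 1) (h2'.not_mem hu) (hn _ h))⟩
      · exact ⟨_, h, h1'.trans' (reach.single' (e_L P r 0) (h1'.not_mem hu) h)⟩
    · have h1' := r_blk (D := D) r hb h1
      have h2' := r_blk (D := D) r hb h2
      by_cases h : (Sum.inr (Sum.inl (r.succ, 0)) : FV P) ∈ D
      · exact ⟨_, hn _ h, h2'.trans' (reach.single' (e_R P r 1) (h2'.not_mem hu) (hn _ h))⟩
      · exact ⟨_, h, h1'.trans' (reach.single' (e_R P r 0) (h1'.not_mem hu) h)⟩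
  by_cases c1 : ∃ y, d = Sum.inl (r, y)
  · obtain ⟨y, rfl⟩ := c1
    have huy : u ≠ y := fun h => hu (by rw [h]; exact hd)
    by_cases c2 : ∃ y', e = Sum.inl (r, y')
    · obtain ⟨y', rfl⟩ := c2
      have huy' : u ≠ y' := fun h => hu (by rw [h]; exact he)
      have hb : ∀ x, (Sum.inl (r, x) : FV P) ∈ D → x ∈ ({y, y'} : Set P.V) := by
        intro x hx
        simpa using hD _ hx
      have hh : ∀ p, (Sum.inr (Sum.inl p) : FV P) ∉ D := by
        intro p hp
        simpa using hD _ hp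
      rcases hC.i2 y y' u huy huy' with ⟨j, h⟩ | ⟨j, h⟩
      · have h' := r_blk (D := D) r hb h
        exact ⟨_, hh _, h'.trans' (reach.single' (e_L P r j) (h'.not_mem hu) (hh _))⟩
      · have h' := r_blk (D := D) r hb h
        exact ⟨_, hh _, h'.trans' (reach.single' (e_R P r j) (h'.not_mem hu) (hh _))⟩
    · exact one y e hD huy (fun x hx => c2 ⟨x, hx⟩)
  · by_cases c2 : ∃ y', e = Sum.inl (r, y')
    · obtain ⟨y', rfl⟩ := c2
      have huy' : u ≠ y' := fun h => hu (by rw [h]; exact he)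
      exact one y' d (fun x hx => (hD x hx).symm) huy' (fun x hx => c1 ⟨x, hx⟩)
    · have hb : ∀ x, (Sum.inl (r, x) : FV P) ∉ D := by
        intro x hx
        rcases hD _ hx with h | h
        · exact c1 ⟨x, h.symm⟩
        · exact c2 ⟨x, h.symm⟩
      obtain ⟨j, hj⟩ := hub_free hm hD r.castSucc
      exact ⟨_, hj, (r_blk r (D0 := ∅) (fun x hx => absurd hx (hb x)) (hC.i0 _ _)).trans'
        (reach.single' (e_L P r j) (hb _) hj)⟩

/-- the final graph stays connected after deleting one or two vertices -/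
lemma final_reach (hC : P.Conn) (hm : 1 ≤ m)
    (h3 : ∀ d, ∃ i j, P.L i ≠ d ∧ P.R j ≠ d ∧ reach P.a P.b {d} (P.L i) (P.R j))
    {D : Set (FV P)} {d e : FV P}
    (hD : ∀ x ∈ D, x = d ∨ x = e) (hd : d ∈ D) (he : e ∈ D) (u v : FV P) (hu : u ∉ D)
    (hv : v ∉ D) : reach (fA P) (fB P) D u v := by
  obtain ⟨j0, hj0⟩ := hub_free hm hD (P := P) 0
  -- all hubs
  have hubs : ∀ (s : Fin (m + 3)) (j : Fin (m + 2)), (Sum.inr (Sum.inl (s, j)) : FV P) ∉ D →
      reach (fA P) (fB P) D (Sum.inr (Sum.inl (s, j))) (Sum.inr (Sum.inl (0, j0))) := by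
    by_cases hall : ∀ r, link P D r
    · intro s
      induction s using Fin.induction with
      | zero => intro j hj; exact r_hub 0 hj hj0
      | succ s ih =>
        intro j hj
        obtain ⟨j', hj'⟩ := hub_free hm hD s.castSucc
        exact (hall s j' j hj' hj).symm'.trans' (ih j' hj')
    · push Not at hall
      obtain ⟨r0, hr0⟩ := hall
      -- structure of the deleted set
      have key : ∀ (x0 : P.V) (z : FV P), (∀ x ∈ D, x = Sum.inl (r0, x0) ∨ x = z) →
          (∃ x, z = Sum.inl (r0, x)) ∨ (∃ p, z = Sum.inr (Sum.inl p)) := by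
        intro x0 z hz
        by_contra hno
        push Not at hno
        refine hr0 (link_i3 h3 r0 x0 ?_ ?_)
        · intro x hx
          rcases hz _ hx with h | h
          · simpa using h
          · exact absurd h.symm (hno.1 x)
        · intro p hp
          rcases hz _ hp with h | h
          · simp at h
          · exact hno.2 p h.symm
      have hex : ∃ x, (Sum.inl (r0, x) : FV P) ∈ D := by
        by_contra hno
        push Not at hno
        exact hr0 (link_intact hC hm hD r0 hno)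
      obtain ⟨x0, hx0⟩ := hex
      have hz : ∃ z : FV P, (∀ x ∈ D, x = Sum.inl (r0, x0) ∨ x = z) := by
        rcases hD _ hx0 with h | h
        · exact ⟨e, by rw [h]; exact hD⟩
        · exact ⟨d, by rw [h]; exact fun x hx => (hD x hx).symm⟩
      obtain ⟨z, hz⟩ := hz
      have hzz := key x0 z hz
      have hab : ∀ b, (Sum.inr (Sum.inr b) : FV P) ∉ D := by
        intro b hb
        rcases hz _ hb with h | h
        · simp at h
        · rcases hzz with ⟨x, hx⟩ | ⟨p, hp⟩
          · rw [hx] at h; simp at h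
          · rw [hp] at h; simp at h
      have hother : ∀ r, r ≠ r0 → link P D r := by
        intro r hr
        refine link_intact hC hm hD r ?_
        intro x hx
        rcases hz _ hx with h | h
        · simp only [Sum.inl.injEq, Prod.mk.injEq] at h
          exact hr h.1
        · rcases hzz with ⟨x', hx'⟩ | ⟨p, hp⟩
          · rw [hx'] at h
            simp only [Sum.inl.injEq, Prod.mk.injEq] at h
            exact hr h.1
          · rw [hp] at h; simp at h
      have left : ∀ (s : Fin (m + 3)), s.val ≤ r0.val → ∀ (j : Fin (m + 2)),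
          (Sum.inr (Sum.inl (s, j)) : FV P) ∉ D →
          reach (fA P) (fB P) D (Sum.inr (Sum.inl (s, j))) (Sum.inr (Sum.inl (0, j0))) := by
        intro s
        induction s using Fin.induction with
        | zero => intro _ j hj; exact r_hub 0 hj hj0
        | succ s ih =>
          intro hs j hj
          obtain ⟨j', hj'⟩ := hub_free hm hD s.castSucc
          rw [Fin.val_succ] at hs
          have hne : s ≠ r0 := fun h => by rw [h] at hs; omega
          exact (hother s hne j' j hj' hj).symm'.trans' (ih (by rw [Fin.val_castSucc]; omega) j' hj')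
      have right : ∀ (s : Fin (m + 3)), r0.val < s.val → ∀ (j : Fin (m + 2)),
          (Sum.inr (Sum.inl (s, j)) : FV P) ∉ D →
          reach (fA P) (fB P) D (Sum.inr (Sum.inl (s, j))) (Sum.inr (Sum.inl (0, j0))) := by
        intro s
        induction s using Fin.reverseInduction with
        | last =>
          intro _ j hj
          exact (reach.single' (e_b P j) hj (hab _)).trans'
            ((reach.single' (e_f P) (hab _) (hab _)).symm'.trans'
              (reach.single' (e_a P j0) (hab _) hj0))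
        | cast s ih =>
          intro hs j hj
          obtain ⟨j', hj'⟩ := hub_free hm hD s.succ
          rw [Fin.val_castSucc] at hs
          have hne : s ≠ r0 := fun h => by rw [h] at hs; omega
          exact (hother s hne j j' hj hj').trans' (ih (by rw [Fin.val_succ]; omega) j' hj')
      intro s j hj
      by_cases hs : s.val ≤ r0.val
      · exact left s hs j hj
      · exact right s (by omega) j hj
  have all : ∀ w : FV P, w ∉ D → reach (fA P) (fB P) D w (Sum.inr (Sum.inl (0, j0))) := by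
    rintro (⟨r, x⟩ | ⟨s, j⟩ | b) hw
    · obtain ⟨p, hp1, hp2⟩ := blk_to_hub hC hm hD hd he r x hw
      exact hp2.trans' (hubs p.1 p.2 hp1)
    · exact hubs s j hw
    · cases b
      · exact reach.single' (e_a P j0) hw hj0
      · obtain ⟨j1, hj1⟩ := hub_free hm hD (P := P) (Fin.last _)
        exact (reach.single' (e_b P j1) hj1 hw).symm'.trans' (hubs _ _ hj1)
  exact (all u hu).trans' (all v hv).symm'

end

end Pool.Agent.MP_c57e60_co
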