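import Pool.Agent.Lib.MP_c57e60_co.Conn
import Pool.Agent.Lib.MP_c57e60_co.Defs

set_option autoImplicit false

namespace Pool.Agent.MP_c57e60_co

section mg
variable {V E : Type} [Fintype V] [DecidableEq V] [Fintype E] [DecidableEq E] {a b : E → V}

/-- the simple graph of a loopless multigraph -/
def mg (a b : E → V) (hl : ∀ e, a e ≠ b e) : SimpleGraph V where
  Adj u v := adj a b u v
  symm := ⟨fun _ _ h => h.symm⟩
  loopless := ⟨fun v h => by
    obtain ⟨e, ⟨h1, h2⟩ | ⟨h1, h2⟩⟩ := h
    · exact hl e (h1.trans h2.symm)
    · exact hl e (h1.trans h2.symm)⟩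

variable {hl : ∀ e, a e ≠ b e}

lemma mg_adj (e : E) : (mg a b hl).Adj (a e) (b e) := ⟨e, Or.inl ⟨rfl, rfl⟩⟩

open Classical in
/-- indicator of a subgraph on the edge index set -/
noncomputable def ind (H : (mg a b hl).Subgraph) (e : E) : ℕ :=
  if s(a e, b e) ∈ H.edgeSet then 1 else 0

lemma ind_le (H : (mg a b hl).Subgraph) (e : E) : ind H e ≤ 1 := by
  unfold ind; split_ifs <;> omega

lemma vs_add (x y : E → ℕ) (v : V) : vs a b (fun e => x e + y e) v = vs a b x v + vs a b y v := by
  unfold vs
  rw [← Finset.sum_add_distrib]
  refine Finset.sum_congr rfl fun e _ => ?_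
  split_ifs <;> ring

lemma vs_sum {ι : Type} (s : Finset ι) (x : ι → E → ℕ) (v : V) :
    vs a b (fun e => ∑ i ∈ s, x i e) v = ∑ i ∈ s, vs a b (x i) v := by
  classical
  induction s using Finset.induction_on with
  | empty => simp [vs]
  | insert i s hi ih =>
    rw [Finset.sum_insert hi, ← ih, ← vs_add]
    congr 1
    funext e
    rw [Finset.sum_insert hi]

/-- parity of cuts -/
lemma cut_even {x : E → ℕ} (h : ∀ v, Even (vs a b x v)) (χ : V → Bool) :
    Even (∑ e, if χ (a e) = χ (b e) then 0 else x e) := by
  have h1 : ∑ v, (if χ v = true then vs a b x v else 0) =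
      ∑ e, ((if χ (a e) = true then x e else 0) + (if χ (b e) = true then x e else 0)) := by
    unfold vs
    have : ∀ v, (if χ v = true then ∑ e, ((if a e = v then x e else 0) +
        (if b e = v then x e else 0)) else 0) = ∑ e, ((if a e = v then (if χ v = true then x e
        else 0) else 0) + (if b e = v then (if χ v = true then x e else 0) else 0)) := by
      intro v
      by_cases hv : χ v = true
      · simp [hv]
      · simp [hv]
    rw [Finset.sum_congr rfl fun v _ => this v, Finset.sum_comm]
    refine Finset.sum_congr rfl fun e _ => ?_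
    rw [Finset.sum_add_distrib]
    simp
  have h2 : Even (∑ v, (if χ v = true then vs a b x v else 0)) := by
    refine Finset.even_sum _ fun v _ => ?_
    split_ifs
    · exact h v
    · exact Even.zero
  rw [h1] at h2
  have h3 : ∑ e, ((if χ (a e) = true then x e else 0) + (if χ (b e) = true then x e else 0)) =
      ∑ e, (if χ (a e) = χ (b e) then 0 else x e) +
        2 * ∑ e, (if χ (a e) = true ∧ χ (b e) = true then x e else 0) := by
    rw [Finset.mul_sum, ← Finset.sum_add_distrib]
    refine Finset.sum_congr rfl fun e _ => ?_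
    cases χ (a e) <;> cases χ (b e) <;> simp
    ring
  rw [h3, Nat.even_iff] at h2
  rw [Nat.even_iff]
  omega

lemma edge_index (hinj : ∀ e e', s(a e, b e) = s(a e', b e') → e = e')
    (H : (mg a b hl).Subgraph) (v w : V) :
    ∑ e, ((if a e = v ∧ b e = w then ind H e else 0) +
      (if b e = v ∧ a e = w then ind H e else 0)) = (by classical exact if H.Adj v w then 1 else 0) := by
  classical
  by_cases hA : H.Adj v w
  · rw [if_pos hA]
    obtain ⟨e0, he0⟩ := H.adj_sub hA
    have hs : s(a e0, b e0) = s(v, w) := by
      rw [Sym2.eq_iff]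
      exact he0
    have hmem : s(a e0, b e0) ∈ H.edgeSet := by
      rw [hs]; exact hA
    have hne : v ≠ w := H.adj_sub hA |>.ne
    rw [Finset.sum_eq_single e0]
    · have : ind H e0 = 1 := by unfold ind; rw [if_pos hmem]
      rw [this]
      rcases he0 with ⟨h1, h2⟩ | ⟨h1, h2⟩
      · rw [if_pos ⟨h1, h2⟩, if_neg]
        rintro ⟨h3, _⟩
        exact hne (h3.symm.trans h2)
      · rw [if_neg, if_pos ⟨h2, h1⟩]
        rintro ⟨h3, _⟩
        exact hne (h3.symm.trans h1)
    · intro e _ hne'
      have e1 : ¬ (a e = v ∧ b e = w) := by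
        rintro ⟨h1, h2⟩
        exact hne' (hinj _ _ (by rw [hs, h1, h2]))
      have e2 : ¬ (b e = v ∧ a e = w) := by
        rintro ⟨h1, h2⟩
        exact hne' (hinj _ _ (by rw [hs, h1, h2]; exact Sym2.eq_swap))
      simp only [if_neg e1, if_neg e2, add_zero]
    · simp
  · rw [if_neg hA]
    refine Finset.sum_eq_zero fun e _ => ?_
    have h1 : a e = v ∧ b e = w → ind H e = 0 := by
      rintro ⟨h1, h2⟩
      unfold ind
      rw [if_neg]
      rw [h1, h2]
      exact hA
    have h2 : b e = v ∧ a e = w → ind H e = 0 := by
      rintro ⟨h1, h2⟩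
      unfold ind
      rw [if_neg]
      rw [h1, h2]
      intro h
      exact hA (SimpleGraph.Subgraph.Adj.symm h)
    split_ifs with h3 h4 h4
    · simp [h1 h3]
    · simp [h1 h3]
    · simp [h2 h4]
    · rfl

lemma vs_ind (hinj : ∀ e e', s(a e, b e) = s(a e', b e') → e = e')
    (H : (mg a b hl).Subgraph) (v : V) : vs a b (ind H) v = (H.neighborSet v).ncard := by
  classical
  have h1 : (H.neighborSet v).ncard = ∑ w, if H.Adj v w then 1 else 0 := by
    rw [Finset.sum_boole]
    rw [Set.ncard_eq_toFinset_card']
    simp only [Nat.cast_id]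
    congr 1
    ext w
    simp [SimpleGraph.Subgraph.mem_neighborSet]
  rw [h1]
  have h2 := fun w => edge_index hinj H v w
  rw [← Finset.sum_congr rfl fun w _ => h2 w, Finset.sum_comm]
  unfold vs
  refine Finset.sum_congr rfl fun e _ => ?_
  rw [Finset.sum_add_distrib]
  congr 1
  · by_cases h : a e = v <;> simp [h]
  · by_cases h : b e = v <;> simp [h]

lemma cycle_even (hinj : ∀ e e', s(a e, b e) = s(a e', b e') → e = e')
    {H : (mg a b hl).Subgraph} (hH : IsCycleSub H) (v : V) : Even (vs a b (ind H) v) := by
  rw [vs_ind hinj]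
  by_cases hv : v ∈ H.verts
  · rw [hH.2 v hv]; decide
  · have : H.neighborSet v = ∅ := by
      ext w
      simp only [SimpleGraph.Subgraph.mem_neighborSet, Set.mem_empty_iff_false, iff_false]
      intro h
      exact hv (H.edge_vert h)
    rw [this]; simp

open Classical in
/-- Veblen's theorem, in the form needed here -/
lemma veblen (hinj : ∀ e e', s(a e, b e) = s(a e', b e') → e = e') :
    ∀ (N : ℕ) (x : E → ℕ), (∑ e, x e ≤ N) → (∀ e, x e ≤ 1) → (∀ v, Even (vs a b x v)) →
      ∃ l : List (mg a b hl).Subgraph, (∀ H ∈ l, IsCycleSub H) ∧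
        ∀ e, (l.map (fun H => ind H e)).sum = x e := by
  intro N
  induction N with
  | zero =>
    intro x hN hx hev
    refine ⟨[], by simp, ?_⟩
    intro e
    have h1 : x e ≤ ∑ e, x e := Finset.single_le_sum (f := x) (fun _ _ => Nat.zero_le _)
      (Finset.mem_univ e)
    simp
    omega
  | succ N ih =>
    intro x hN hx hev
    by_cases hz : ∀ e, x e = 0
    · refine ⟨[], by simp, ?_⟩
      intro e
      simp [hz e]
    · push Not at hz
      obtain ⟨e0, he0⟩ := hz
      have he01 : x e0 = 1 := by have := hx e0; omega
      -- the support graph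
      let G' : SimpleGraph V :=
        { Adj := fun u v => ∃ e, x e = 1 ∧ ((a e = u ∧ b e = v) ∨ (a e = v ∧ b e = u))
          symm := ⟨by
            rintro u v ⟨e, h1, h2 | h2⟩
            · exact ⟨e, h1, Or.inr h2⟩
            · exact ⟨e, h1, Or.inl h2⟩⟩
          loopless := ⟨by
            rintro v ⟨e, _, ⟨h1, h2⟩ | ⟨h1, h2⟩⟩
            · exact hl e (h1.trans h2.symm)
            · exact hl e (h1.trans h2.symm)⟩ }
      have hle : G' ≤ mg a b hl := by
        intro u v h
        obtain ⟨e, _, h2⟩ := h
        exact ⟨e, h2⟩
      have hadj : G'.Adj (a e0) (b e0) := ⟨e0, he01, Or.inl ⟨rfl, rfl⟩⟩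
      have hreach : (G'.deleteEdges {s(a e0, b e0)}).Reachable (a e0) (b e0) := by
        by_contra hnr
        let χ : V → Bool := fun w => decide ((G'.deleteEdges {s(a e0, b e0)}).Reachable (a e0) w)
        have hc := cut_even hev χ
        have h1 : χ (a e0) = true := by simp [χ]
        have h2 : χ (b e0) = false := by simp [χ, hnr]
        rw [Finset.sum_eq_single e0] at hc
        · rw [h1, h2] at hc
          simp [he01] at hc
        · intro e _ hne
          by_cases hxe : x e = 0
          · simp [hxe]
          · have hxe1 : x e = 1 := by have := hx e; omega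
            have hA : (G'.deleteEdges {s(a e0, b e0)}).Adj (a e) (b e) := by
              rw [SimpleGraph.deleteEdges_adj]
              refine ⟨⟨e, hxe1, Or.inl ⟨rfl, rfl⟩⟩, ?_⟩
              rw [Set.mem_singleton_iff]
              intro h
              exact hne (hinj _ _ h)
            rw [if_pos]
            simp only [χ, decide_eq_decide]
            exact ⟨fun h => h.trans hA.reachable, fun h => h.trans hA.reachable.symm⟩
        · simp
      obtain ⟨u, p, hp, hpe⟩ :=
        (SimpleGraph.adj_and_reachable_delete_edges_iff_exists_cycle).1 ⟨hadj, hreach⟩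
      let q : (mg a b hl).Walk u u := p.mapLe hle
      have hq : q.IsCycle := (SimpleGraph.Walk.isCycle_mapLe hle).2 hp
      have hqe : q.edges = p.edges := SimpleGraph.Walk.edges_mapLe_eq_edges hle p
      let H : (mg a b hl).Subgraph := q.toSubgraph
      have hH : IsCycleSub H := by
        refine ⟨SimpleGraph.Walk.toSubgraph_connected q, ?_⟩
        intro v hv
        exact hq.ncard_neighborSet_toSubgraph_eq_two
          ((SimpleGraph.Walk.mem_verts_toSubgraph q).1 hv)
      have hind0 : ind H e0 = 1 := by
        unfold ind
        rw [if_pos]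
        rw [SimpleGraph.Walk.mem_edges_toSubgraph, hqe]
        exact hpe
      have hindx : ∀ e, ind H e ≤ x e := by
        intro e
        unfold ind
        split_ifs with h
        · rw [SimpleGraph.Walk.mem_edges_toSubgraph, hqe] at h
          have h3 : G'.Adj (a e) (b e) := p.adj_of_mem_edges h
          obtain ⟨e', h4, h5⟩ := h3
          have h6 : e' = e := hinj _ _ (by rw [Sym2.eq_iff]; exact h5)
          rw [← h6, h4]
        · exact Nat.zero_le _
      have hsplit : ∀ e, x e = (x e - ind H e) + ind H e := fun e => by
        have := hindx e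
        omega
      have hsum : ∑ e, x e = ∑ e, (x e - ind H e) + ∑ e, ind H e := by
        rw [← Finset.sum_add_distrib]
        exact Finset.sum_congr rfl fun e _ => hsplit e
      have hpos : 1 ≤ ∑ e, ind H e := by
        have := Finset.single_le_sum (f := fun e => ind H e) (fun _ _ => Nat.zero_le _)
          (Finset.mem_univ e0)
        simp only [hind0] at this
        exact this
      obtain ⟨l, hl1, hl2⟩ := ih (fun e => x e - ind H e) (by omega)
        (fun e => by have := hx e; omega) (by
          intro v
          have h1 := hev v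
          have h2 : vs a b x v = vs a b (fun e => x e - ind H e) v + vs a b (ind H) v := by
            rw [← vs_add]
            congr 1
            funext e
            exact hsplit e
          have h3 := cycle_even hinj hH v
          rw [h2] at h1
          rw [Nat.even_iff] at *
          omega)
      refine ⟨H :: l, ?_, ?_⟩
      · intro H' hH'
        rcases List.mem_cons.1 hH' with rfl | h
        · exact hH
        · exact hl1 H' h
      · intro e
        rw [List.map_cons, List.sum_cons, hl2 e]
        have := hsplit e
        omega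

end mg

end Pool.Agent.MP_c57e60_co
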