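import Pool.Agent.Lib.MP_c57e60_co.Upper

set_option autoImplicit false

namespace Pool.Agent.MP_c57e60_co

section
variable {m : ℕ} {P : PD m}

variable (P) in
/-- the left side of round `r` -/
def side (r : Fin (m + 2)) : FV P → Bool
  | Sum.inl (r', _) => decide (r'.val < r.val)
  | Sum.inr (Sum.inl (s, _)) => decide (s.val ≤ r.val)
  | Sum.inr (Sum.inr b) => !b

lemma f_cut {x : FE P → ℕ} (h : ∀ v, Even (vs (fA P) (fB P) x v)) (r : Fin (m + 2)) :
    Even (∑ j, x (Sum.inr (Sum.inl (r, j))) +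
      x (Sum.inr (Sum.inr (Sum.inr (Sum.inr (Sum.inr (Sum.inr ()))))))) := by
  have h1 := cut_even h (side P r)
  rw [Fintype.sum_sum_type, Fintype.sum_sum_type, Fintype.sum_sum_type, Fintype.sum_sum_type,
    Fintype.sum_sum_type, Fintype.sum_sum_type] at h1
  have s1 : ∑ e : Fin (m + 2) × P.E, (if side P r (fA P (Sum.inl e)) =
      side P r (fB P (Sum.inl e)) then 0 else x (Sum.inl e)) = 0 := by
    refine Finset.sum_eq_zero fun e _ => ?_
    simp [fA, fB, side]
  have s2 : ∑ e : Fin (m + 2) × Fin (m + 2), (if side P r (fA P (Sum.inr (Sum.inl e))) =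
      side P r (fB P (Sum.inr (Sum.inl e))) then 0 else x (Sum.inr (Sum.inl e))) =
      ∑ j, x (Sum.inr (Sum.inl (r, j))) := by
    rw [Fintype.sum_prod_type, Finset.sum_eq_single r]
    · refine Finset.sum_congr rfl fun e _ => ?_
      simp [fA, fB, side]
    · intro r' _ hr'
      refine Finset.sum_eq_zero fun e _ => ?_
      have hne : r'.val ≠ r.val := fun h => hr' (Fin.ext h)
      simp only [fA, fB, side, Fin.val_castSucc]
      rw [if_pos]
      rw [decide_eq_decide]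
      omega
    · simp
  have s3 : ∑ e : Fin (m + 2) × Fin (m + 2), (if side P r (fA P (Sum.inr (Sum.inr (Sum.inl e)))) =
      side P r (fB P (Sum.inr (Sum.inr (Sum.inl e)))) then 0 else
      x (Sum.inr (Sum.inr (Sum.inl e)))) = 0 := by
    refine Finset.sum_eq_zero fun e _ => ?_
    simp only [fA, fB, side, Fin.val_succ]
    rw [if_pos]
    rw [decide_eq_decide]
    omega
  have s4 : ∑ e : Fin (m + 3) × HE m, (if side P r (fA P (Sum.inr (Sum.inr (Sum.inr
      (Sum.inl e))))) = side P r (fB P (Sum.inr (Sum.inr (Sum.inr (Sum.inl e))))) then 0 else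
      x (Sum.inr (Sum.inr (Sum.inr (Sum.inl e))))) = 0 := by
    refine Finset.sum_eq_zero fun e _ => ?_
    simp [fA, fB, side]
  have s5 : ∑ e : Fin (m + 2), (if side P r (fA P (Sum.inr (Sum.inr (Sum.inr (Sum.inr
      (Sum.inl e)))))) = side P r (fB P (Sum.inr (Sum.inr (Sum.inr (Sum.inr (Sum.inl e)))))) then
      0 else x (Sum.inr (Sum.inr (Sum.inr (Sum.inr (Sum.inl e)))))) = 0 := by
    refine Finset.sum_eq_zero fun e _ => ?_
    simp [fA, fB, side]
  have s6 : ∑ e : Fin (m + 2), (if side P r (fA P (Sum.inr (Sum.inr (Sum.inr (Sum.inr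
      (Sum.inr (Sum.inl e))))))) = side P r (fB P (Sum.inr (Sum.inr (Sum.inr (Sum.inr (Sum.inr
      (Sum.inl e))))))) then
      0 else x (Sum.inr (Sum.inr (Sum.inr (Sum.inr (Sum.inr (Sum.inl e))))))) = 0 := by
    refine Finset.sum_eq_zero fun e _ => ?_
    have := r.isLt
    simp only [fA, fB, side, Fin.val_last]
    rw [if_pos]
    simp
  rw [s1, s2, s3, s4, s5, s6] at h1
  simpa [fA, fB, side] using h1

lemma sum_FE (g : FE P → ℕ) : ∑ e, g e =
    ∑ r : Fin (m + 2), (∑ e, g (Sum.inl (r, e)) + ∑ j, g (Sum.inr (Sum.inl (r, j))) +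
      ∑ j, g (Sum.inr (Sum.inr (Sum.inl (r, j))))) +
    (∑ e, g (Sum.inr (Sum.inr (Sum.inr (Sum.inl e)))) +
      ∑ j, g (Sum.inr (Sum.inr (Sum.inr (Sum.inr (Sum.inl j))))) +
      ∑ j, g (Sum.inr (Sum.inr (Sum.inr (Sum.inr (Sum.inr (Sum.inl j)))))) +
      g (Sum.inr (Sum.inr (Sum.inr (Sum.inr (Sum.inr (Sum.inr ()))))))) := by
  rw [Fintype.sum_sum_type, Fintype.sum_sum_type, Fintype.sum_sum_type, Fintype.sum_sum_type,
    Fintype.sum_sum_type, Fintype.sum_sum_type, Fintype.sum_prod_type, Fintype.sum_prod_type,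
    Fintype.sum_prod_type]
  simp only [Finset.sum_add_distrib, Finset.univ_unique, Finset.sum_singleton,
    PUnit.default_eq_unit]
  ring

/-- every cycle cover that is at most as long as the canonical one covers the last edge
exactly `m + 2` times -/
lemma lower (hS : P.Simple) (hE : P.Excess) (hP : P.Pass)
    {n : ℕ} (C : Fin n → (mg (fA P) (fB P) (f_loopless hS)).Subgraph) (hC : IsCycleCover C)
    (hlen : coverLength C ≤ ∑ e, cov P e) :
    edgeMult C s(fA P (Sum.inr (Sum.inr (Sum.inr (Sum.inr (Sum.inr (Sum.inr ())))))),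
      fB P (Sum.inr (Sum.inr (Sum.inr (Sum.inr (Sum.inr (Sum.inr ()))))))) = m + 2 := by
  rw [edgeMult_eq]
  rw [coverLength_eq (f_inj hS)] at hlen
  have hxe : ∀ i v, Even (vs (fA P) (fB P) (ind (C i)) v) := fun i v =>
    cycle_even (f_inj hS) (hC.1 i) v
  have hc1 : ∀ e, 1 ≤ ∑ i, ind (C i) e := fun e => cover_one_le hC e
  have hce : ∀ v, Even (vs (fA P) (fB P) (fun e => ∑ i, ind (C i) e) v) := by
    intro v
    rw [vs_sum Finset.univ (fun i => ind (C i)) v]
    exact Finset.even_sum _ fun i _ => hxe i v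
  generalize hcdef : (fun e => ∑ i, ind (C i) e) = c at hce
  have hcv : ∀ e, ∑ i, ind (C i) e = c e := fun e => by rw [← hcdef]
  simp only [hcv] at hlen hc1 ⊢
  have blkVE : ∀ (x : FE P → ℕ), (∀ v, Even (vs (fA P) (fB P) x v)) → ∀ r,
      P.VE (fun e => x (Sum.inl (r, e))) (fun j => x (Sum.inr (Sum.inl (r, j))))
        (fun j => x (Sum.inr (Sum.inr (Sum.inl (r, j))))) := by
    intro x hx r u
    rw [← f_vs_blk]
    exact hx _
  have hex := fun r => hE _ _ _ (fun e => hc1 (Sum.inl (r, e)))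
    (fun j => hc1 (Sum.inr (Sum.inl (r, j)))) (fun j => hc1 (Sum.inr (Sum.inr (Sum.inl (r, j)))))
    (blkVE c hce r)
  -- the total excess
  have hcov1 : ∀ e, 1 ≤ cov P e := by
    intro e
    rcases e with ⟨r, e⟩ | ⟨r, j⟩ | ⟨r, j⟩ | ⟨s, p⟩ | j | j | _ <;> simp only [cov]
    · split_ifs <;> omega
    all_goals omega
  have hexc : ∑ e, (c e - 1) ≤ ∑ e, (cov P e - 1) := by
    have h1 : ∑ e, c e = ∑ e, (c e - 1) + ∑ e : FE P, 1 := by
      rw [← Finset.sum_add_distrib]
      exact Finset.sum_congr rfl fun e _ => by have := hc1 e; omega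
    have h2 : ∑ e, cov P e = ∑ e, (cov P e - 1) + ∑ e : FE P, 1 := by
      rw [← Finset.sum_add_distrib]
      exact Finset.sum_congr rfl fun e _ => by have := hcov1 e; omega
    omega
  have hcovs : ∑ e, (cov P e - 1) = (m + 2) * P.mu + (m + 1) := by
    rw [sum_FE]
    have h1 : ∀ e, (if P.M e then 2 else 1) - 1 = (if P.M e then 1 else 0) := by
      intro e; split_ifs <;> rfl
    simp only [cov, h1, Nat.sub_self, Finset.sum_const_zero, add_zero, zero_add,
      Finset.sum_const, Finset.card_univ, Fintype.card_fin, smul_eq_mul]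
    rfl
  rw [hcovs, sum_FE] at hexc
  have hround : ∃ r, ∑ e, (c (Sum.inl (r, e)) - 1) + ∑ j, (c (Sum.inr (Sum.inl (r, j))) - 1) +
      ∑ j, (c (Sum.inr (Sum.inr (Sum.inl (r, j)))) - 1) ≤ P.mu := by
    by_contra hno
    push Not at hno
    have h1 : ∑ r : Fin (m + 2), (P.mu + 1) ≤ ∑ r : Fin (m + 2),
        (∑ e, (c (Sum.inl (r, e)) - 1) + ∑ j, (c (Sum.inr (Sum.inl (r, j))) - 1) +
        ∑ j, (c (Sum.inr (Sum.inr (Sum.inl (r, j)))) - 1)) :=
      Finset.sum_le_sum fun r _ => hno r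
    rw [Finset.sum_const, Finset.card_univ, Fintype.card_fin, smul_eq_mul, mul_add] at h1
    omega
  obtain ⟨r, hr⟩ := hround
  obtain ⟨hr1, hr2⟩ := hex r
  have hr3 := hr2 (by omega)
  have hL : ∀ j, c (Sum.inr (Sum.inl (r, j))) = 1 := by
    intro j
    have h1 : c (Sum.inr (Sum.inl (r, j))) - 1 ≤ ∑ j, (c (Sum.inr (Sum.inl (r, j))) - 1) :=
      Finset.single_le_sum (f := fun j => c (Sum.inr (Sum.inl (r, j))) - 1)
        (fun _ _ => Nat.zero_le _) (Finset.mem_univ j)
    have h2 := hc1 (Sum.inr (Sum.inl (r, j)))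
    omega
  have hR : ∀ j, c (Sum.inr (Sum.inr (Sum.inl (r, j)))) = 1 := by
    intro j
    have h1 : c (Sum.inr (Sum.inr (Sum.inl (r, j)))) - 1 ≤
        ∑ j, (c (Sum.inr (Sum.inr (Sum.inl (r, j)))) - 1) :=
      Finset.single_le_sum (f := fun j => c (Sum.inr (Sum.inr (Sum.inl (r, j)))) - 1)
        (fun _ _ => Nat.zero_le _) (Finset.mem_univ j)
    have h2 := hc1 (Sum.inr (Sum.inr (Sum.inl (r, j))))
    omega
  have hpass := hP (Fin n) (fun i e => ind (C i) (Sum.inl (r, e)))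
    (fun i j => ind (C i) (Sum.inr (Sum.inl (r, j))))
    (fun i j => ind (C i) (Sum.inr (Sum.inr (Sum.inl (r, j)))))
    (fun i => blkVE _ (hxe i) r) (fun i e => ind_le _ _)
    (fun e he => by rw [hcv]; exact hr3 e he) (fun e _ => by rw [hcv]; exact hc1 _)
    (fun j => by rw [hcv]; exact hL j) (fun j => by rw [hcv]; exact hR j)
  have hfin : ∀ i, ind (C i) (Sum.inr (Sum.inr (Sum.inr (Sum.inr (Sum.inr (Sum.inr ())))))) =
      ∑ j, ind (C i) (Sum.inr (Sum.inl (r, j))) := by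
    intro i
    have h1 := f_cut (hxe i) r
    have h2 := (hpass i).2
    have h3 := ind_le (C i) (Sum.inr (Sum.inr (Sum.inr (Sum.inr (Sum.inr (Sum.inr ()))))))
    rw [Nat.even_iff] at h1
    omega
  rw [← hcv, Finset.sum_congr rfl fun i _ => hfin i, Finset.sum_comm]
  simp only [hcv, hL]
  simp

end

end Pool.Agent.MP_c57e60_co
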