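import Pool.Agent.Lib.MP_c57e60_co.Excess

set_option autoImplicit false

namespace Pool.Agent.MP_c57e60_co

section aux
variable {ι : Type} [Fintype ι] [DecidableEq ι]

lemma other_zero {f : ι → ℕ} (h : ∑ i, f i = 1) {i0 : ι} (h0 : 1 ≤ f i0) :
    ∀ i, i ≠ i0 → f i = 0 := by
  intro i hi
  have h1 := Finset.add_sum_erase Finset.univ f (Finset.mem_univ i0)
  have h2 : f i ≤ ∑ x ∈ Finset.univ.erase i0, f x :=
    Finset.single_le_sum (f := f) (fun _ _ => Nat.zero_le _)
      (Finset.mem_erase.2 ⟨hi, Finset.mem_univ i⟩)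
  omega

lemma le_one_of_sum {f : ι → ℕ} (h : ∑ i, f i = 1) (i : ι) : f i ≤ 1 := by
  have := Finset.single_le_sum (f := f) (fun _ _ => Nat.zero_le _) (Finset.mem_univ i)
  omega

lemma exists_of_sum {f : ι → ℕ} (h : ∑ i, f i = 1) : ∃ i, f i = 1 := by
  by_contra hh
  push Not at hh
  have : ∑ i, f i = 0 := Finset.sum_eq_zero fun i _ => by
    have := le_one_of_sum h i
    have := hh i
    omega
  omega

/-- the key property of a special edge with two ordinary edges at one end -/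
lemma two_sum {f g h : ι → ℕ} (hf : ∑ i, f i = 1) (hg : ∑ i, g i = 1) (hh : 1 ≤ ∑ i, h i)
    (h1 : ∀ i, h i ≤ 1) (he : ∀ i, Even (h i + f i + g i)) : ∀ i, f i + g i = h i := by
  intro i
  have hfi := le_one_of_sum hf i
  have hgi := le_one_of_sum hg i
  have hhi := h1 i
  have hei := he i
  rw [Nat.even_iff] at hei
  by_cases hc : f i = 1 ∧ g i = 1
  · exfalso
    have hz : ∑ i, h i = 0 := by
      refine Finset.sum_eq_zero fun j _ => ?_
      by_cases hj : j = i
      · subst hj; omega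
      · have e1 := other_zero hf (i0 := i) (by omega) j hj
        have e2 := other_zero hg (i0 := i) (by omega) j hj
        have e3 := he j
        rw [Nat.even_iff] at e3
        have e4 := h1 j
        omega
    omega
  · omega

end aux

lemma base_pass : base.Pass := by
  intro ι _ _ x l r hVE hx1 hx hxM hl hr
  have hVE' := fun i => base_VE (hVE i)
  have hM : 1 ≤ ∑ i, x i (16 : Fin 17) := hxM (16 : Fin 17) rfl
  have hx1' : ∀ i, x i (16 : Fin 17) ≤ 1 := fun i => hx1 i (16 : Fin 17)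
  have L := two_sum (f := fun i => l i 0) (g := fun i => l i 1) (h := fun i => x i (16 : Fin 17))
    (hl 0) (hl 1) hM hx1' (by
      intro i
      obtain ⟨a0, a1, a2, a3, a4, -⟩ := hVE' i
      rw [Nat.even_iff] at *
      omega)
  have R := two_sum (f := fun i => r i 0) (g := fun i => r i 1) (h := fun i => x i (16 : Fin 17))
    (hr 0) (hr 1) hM hx1' (by
      intro i
      obtain ⟨-, -, -, -, -, a0, a1, a2, a3, a4⟩ := hVE' i
      rw [Nat.even_iff] at *
      omega)
  intro i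
  have h1 := L i
  have h2 := R i
  have h3 := hx1' i
  have e1 : ∑ j, l i j = l i 0 + l i 1 := Fin.sum_univ_two (l i)
  have e2 : ∑ j, r i j = r i 0 + r i 1 := Fin.sum_univ_two (r i)
  rw [e1, e2]
  omega

section
variable {m : ℕ} {P : PD m}

/-- per member analysis in the successor: everything but the two special members -/
lemma pass_arith (A02 A23 A13 a24 a41 a30 a34 p q PL QL : ℕ)
    (h0 : PL = A02 + a30) (h0' : PL ≤ 1) (h1 : QL = A13 + a41) (h1' : QL ≤ 1)
    (h2 : q + A23 = a24 + A02) (h2' : q + A23 ≤ 1) (h3 : a34 + A23 = a30 + A13)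
    (h3' : a34 + A23 ≤ 1) (h4 : a34 + p = a41 + a24) (h4' : a34 + p ≤ 1) :
    (p = 0 → q = 0 → (A02 + a24 + a41 + A13 + a30) % 2 = 0 ∧ PL = QL ∧ PL ≤ 1) ∧
    (p = 1 → q = 1 → (A02 + a24 + a41 + A13 + a30) % 2 = 1 → PL = 0 ∧ QL = 0) ∧
    (p = 1 → q = 0 → ((A02 + a24 + a41 + A13 + a30) % 2 = 1 ∧ PL = 0 ∧ QL = 1) ∨
      ((A02 + a24 + a41 + A13 + a30) % 2 = 0 ∧ PL + QL = 1)) ∧
    (p = 0 → q = 1 → ((A02 + a24 + a41 + A13 + a30) % 2 = 1 ∧ PL = 1 ∧ QL = 0) ∨
      ((A02 + a24 + a41 + A13 + a30) % 2 = 0 ∧ PL + QL = 1)) := by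
  omega

lemma sum_yL0 (x : SE P → ℕ) (l r : Fin (m + 3) → ℕ) :
    ∑ j, yL x l r 0 j = ∑ j : Fin (m + 2), l j.castSucc := rfl

lemma sum_yL1 (x : SE P → ℕ) (l r : Fin (m + 3) → ℕ) :
    ∑ j, yL x l r 1 j = ∑ j : Fin (m + 2), r j.castSucc := rfl

lemma sum_yL2 (x : SE P → ℕ) (l r : Fin (m + 3) → ℕ) :
    ∑ j, yL x l r 2 j = r (Fin.last (m + 2)) +
      ∑ j : Fin (m + 1), x (Sum.inr (Sum.inr (Sum.inl (1, j)))) := by
  rw [Fin.sum_univ_succ (n := m + 1)]
  rfl

lemma sum_yL3 (x : SE P → ℕ) (l r : Fin (m + 3) → ℕ) :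
    ∑ j, yL x l r 3 j = x (Sum.inr (Sum.inr (Sum.inr 1))) +
      ∑ j : Fin (m + 1), x (Sum.inr (Sum.inr (Sum.inl (1, j)))) := by
  rw [Fin.sum_univ_succ (n := m + 1)]
  rfl

lemma sum_yR0 (x : SE P → ℕ) :
    ∑ j, yR x 0 j = ∑ j : Fin (m + 1), x (Sum.inr (Sum.inr (Sum.inl (0, j)))) +
      x (Sum.inr (Sum.inr (Sum.inr 0))) := by
  rw [Fin.sum_univ_castSucc (n := m + 1)]
  simp [yR]

lemma sum_yR1 (x : SE P → ℕ) :
    ∑ j, yR x 1 j = ∑ j : Fin (m + 1), x (Sum.inr (Sum.inr (Sum.inl (2, j)))) +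
      x (Sum.inr (Sum.inr (Sum.inr 3))) := by
  rw [Fin.sum_univ_castSucc (n := m + 1)]
  simp [yR]

lemma sum_yR2 (x : SE P → ℕ) :
    ∑ j, yR x 2 j = x (Sum.inr (Sum.inr (Sum.inr 2))) +
      ∑ j : Fin (m + 1), x (Sum.inr (Sum.inr (Sum.inl (0, j)))) := by
  rw [Fin.sum_univ_succ (n := m + 1)]
  rfl

lemma sum_yR3 (x : SE P → ℕ) :
    ∑ j, yR x 3 j = x (Sum.inr (Sum.inr (Sum.inr 0))) +
      ∑ j : Fin (m + 1), x (Sum.inr (Sum.inr (Sum.inl (2, j)))) := by
  rw [Fin.sum_univ_succ (n := m + 1)]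
  rfl

end

section key
variable {ι : Type} [Fintype ι] [DecidableEq ι]

/-- the combination of the members -/
lemma pass_comb {A02 A23 A13 a24 a41 a30 a34 p q PL QL : ι → ℕ} {n : ℕ}
    (h0 : ∀ i, PL i = A02 i + a30 i ∧ PL i ≤ 1) (h1 : ∀ i, QL i = A13 i + a41 i ∧ QL i ≤ 1)
    (h2 : ∀ i, q i + A23 i = a24 i + A02 i ∧ q i + A23 i ≤ 1)
    (h3 : ∀ i, a34 i + A23 i = a30 i + A13 i ∧ a34 i + A23 i ≤ 1)
    (h4 : ∀ i, a34 i + p i = a41 i + a24 i ∧ a34 i + p i ≤ 1)
    (s02 : ∑ i, A02 i = n) (s13 : ∑ i, A13 i = n)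
    (s24 : ∑ i, a24 i = 1) (s41 : ∑ i, a41 i = 1) (s30 : ∑ i, a30 i = 1)
    (sp : ∑ i, p i = 1) (sq : ∑ i, q i = 1) (sPL : ∑ i, PL i = n + 1) (sQL : ∑ i, QL i = n + 1) :
    ∀ i, PL i + p i = QL i + q i ∧ PL i + p i ≤ 1 := by
  have key := fun i => pass_arith (A02 i) (A23 i) (A13 i) (a24 i) (a41 i) (a30 i) (a34 i)
    (p i) (q i) (PL i) (QL i) (h0 i).1 (h0 i).2 (h1 i).1 (h1 i).2 (h2 i).1 (h2 i).2
    (h3 i).1 (h3 i).2 (h4 i).1 (h4 i).2
  obtain ⟨ip, hip⟩ := exists_of_sum sp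
  obtain ⟨iq, hiq⟩ := exists_of_sum sq
  have zp := other_zero sp (i0 := ip) (by omega)
  have zq := other_zero sq (i0 := iq) (by omega)
  have sN : ∑ i, (A02 i + a24 i + a41 i + A13 i + a30 i) = 2 * n + 3 := by
    simp only [Finset.sum_add_distrib]
    omega
  by_cases hpq : ip = iq
  · subst hpq
    have hN : (A02 ip + a24 ip + a41 ip + A13 ip + a30 ip) % 2 = 1 := by
      have e := Finset.add_sum_erase Finset.univ
        (fun i => A02 i + a24 i + a41 i + A13 i + a30 i) (Finset.mem_univ ip)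
      have ev : Even (∑ i ∈ Finset.univ.erase ip, (A02 i + a24 i + a41 i + A13 i + a30 i)) := by
        refine Finset.even_sum _ fun i hi => ?_
        have hne : i ≠ ip := (Finset.mem_erase.1 hi).1
        rw [Nat.even_iff]
        exact ((key i).1 (zp i hne) (zq i hne)).1
      rw [Nat.even_iff] at ev
      omega
    intro i
    by_cases hi : i = ip
    · subst hi
      have := (key i).2.1 hip hiq hN
      omega
    · have h5 := zp i hi
      have h6 := zq i hi
      have := (key i).1 h5 h6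
      omega
  · have hqp : iq ≠ ip := fun h => hpq h.symm
    have hN : (A02 ip + a24 ip + a41 ip + A13 ip + a30 ip +
        (A02 iq + a24 iq + a41 iq + A13 iq + a30 iq)) % 2 = 1 := by
      have e := Finset.add_sum_erase Finset.univ
        (fun i => A02 i + a24 i + a41 i + A13 i + a30 i) (Finset.mem_univ ip)
      have e2 := Finset.add_sum_erase (Finset.univ.erase ip)
        (fun i => A02 i + a24 i + a41 i + A13 i + a30 i)
        (Finset.mem_erase.2 ⟨hqp, Finset.mem_univ iq⟩)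
      have ev : Even (∑ i ∈ (Finset.univ.erase ip).erase iq,
          (A02 i + a24 i + a41 i + A13 i + a30 i)) := by
        refine Finset.even_sum _ fun i hi => ?_
        have hne : i ≠ iq := (Finset.mem_erase.1 hi).1
        have hne' : i ≠ ip := (Finset.mem_erase.1 (Finset.mem_erase.1 hi).2).1
        rw [Nat.even_iff]
        exact ((key i).1 (zp i hne') (zq i hne)).1
      rw [Nat.even_iff] at ev
      omega
    have hD : PL ip + PL iq = QL ip + QL iq := by
      have e := Finset.add_sum_erase Finset.univ (fun i => PL i) (Finset.mem_univ ip)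
      have e2 := Finset.add_sum_erase (Finset.univ.erase ip) (fun i => PL i)
        (Finset.mem_erase.2 ⟨hqp, Finset.mem_univ iq⟩)
      have e' := Finset.add_sum_erase Finset.univ (fun i => QL i) (Finset.mem_univ ip)
      have e2' := Finset.add_sum_erase (Finset.univ.erase ip) (fun i => QL i)
        (Finset.mem_erase.2 ⟨hqp, Finset.mem_univ iq⟩)
      have ev : ∑ i ∈ (Finset.univ.erase ip).erase iq, PL i =
          ∑ i ∈ (Finset.univ.erase ip).erase iq, QL i := by
        refine Finset.sum_congr rfl fun i hi => ?_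
        have hne : i ≠ iq := (Finset.mem_erase.1 hi).1
        have hne' : i ≠ ip := (Finset.mem_erase.1 (Finset.mem_erase.1 hi).2).1
        exact ((key i).1 (zp i hne') (zq i hne)).2.1
      omega
    have kp := (key ip).2.2.1 hip (zq ip hpq)
    have kq := (key iq).2.2.2 (zp iq hqp) hiq
    have zqp := zq ip hpq
    have zpq := zp iq hqp
    intro i
    by_cases hi : i = ip
    · subst hi
      omega
    · by_cases hi' : i = iq
      · subst hi'
        omega
      · have h5 := zp i hi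
        have h6 := zq i hi'
        have := (key i).1 h5 h6
        omega

end key

lemma succ_pass {m : ℕ} {P : PD m} (hP : P.Pass) : P.succ.Pass := by
  intro ι _ _ x l r hVE hx1 hx hxM hl hr
  have hVE' := fun i => (succ_VE_iff P (x i) (l i) (r i)).1 (hVE i)
  have hce : ∀ c : CE m, ∑ i, x i (Sum.inr (Sum.inr c)) = 1 := fun c =>
    hx (Sum.inr (Sum.inr c)) rfl
  have hlc : ∀ j : Fin (m + 2), ∑ i, l i j.castSucc = 1 := fun j => hl _
  have hrc : ∀ j : Fin (m + 2), ∑ i, r i j.castSucc = 1 := fun j => hr _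
  have hll : ∑ i, l i (Fin.last (m + 2)) = 1 := hl _
  have hrl : ∑ i, r i (Fin.last (m + 2)) = 1 := hr _
  have B : ∀ b : Fin 4, (∀ j, ∑ i, yL (x i) (l i) (r i) b j = 1) →
      (∀ j, ∑ i, yR (x i) b j = 1) → ∀ i, ∑ j, yL (x i) (l i) (r i) b j = ∑ j, yR (x i) b j ∧
        ∑ j, yL (x i) (l i) (r i) b j ≤ 1 := by
    intro b h1 h2
    exact hP ι (fun i e => x i (Sum.inl (b, e))) (fun i => yL (x i) (l i) (r i) b)
      (fun i => yR (x i) b) (fun i => (hVE' i).1 b) (fun i e => hx1 i _)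
      (fun e he => hx (Sum.inl (b, e)) he) (fun e he => hxM (Sum.inl (b, e)) he) h1 h2
  have B0 := B 0 hlc (fun j => by
    refine Fin.lastCases ?_ (fun j' => ?_) j
    · simpa [yR] using hce (Sum.inr 0)
    · simpa [yR] using hce (Sum.inl (0, j')))
  have B1 := B 1 hrc (fun j => by
    refine Fin.lastCases ?_ (fun j' => ?_) j
    · simpa [yR] using hce (Sum.inr 3)
    · simpa [yR] using hce (Sum.inl (2, j')))
  have B2 := B 2 (fun j => by
    refine Fin.cases ?_ (fun j' => ?_) j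
    · exact hrl
    · exact hce (Sum.inl (1, j'))) (fun j => by
    refine Fin.cases ?_ (fun j' => ?_) j
    · exact hce (Sum.inr 2)
    · exact hce (Sum.inl (0, j')))
  have B3 := B 3 (fun j => by
    refine Fin.cases ?_ (fun j' => ?_) j
    · exact hce (Sum.inr 1)
    · exact hce (Sum.inl (1, j'))) (fun j => by
    refine Fin.cases ?_ (fun j' => ?_) j
    · exact hce (Sum.inr 0)
    · exact hce (Sum.inl (2, j')))
  have B4 : ∀ i, ∑ j, yL4 (x i) (l i) j = ∑ j, yR4 (x i) j ∧ ∑ j, yL4 (x i) (l i) j ≤ 1 :=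
    base_pass ι (fun i e => x i (Sum.inr (Sum.inl e))) (fun i => yL4 (x i) (l i))
      (fun i => yR4 (x i)) (fun i => (hVE' i).2) (fun i e => hx1 i _)
      (fun e he => hx (Sum.inr (Sum.inl e)) he) (fun e he => hxM (Sum.inr (Sum.inl e)) he)
      (fun j => by
        obtain rfl | rfl : j = 0 ∨ j = 1 := by fin_cases j <;> simp
        · exact hce (Sum.inr 1)
        · exact hll)
      (fun j => by
        obtain rfl | rfl : j = 0 ∨ j = 1 := by fin_cases j <;> simp
        · exact hce (Sum.inr 3)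
        · exact hce (Sum.inr 2))
  have swap : ∀ t : Fin 3, ∑ i, ∑ j : Fin (m + 1), x i (Sum.inr (Sum.inr (Sum.inl (t, j)))) =
      m + 1 := by
    intro t
    rw [Finset.sum_comm]
    simp [hce]
  have K := pass_comb (ι := ι)
    (A02 := fun i => ∑ j : Fin (m + 1), x i (Sum.inr (Sum.inr (Sum.inl (0, j)))))
    (A23 := fun i => ∑ j : Fin (m + 1), x i (Sum.inr (Sum.inr (Sum.inl (1, j)))))
    (A13 := fun i => ∑ j : Fin (m + 1), x i (Sum.inr (Sum.inr (Sum.inl (2, j)))))
    (a24 := fun i => x i (Sum.inr (Sum.inr (Sum.inr 2))))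
    (a41 := fun i => x i (Sum.inr (Sum.inr (Sum.inr 3))))
    (a30 := fun i => x i (Sum.inr (Sum.inr (Sum.inr 0))))
    (a34 := fun i => x i (Sum.inr (Sum.inr (Sum.inr 1))))
    (p := fun i => l i (Fin.last (m + 2))) (q := fun i => r i (Fin.last (m + 2)))
    (PL := fun i => ∑ j : Fin (m + 2), l i j.castSucc)
    (QL := fun i => ∑ j : Fin (m + 2), r i j.castSucc) (n := m + 1)
    (fun i => by have := B0 i; rw [sum_yL0, sum_yR0] at this; exact this)
    (fun i => by have := B1 i; rw [sum_yL1, sum_yR1] at this; exact this)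
    (fun i => by have := B2 i; rw [sum_yL2, sum_yR2] at this; exact this)
    (fun i => by have := B3 i; rw [sum_yL3, sum_yR3] at this; exact this)
    (fun i => by
      have := B4 i
      have e1 : ∑ j, yL4 (x i) (l i) j = x i (Sum.inr (Sum.inr (Sum.inr 1))) +
        l i (Fin.last (m + 2)) := Fin.sum_univ_two (yL4 (x i) (l i))
      have e2 : ∑ j, yR4 (x i) j = x i (Sum.inr (Sum.inr (Sum.inr 3))) +
        x i (Sum.inr (Sum.inr (Sum.inr 2))) := Fin.sum_univ_two (yR4 (x i))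
      rw [e1, e2] at this
      exact this)
    (swap 0) (swap 2) (hce (Sum.inr 2)) (hce (Sum.inr 3)) (hce (Sum.inr 0))
    hll hrl (by rw [Finset.sum_comm]; simp [hlc]) (by rw [Finset.sum_comm]; simp [hrc])
  intro i
  have e1 : ∑ j, l i j = ∑ j : Fin (m + 2), l i j.castSucc + l i (Fin.last (m + 2)) :=
    Fin.sum_univ_castSucc (l i)
  have e2 : ∑ j, r i j = ∑ j : Fin (m + 2), r i j.castSucc + r i (Fin.last (m + 2)) :=
    Fin.sum_univ_castSucc (r i)
  rw [e1, e2]
  exact K i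

lemma pole_pass : ∀ m, (pole m).Pass
  | 0 => base_pass
  | m + 1 => succ_pass (pole_pass m)

end Pool.Agent.MP_c57e60_co
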