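import Pool.Agent.Lib.MP_c57e60_co.Block

set_option autoImplicit false

namespace Pool.Agent.MP_c57e60_co

lemma base_simple : base.Simple := by
  refine ⟨?_, ?_, ?_, ?_⟩
  · change ∀ e : Fin 17, baseA e ≠ baseB e
    decide
  · change ∀ e e' : Fin 17, s(baseA e, baseB e) = s(baseA e', baseB e') → e = e'
    decide
  · change Function.Injective baseL
    decide
  · change Function.Injective baseR
    decide

lemma succ_simple {m : ℕ} {P : PD m} (h : P.Simple) : P.succ.Simple := by
  refine ⟨?_, ?_, ?_, ?_⟩
  · rintro (⟨i, e⟩ | e | ⟨t, j⟩ | t)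
    · intro hh
      have : (i, P.a e) = (i, P.b e) := Sum.inl_injective hh
      exact h.loopless e (Prod.mk.inj this).2
    · intro hh
      have : baseA e = baseB e := Sum.inr_injective hh
      exact base_simple.loopless e this
    · change ceA P (Sum.inl (t, j)) ≠ ceB P (Sum.inl (t, j))
      fin_cases t <;> simp [ceA, ceB]
    · change ceA P (Sum.inr t) ≠ ceB P (Sum.inr t)
      fin_cases t <;> simp [ceA, ceB]
  · have hR : ∀ a b, P.R a = P.R b ↔ a = b := fun a b => h.Rinj.eq_iff
    have hL : ∀ a b, P.L a = P.L b ↔ a = b := fun a b => h.Linj.eq_iff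
    intro x y hh
    replace hh : s(sA P x, sB P x) = s(sA P y, sB P y) := hh
    rw [Sym2.eq_iff] at hh
    rcases x with ⟨i, e⟩ | e | ⟨t, j⟩ | t <;> rcases y with ⟨i', e'⟩ | e' | ⟨t', j'⟩ | t'
    · -- block, block
      have h1 : i = i' := by
        rcases hh with hh | hh <;> simp only [sA, sB, Sum.inl.injEq, Prod.mk.injEq] at hh
        · exact hh.1.1
        · exact hh.1.1
      subst h1
      have h2 : s(P.a e, P.b e) = s(P.a e', P.b e') := by
        rw [Sym2.eq_iff]
        simpa only [sA, sB, Sum.inl.injEq, Prod.mk.injEq, true_and] using hh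
      rw [h.inj e e' h2]
    · exfalso; simp [sA, sB] at hh
    · exfalso
      fin_cases t' <;> simp [sA, sB, ceA, ceB] at hh <;> omega
    · exfalso
      fin_cases t' <;> simp [sA, sB, ceA, ceB] at hh <;> omega
    · exfalso; simp [sA, sB] at hh
    · have h2 : s(baseA e, baseB e) = s(baseA e', baseB e') := by
        rw [Sym2.eq_iff]
        simpa only [sA, sB, Sum.inr.injEq] using hh
      rw [base_simple.inj e e' h2]
    · exfalso
      fin_cases t' <;> simp [sA, sB, ceA, ceB] at hh
    · exfalso
      fin_cases t' <;> simp [sA, sB, ceA, ceB] at hh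
    · exfalso
      fin_cases t <;> simp [sA, sB, ceA, ceB] at hh <;> omega
    · exfalso
      fin_cases t <;> simp [sA, sB, ceA, ceB] at hh
    · have h1 : t = t' ∧ j = j' := by
        fin_cases t <;> fin_cases t' <;> simp [sA, sB, ceA, ceB, hR, hL] at hh ⊢ <;>
        exact hh
      rw [h1.1, h1.2]
    · exfalso
      fin_cases t <;> fin_cases t' <;> simp [sA, sB, ceA, ceB] at hh
    · exfalso
      fin_cases t <;> simp [sA, sB, ceA, ceB] at hh <;> omega
    · exfalso
      fin_cases t <;> simp [sA, sB, ceA, ceB] at hh
    · exfalso
      fin_cases t <;> fin_cases t' <;> simp [sA, sB, ceA, ceB] at hh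
    · have h1 : t = t' := by
        fin_cases t <;> fin_cases t' <;> simp [sA, sB, ceA, ceB] at hh ⊢
      rw [h1]
  · intro x y hxy
    change sL P x = sL P y at hxy
    induction x using Fin.lastCases with
    | last =>
      induction y using Fin.lastCases with
      | last => rfl
      | cast y => simp [sL] at hxy
    | cast x =>
      induction y using Fin.lastCases with
      | last => simp [sL] at hxy
      | cast y =>
        simp only [sL, Fin.lastCases_castSucc, Sum.inl.injEq, Prod.mk.injEq, true_and] at hxy
        rw [h.Linj hxy]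
  · intro x y hxy
    change sR P x = sR P y at hxy
    induction x using Fin.lastCases with
    | last =>
      induction y using Fin.lastCases with
      | last => rfl
      | cast y => simp [sR] at hxy
    | cast x =>
      induction y using Fin.lastCases with
      | last => simp [sR] at hxy
      | cast y =>
        simp only [sR, Fin.lastCases_castSucc, Sum.inl.injEq, Prod.mk.injEq, true_and] at hxy
        rw [h.Linj hxy]

end Pool.Agent.MP_c57e60_co
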