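import Pool.Agent.Lib.MP_c57e60_co.FinalConn
import Pool.Agent.Lib.MP_c57e60_co.Lower
import Pool.Agent.Lib.MP_c57e60_co.Simple
import Pool.Agent.Lib.MP_c57e60_co.Canon
import Pool.Agent.Lib.MP_c57e60_co.Excess
import Pool.Agent.Lib.MP_c57e60_co.Pass

set_option autoImplicit false

namespace Pool.Agent.MP_c57e60_co

section
variable {V E : Type} {a b : E → V} {hl : ∀ e, a e ≠ b e}

lemma reach_induce {S : Finset V} {u v : V} (h : reach a b (S : Set V) u v) (hu : u ∉ S)
    (hv : v ∉ S) : ((mg a b hl).induce {v | v ∉ S}).Reachable ⟨u, hu⟩ ⟨v, hv⟩ := by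
  induction h with
  | refl => exact SimpleGraph.Reachable.refl _
  | tail h1 h2 ih =>
    have hb : _ ∉ S := fun hh => h2.2.1 (Finset.mem_coe.2 hh)
    refine (ih hb).trans (SimpleGraph.Adj.reachable ?_)
    rw [SimpleGraph.comap_adj]
    exact h2.1

end

lemma two_cover {V : Type} [DecidableEq V] {S : Finset V} (hS : S.card ≤ 2) (hne : S.Nonempty) :
    ∃ d e, d ∈ S ∧ e ∈ S ∧ ∀ x ∈ S, x = d ∨ x = e := by
  obtain ⟨d, hd⟩ := hne
  have h1 : (S.erase d).card ≤ 1 := by
    rw [Finset.card_erase_of_mem hd]; omega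
  by_cases h2 : (S.erase d).Nonempty
  · obtain ⟨e, he⟩ := h2
    refine ⟨d, e, hd, (Finset.mem_erase.1 he).2, fun x hx => ?_⟩
    by_cases hxd : x = d
    · exact Or.inl hxd
    · exact Or.inr (Finset.card_le_one.1 h1 _ (Finset.mem_erase.2 ⟨hxd, hx⟩) _ he)
  · rw [Finset.not_nonempty_iff_eq_empty] at h2
    refine ⟨d, d, hd, hd, fun x hx => ?_⟩
    by_cases hxd : x = d
    · exact Or.inl hxd
    · have : x ∈ S.erase d := Finset.mem_erase.2 ⟨hxd, hx⟩
      rw [h2] at this
      exact absurd this (Finset.notMem_empty x)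

section
variable {m : ℕ} {P : PD m}

lemma final_three (hS : P.Simple) (hC : P.Conn) (hm : 1 ≤ m)
    (h3 : ∀ d, ∃ i j, P.L i ≠ d ∧ P.R j ≠ d ∧ reach P.a P.b {d} (P.L i) (P.R j)) :
    ThreeConnected (mg (fA P) (fB P) (f_loopless hS)) := by
  constructor
  · rw [Nat.card_eq_fintype_card]
    simp only [Fintype.card_sum, Fintype.card_prod, Fintype.card_fin, Fintype.card_bool]
    nlinarith
  · intro S hS2
    have hreach : ∀ u v : FV P, u ∉ S → v ∉ S → reach (fA P) (fB P) (S : Set (FV P)) u v := by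
      intro u v hu hv
      by_cases hne : S.Nonempty
      · obtain ⟨d, e, hd, he, hde⟩ := two_cover hS2 hne
        exact final_reach hC hm h3 (fun x hx => hde x (Finset.mem_coe.1 hx))
          (Finset.mem_coe.2 hd) (Finset.mem_coe.2 he) u v (fun h => hu (Finset.mem_coe.1 h))
          (fun h => hv (Finset.mem_coe.1 h))
      · rw [Finset.not_nonempty_iff_eq_empty] at hne
        subst hne
        obtain ⟨j, hj⟩ := pigeon (m := m) hm (D := ({u, v} : Set (FV P))) (d := u) (e := v)
          (fun x hx => by simpa using hx) (fun j => Sum.inr (Sum.inl (0, j)))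
          (fun j k h => by simpa using h)
        refine (final_reach hC hm h3 (D := {Sum.inr (Sum.inl (0, j))}) (fun x hx => Or.inl hx)
          (Set.mem_singleton _) (Set.mem_singleton _) u v ?_ ?_).mono' (by simp)
        · intro h
          rw [Set.mem_singleton_iff] at h
          exact hj (by simp [h])
        · intro h
          rw [Set.mem_singleton_iff] at h
          exact hj (by simp [h])
    obtain ⟨w, hw⟩ : ∃ w : FV P, w ∉ S := by
      by_cases hne : S.Nonempty
      · obtain ⟨d, e, hd, he, hde⟩ := two_cover hS2 hne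
        obtain ⟨j, hj⟩ := pigeon (m := m) hm (D := (S : Set (FV P))) (d := d) (e := e)
          (fun x hx => hde x (Finset.mem_coe.1 hx)) (fun j => Sum.inr (Sum.inl (0, j)))
          (fun j k h => by simpa using h)
        exact ⟨_, fun h => hj (Finset.mem_coe.2 h)⟩
      · rw [Finset.not_nonempty_iff_eq_empty] at hne
        subst hne
        exact ⟨Sum.inr (Sum.inr true), Finset.notMem_empty _⟩
    haveI : Nonempty {v : FV P // v ∈ {v | v ∉ S}} := ⟨⟨w, hw⟩⟩
    refine SimpleGraph.Connected.mk ?_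
    rintro ⟨u, hu⟩ ⟨v, hv⟩
    exact reach_induce (hreach u v hu hv) hu hv

end

lemma pole_simple : ∀ m, (pole m).Simple
  | 0 => base_simple
  | m + 1 => succ_simple (pole_simple m)

lemma pole_canon : ∀ m, (pole m).Canon
  | 0 => base_canon
  | m + 1 => succ_canon (pole_canon m)

lemma pole_excess : ∀ m, (pole m).Excess
  | 0 => base_excess
  | m + 1 => succ_excess (pole_excess m)

lemma pole_conn : ∀ m, (pole m).Conn
  | 0 => base_conn
  | m + 1 => succ_conn (pole_conn m) (pole_simple m).Rinj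

lemma main (k : ℕ) : ∃ (V : Type) (_ : Fintype V) (G : SimpleGraph V), ThreeConnected G ∧
    (∃ (n : ℕ) (C : Fin n → G.Subgraph), IsShortestCycleCover C) ∧
    ∀ (n : ℕ) (C : Fin n → G.Subgraph), IsShortestCycleCover C →
      ∃ e ∈ G.edgeSet, k < edgeMult C e := by
  -- the pole with `2 * k + 3` ports on each side
  have hS := pole_simple (2 * k + 1)
  have hC := pole_canon (2 * k + 1)
  have hE := pole_excess (2 * k + 1)
  have hP := pole_pass (2 * k + 1)
  have hK := pole_conn (2 * k + 1)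
  have h3 : ∀ d, ∃ i j, (pole (2 * k + 1)).L i ≠ d ∧ (pole (2 * k + 1)).R j ≠ d ∧
      reach (pole (2 * k + 1)).a (pole (2 * k + 1)).b {d} ((pole (2 * k + 1)).L i)
        ((pole (2 * k + 1)).R j) := fun d => succ_i3 (pole_conn (2 * k)) d
  have hm : Odd (2 * k + 1) := ⟨k, rfl⟩
  obtain ⟨n0, C0, hC0, hlen0⟩ := upper hS hC hm
  refine ⟨FV (pole (2 * k + 1)), inferInstance,
    mg (fA (pole (2 * k + 1))) (fB (pole (2 * k + 1))) (f_loopless hS),
    final_three hS hK (by omega) h3, ?_, ?_⟩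
  · -- a shortest cycle cover exists
    have hex : ∃ N, ∃ (n : ℕ) (C : Fin n → (mg (fA (pole (2 * k + 1))) (fB (pole (2 * k + 1)))
        (f_loopless hS)).Subgraph), IsCycleCover C ∧ coverLength C = N := ⟨_, n0, C0, hC0, rfl⟩
    classical
    obtain ⟨n, C, h1, h2⟩ := Nat.find_spec hex
    refine ⟨n, C, h1, fun n' C' h' => ?_⟩
    rw [h2]
    exact Nat.find_min' hex ⟨n', C', h', rfl⟩
  · intro n C hCs
    refine ⟨_, (mem_edgeSet_iff (hl := f_loopless hS) _).2 ⟨Sum.inr (Sum.inr (Sum.inr (Sum.inr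
      (Sum.inr (Sum.inr ()))))), rfl⟩, ?_⟩
    rw [lower hS hE hP C hCs.1 (by rw [← hlen0]; exact hCs.2 n0 C0 hC0)]
    omega

end Pool.Agent.MP_c57e60_co
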