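import Mathlib

set_option autoImplicit false

namespace Pool.Agent.MP_c57e60_co

/-- A pole with `m + 2` left ports and `m + 2` right ports: a finite multigraph with vertex type `V`,
edge type `E`, endpoint maps `a`, `b`, terminals `L`, `R`, a set `M` of special edges and a
canonical family `can` of edge sets (as zero-one functions). -/
structure PD (m : ℕ) where
  V : Type
  E : Type
  [fV : Fintype V]
  [dV : DecidableEq V]
  [fE : Fintype E]
  [dE : DecidableEq E]
  a : E → V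
  b : E → V
  L : Fin (m + 2) → V
  R : Fin (m + 2) → V
  M : E → Bool
  can : Fin (m + 2) → E → ℕ

attribute [instance] PD.fV PD.dV PD.fE PD.dE

/-- degree-type sum at a vertex of a multigraph -/
def vs {V E : Type} [DecidableEq V] [Fintype E] (a b : E → V) (x : E → ℕ) (v : V) : ℕ :=
  ∑ e, ((if a e = v then x e else 0) + (if b e = v then x e else 0))

/-- port sum at a vertex -/
def ps {V : Type} [DecidableEq V] {k : ℕ} (T : Fin k → V) (y : Fin k → ℕ) (v : V) : ℕ :=
  ∑ j, (if T j = v then y j else 0)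

/-- all vertex sums (including ports) are even -/
def PD.VE {m : ℕ} (P : PD m) (x : P.E → ℕ) (l r : Fin (m + 2) → ℕ) : Prop :=
  ∀ v, Even (vs P.a P.b x v + ps P.L l v + ps P.R r v)

lemma sum_vs {V E : Type} [Fintype V] [DecidableEq V] [Fintype E] (a b : E → V) (x : E → ℕ) :
    ∑ v, vs a b x v = 2 * ∑ e, x e := by
  unfold vs
  rw [Finset.sum_comm, Finset.mul_sum]
  refine Finset.sum_congr rfl fun e _ => ?_
  rw [Finset.sum_add_distrib]
  simp
  ring

lemma sum_ps {V : Type} [Fintype V] [DecidableEq V] {k : ℕ} (T : Fin k → V) (y : Fin k → ℕ) :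
    ∑ v, ps T y v = ∑ j, y j := by
  unfold ps
  rw [Finset.sum_comm]
  simp

lemma PD.VE.even_ports {m : ℕ} {P : PD m} {x : P.E → ℕ} {l r : Fin (m + 2) → ℕ}
    (h : P.VE x l r) : Even (∑ j, l j + ∑ j, r j) := by
  have h1 : Even (∑ v, (vs P.a P.b x v + ps P.L l v + ps P.R r v)) :=
    Finset.even_sum _ fun v _ => h v
  rw [Finset.sum_add_distrib, Finset.sum_add_distrib, sum_vs, sum_ps, sum_ps] at h1
  rw [Nat.even_iff] at h1 ⊢
  omega

/-- number of special edges -/
def PD.mu {m : ℕ} (P : PD m) : ℕ := ∑ e, (if P.M e then 1 else 0)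

/-! ### properties -/

/-- no loops and no parallel edges, distinct terminals on each side -/
structure PD.Simple {m : ℕ} (P : PD m) : Prop where
  loopless : ∀ e, P.a e ≠ P.b e
  inj : ∀ e e', s(P.a e, P.b e) = s(P.a e', P.b e') → e = e'
  Linj : Function.Injective P.L
  Rinj : Function.Injective P.R

/-- the canonical family -/
structure PD.Canon {m : ℕ} (P : PD m) : Prop where
  le_one : ∀ i e, P.can i e ≤ 1
  even : ∀ i, P.VE (P.can i) (fun j => if j = i then 1 else 0) (fun j => if j = i then 1 else 0)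
  count : ∀ e, ∑ i, P.can i e = if P.M e then 2 else 1

/-- the local excess bound -/
def PD.Excess {m : ℕ} (P : PD m) : Prop :=
  ∀ (c : P.E → ℕ) (l r : Fin (m + 2) → ℕ), (∀ e, 1 ≤ c e) → (∀ j, 1 ≤ l j) → (∀ j, 1 ≤ r j) →
    P.VE c l r → P.mu ≤ ∑ e, (c e - 1) ∧
      (∑ e, (c e - 1) ≤ P.mu → ∀ e, P.M e = false → c e = 1)

/-- the straight pass property -/
def PD.Pass {m : ℕ} (P : PD m) : Prop :=
  ∀ (ι : Type) [Fintype ι] [DecidableEq ι] (x : ι → P.E → ℕ) (l r : ι → Fin (m + 2) → ℕ),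
    (∀ i, P.VE (x i) (l i) (r i)) → (∀ i e, x i e ≤ 1) →
    (∀ e, P.M e = false → ∑ i, x i e = 1) → (∀ e, P.M e = true → 1 ≤ ∑ i, x i e) →
    (∀ j, ∑ i, l i j = 1) → (∀ j, ∑ i, r i j = 1) →
    ∀ i, ∑ j, l i j = ∑ j, r i j ∧ ∑ j, l i j ≤ 1

/-- adjacency of a multigraph -/
def adj {V E : Type} (a b : E → V) (u v : V) : Prop :=
  ∃ e, (a e = u ∧ b e = v) ∨ (a e = v ∧ b e = u)

/-- reachability avoiding a set `D` -/
def reach {V E : Type} (a b : E → V) (D : Set V) : V → V → Prop :=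
  Relation.ReflTransGen fun u v => adj a b u v ∧ u ∉ D ∧ v ∉ D

/-- connectivity invariants -/
structure PD.Conn {m : ℕ} (P : PD m) : Prop where
  i0 : ∀ u v, reach P.a P.b ∅ u v
  i1 : ∀ d w, w ≠ d →
    (reach P.a P.b {d} w (P.L 0) ∧ reach P.a P.b {d} w (P.L 1)) ∨
    (reach P.a P.b {d} w (P.R 0) ∧ reach P.a P.b {d} w (P.R 1))
  i2 : ∀ d1 d2 w, w ≠ d1 → w ≠ d2 →
    (∃ j, reach P.a P.b {d1, d2} w (P.L j)) ∨ (∃ j, reach P.a P.b {d1, d2} w (P.R j))

/-! ### the base pole -/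

def baseA : Fin 17 → Fin 10 := ![0, 1, 3, 4, 1, 4, 0, 3, 5, 6, 8, 9, 6, 9, 5, 8, 2]
def baseB : Fin 17 → Fin 10 := ![1, 3, 4, 2, 4, 0, 3, 2, 6, 8, 9, 7, 9, 5, 8, 7, 7]
def baseM : Fin 17 → Bool :=
  ![false, false, false, false, false, false, false, false,
    false, false, false, false, false, false, false, false, true]
def baseL : Fin 2 → Fin 10 := ![0, 1]
def baseR : Fin 2 → Fin 10 := ![5, 6]
def baseCan : Fin 2 → Fin 17 → ℕ :=
  ![![1, 1, 1, 1, 0, 0, 0, 0, 1, 1, 1, 1, 0, 0, 0, 0, 1],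
    ![0, 0, 0, 0, 1, 1, 1, 1, 0, 0, 0, 0, 1, 1, 1, 1, 1]]

/-- the base pole: two five-vertex blobs joined by one special edge -/
def base : PD 0 where
  V := Fin 10
  E := Fin 17
  a := baseA
  b := baseB
  L := baseL
  R := baseR
  M := baseM
  can := baseCan

/-! ### the successor pole -/

/-- connecting edges of the successor -/
abbrev CE (m : ℕ) : Type := (Fin 3 × Fin (m + 1)) ⊕ Fin 4

section succ
variable {m : ℕ} (P : PD m)

abbrev SV : Type := (Fin 4 × P.V) ⊕ Fin 10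
abbrev SE : Type := (Fin 4 × P.E) ⊕ (Fin 17 ⊕ CE m)

def ceA : CE m → SV P
  | Sum.inl (t, j) =>
    if t = 0 then Sum.inl (0, P.R j.castSucc)
    else if t = 1 then Sum.inl (2, P.L j.succ)
    else Sum.inl (3, P.R j.succ)
  | Sum.inr t =>
    if t = 0 then Sum.inl (3, P.R 0)
    else if t = 1 then Sum.inl (3, P.L 0)
    else if t = 2 then Sum.inl (2, P.R 0)
    else Sum.inr 5

def ceB : CE m → SV P
  | Sum.inl (t, j) =>
    if t = 0 then Sum.inl (2, P.R j.succ)
    else if t = 1 then Sum.inl (3, P.L j.succ)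
    else Sum.inl (1, P.R j.castSucc)
  | Sum.inr t =>
    if t = 0 then Sum.inl (0, P.R (Fin.last (m + 1)))
    else if t = 1 then Sum.inr 0
    else if t = 2 then Sum.inr 6
    else Sum.inl (1, P.R (Fin.last (m + 1)))

def sA : SE P → SV P
  | Sum.inl (i, e) => Sum.inl (i, P.a e)
  | Sum.inr (Sum.inl e) => Sum.inr (baseA e)
  | Sum.inr (Sum.inr c) => ceA P c

def sB : SE P → SV P
  | Sum.inl (i, e) => Sum.inl (i, P.b e)
  | Sum.inr (Sum.inl e) => Sum.inr (baseB e)
  | Sum.inr (Sum.inr c) => ceB P c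

def sL : Fin (m + 3) → SV P :=
  Fin.lastCases (motive := fun _ => SV P) (Sum.inr 1) (fun j => Sum.inl (0, P.L j))

def sR : Fin (m + 3) → SV P :=
  Fin.lastCases (motive := fun _ => SV P) (Sum.inl (2, P.L 0)) (fun j => Sum.inl (1, P.L j))

def sM : SE P → Bool
  | Sum.inl (_, e) => P.M e
  | Sum.inr (Sum.inl e) => baseM e
  | Sum.inr (Sum.inr _) => false

/-- canonical family, strand `j ≤ m` -/
def can1 (j : Fin (m + 1)) : SE P → ℕ
  | Sum.inl (i, e) => if i = 0 ∨ i = 1 then P.can j.castSucc e else P.can j.succ e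
  | Sum.inr (Sum.inl _) => 0
  | Sum.inr (Sum.inr (Sum.inl (_, j'))) => if j' = j then 1 else 0
  | Sum.inr (Sum.inr (Sum.inr _)) => 0

/-- canonical family, strand `m + 1` -/
def can2 : SE P → ℕ
  | Sum.inl (i, e) => if i = 0 ∨ i = 1 then P.can (Fin.last (m + 1)) e
      else if i = 3 then P.can 0 e else 0
  | Sum.inr (Sum.inl e) => baseCan 0 e
  | Sum.inr (Sum.inr (Sum.inl _)) => 0
  | Sum.inr (Sum.inr (Sum.inr t)) => if t = 2 then 0 else 1

/-- canonical family, strand `m + 2` -/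
def can3 : SE P → ℕ
  | Sum.inl (i, e) => if i = 2 then P.can 0 e else 0
  | Sum.inr (Sum.inl e) => baseCan 1 e
  | Sum.inr (Sum.inr (Sum.inl _)) => 0
  | Sum.inr (Sum.inr (Sum.inr t)) => if t = 2 then 1 else 0

def sCan : Fin (m + 3) → SE P → ℕ :=
  Fin.lastCases (motive := fun _ => SE P → ℕ) (can3 P)
    (Fin.lastCases (motive := fun _ => SE P → ℕ) (can2 P) (can1 P))

/-- the successor pole -/
def PD.succ : PD (m + 1) where
  V := SV P
  E := SE P
  a := sA P
  b := sB P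
  L := sL P
  R := sR P
  M := sM P
  can := sCan P

end succ

/-- the tower of poles -/
def pole : (m : ℕ) → PD m
  | 0 => base
  | m + 1 => (pole m).succ

end Pool.Agent.MP_c57e60_co
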