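import Pool.Agent.Lib.MP_c57e60_co.Final

set_option autoImplicit false

namespace Pool.Agent.MP_c57e60_co

lemma sum_castSucc_eq {n : ℕ} (s : Fin (n + 1)) (c : ℕ) :
    ∑ r : Fin n, (if r.castSucc = s then c else 0) + (if Fin.last n = s then c else 0) = c := by
  induction s using Fin.lastCases with
  | last =>
    rw [if_pos rfl, Finset.sum_eq_zero, zero_add]
    intro r _
    rw [if_neg (Fin.castSucc_lt_last r).ne]
  | cast s =>
    rw [if_neg (Fin.castSucc_lt_last s).ne']
    simp

lemma sum_succ_eq {n : ℕ} (s : Fin (n + 1)) (c : ℕ) :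
    ∑ r : Fin n, (if r.succ = s then c else 0) + (if 0 = s then c else 0) = c := by
  induction s using Fin.cases with
  | zero =>
    rw [if_pos rfl, Finset.sum_eq_zero, zero_add]
    intro r _
    rw [if_neg (Fin.succ_ne_zero r)]
  | succ s =>
    rw [if_neg (Fin.succ_ne_zero s).symm]
    simp

lemma hub_degree (m : ℕ) (j : Fin (m + 2)) :
    ∑ p : HE m, ((if p.1.1 = j then 1 else 0) + (if p.1.2 = j then 1 else 0)) = m + 1 := by
  have h1 := Finset.sum_subtype (F := inferInstance)
    (p := fun q : Fin (m + 2) × Fin (m + 2) => q.1 < q.2)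
    (Finset.univ.filter (fun q : Fin (m + 2) × Fin (m + 2) => q.1 < q.2)) (by simp)
    (fun q => ((if q.1 = j then 1 else 0) + (if q.2 = j then 1 else 0)))
  rw [← h1, Finset.sum_filter, Fintype.sum_prod_type]
  have h2 : ∀ x y : Fin (m + 2), (if (x, y).1 < (x, y).2 then ((if (x, y).1 = j then 1 else 0) +
      (if (x, y).2 = j then 1 else 0)) else 0) =
      (if x = j then (if j < y then 1 else 0) else 0) +
      (if y = j then (if x < j then 1 else 0) else 0) := by
    intro x y
    simp only
    by_cases h3 : x = j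
    · subst h3
      by_cases h4 : y = x
      · subst h4; simp
      · simp [h4]
    · by_cases h4 : y = j
      · subst h4; simp [h3]
      · simp [h3, h4]
  rw [Finset.sum_congr rfl fun x _ => Finset.sum_congr rfl fun y _ => h2 x y]
  simp only [Finset.sum_add_distrib]
  have h5 : ∑ x : Fin (m + 2), ∑ y : Fin (m + 2),
      (if x = j then (if j < y then 1 else 0) else 0) = ∑ y : Fin (m + 2),
      (if j < y then 1 else 0) := by
    rw [Finset.sum_eq_single j]
    · simp
    · intro x _ hx
      simp [hx]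
    · simp
  have h6 : ∑ x : Fin (m + 2), ∑ y : Fin (m + 2),
      (if y = j then (if x < j then 1 else 0) else 0) = ∑ y : Fin (m + 2),
      (if y < j then 1 else 0) := by
    refine Finset.sum_congr rfl fun x _ => ?_
    simp
  rw [h5, h6, ← Finset.sum_add_distrib]
  have h7 : ∀ y : Fin (m + 2), ((if j < y then 1 else 0) + (if y < j then 1 else 0)) +
      (if y = j then 1 else 0) = 1 := by
    intro y
    rcases lt_trichotomy j y with h | h | h
    · simp [h, h.ne', not_lt.2 h.le]
    · simp [h]
    · simp [h, h.ne, not_lt.2 h.le]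
  have h8 : ∑ y : Fin (m + 2), (((if j < y then 1 else 0) + (if y < j then 1 else 0)) +
      (if y = j then 1 else 0)) = m + 2 := by
    rw [Finset.sum_congr rfl fun y _ => h7 y]
    simp
  rw [Finset.sum_add_distrib] at h8
  simp only [Finset.sum_ite_eq', Finset.mem_univ, if_true] at h8
  omega

section
variable {m : ℕ} (P : PD m)

/-- the canonical strands of the final graph -/
def strand (i : Fin (m + 2)) : FE P → ℕ
  | Sum.inl (_, e) => P.can i e
  | Sum.inr (Sum.inl (_, j)) => if j = i then 1 else 0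
  | Sum.inr (Sum.inr (Sum.inl (_, j))) => if j = i then 1 else 0
  | Sum.inr (Sum.inr (Sum.inr (Sum.inl (_, _)))) => 0
  | Sum.inr (Sum.inr (Sum.inr (Sum.inr (Sum.inl j)))) => if j = i then 1 else 0
  | Sum.inr (Sum.inr (Sum.inr (Sum.inr (Sum.inr (Sum.inl j))))) => if j = i then 1 else 0
  | Sum.inr (Sum.inr (Sum.inr (Sum.inr (Sum.inr (Sum.inr _))))) => 1

/-- the union of the hubs -/
def hubset : FE P → ℕ
  | Sum.inr (Sum.inr (Sum.inr (Sum.inl (_, _)))) => 1
  | _ => 0

variable {P}

lemma strand_even (h : P.Canon) (i : Fin (m + 2)) :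
    ∀ v, Even (vs (fA P) (fB P) (strand P i) v) := by
  rintro (⟨r, u⟩ | ⟨s, j⟩ | b)
  · rw [f_vs_blk]
    exact h.even i u
  · rw [f_vs_hub]
    simp only [strand, ite_self, add_zero, Finset.sum_const_zero]
    have h1 := sum_castSucc_eq s (if j = i then 1 else 0)
    have h2 := sum_succ_eq s (if j = i then 1 else 0)
    rw [Nat.even_iff]
    omega
  · cases b
    · rw [f_vs_false]
      simp [strand]
    · rw [f_vs_true]
      simp [strand]

lemma hubset_even (hm : Odd m) : ∀ v, Even (vs (fA P) (fB P) (hubset P) v) := by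
  rintro (⟨r, u⟩ | ⟨s, j⟩ | b)
  · rw [f_vs_blk]
    simp [hubset, vs, ps]
  · rw [f_vs_hub]
    simp only [hubset, ite_self, add_zero, Finset.sum_const_zero, zero_add]
    rw [hub_degree]
    exact hm.add_one
  · cases b
    · rw [f_vs_false]
      simp [hubset]
    · rw [f_vs_true]
      simp [hubset]

lemma strand_le (h : P.Canon) (i : Fin (m + 2)) (e : FE P) : strand P i e ≤ 1 := by
  rcases e with ⟨r, e⟩ | ⟨r, j⟩ | ⟨r, j⟩ | ⟨s, p⟩ | j | j | _
  · exact h.le_one i e
  all_goals (simp only [strand]; try split_ifs <;> omega)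
  all_goals omega

lemma hubset_le (e : FE P) : hubset P e ≤ 1 := by
  rcases e with ⟨r, e⟩ | ⟨r, j⟩ | ⟨r, j⟩ | ⟨s, p⟩ | j | j | _ <;> simp [hubset]

variable (P) in
/-- canonical coverage -/
def cov : FE P → ℕ
  | Sum.inl (_, e) => if P.M e then 2 else 1
  | Sum.inr (Sum.inr (Sum.inr (Sum.inr (Sum.inr (Sum.inr _))))) => m + 2
  | _ => 1

lemma cov_eq (h : P.Canon) (e : FE P) : ∑ k, (Fin.lastCases (motive := fun _ => FE P → ℕ)
    (hubset P) (strand P) : Fin (m + 3) → FE P → ℕ) k e = cov P e := by
  rw [Fin.sum_univ_castSucc]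
  simp only [Fin.lastCases_last, Fin.lastCases_castSucc]
  rcases e with ⟨r, e⟩ | ⟨r, j⟩ | ⟨r, j⟩ | ⟨s, p⟩ | j | j | _
  · have := h.count e
    simp only [strand, hubset, cov, add_zero]
    exact this
  · simp [strand, hubset, cov]
  · simp [strand, hubset, cov]
  · simp [strand, hubset, cov]
  · simp [strand, hubset, cov]
  · simp [strand, hubset, cov]
  · simp [strand, hubset, cov]

/-- the canonical cover -/
lemma upper (hS : P.Simple) (h : P.Canon) (hm : Odd m) :
    ∃ (n : ℕ) (C : Fin n → (mg (fA P) (fB P) (f_loopless hS)).Subgraph), IsCycleCover C ∧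
      coverLength C = ∑ e, cov P e := by
  obtain ⟨n, C, h1, h2⟩ := cover_of_even (hl := f_loopless hS) (f_inj hS)
    (Fin.lastCases (motive := fun _ => FE P → ℕ)
      (hubset P) (strand P) : Fin (m + 3) → FE P → ℕ) (by
      intro k e
      induction k using Fin.lastCases with
      | last => rw [Fin.lastCases_last]; exact hubset_le e
      | cast k => rw [Fin.lastCases_castSucc]; exact strand_le h k e) (by
      intro k v
      induction k using Fin.lastCases with
      | last => rw [Fin.lastCases_last]; exact hubset_even hm v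
      | cast k => rw [Fin.lastCases_castSucc]; exact strand_even h k v) (by
      intro e
      rw [cov_eq h]
      rcases e with ⟨r, e⟩ | ⟨r, j⟩ | ⟨r, j⟩ | ⟨s, p⟩ | j | j | _ <;> simp only [cov]
      · split_ifs <;> omega
      all_goals omega)
  refine ⟨n, C, h1, ?_⟩
  rw [h2]
  exact Finset.sum_congr rfl fun e _ => cov_eq h e

end

end Pool.Agent.MP_c57e60_co
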